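import Mathlib

set_option autoImplicit false

/-!
Taylor coefficients at `0`.
-/

namespace Pool.Agent.J4.H68.AC

open Complex MeasureTheory Set Filter Topology Metric Finset

/-- Taylor coefficient -/
noncomputable def tc (n : ℕ) (g : ℂ → ℂ) : ℂ := iteratedDeriv n g 0 / (n.factorial : ℂ)

lemma tc_congr {g h : ℂ → ℂ} (hgh : g =ᶠ[𝓝 0] h) (n : ℕ) : tc n g = tc n h := by
  unfold tc
  rw [hgh.iteratedDeriv_eq n]

lemma tc_zero (g : ℂ → ℂ) : tc 0 g = g 0 := by simp [tc]

lemma tc_add {g h : ℂ → ℂ} (hg : AnalyticAt ℂ g 0) (hh : AnalyticAt ℂ h 0) (n : ℕ) :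
    tc n (fun z => g z + h z) = tc n g + tc n h := by
  unfold tc
  rw [iteratedDeriv_fun_add hg.contDiffAt hh.contDiffAt, add_div]

lemma tc_sub {g h : ℂ → ℂ} (hg : AnalyticAt ℂ g 0) (hh : AnalyticAt ℂ h 0) (n : ℕ) :
    tc n (fun z => g z - h z) = tc n g - tc n h := by
  unfold tc
  rw [iteratedDeriv_fun_sub hg.contDiffAt hh.contDiffAt, sub_div]

lemma tc_const_mul (c : ℂ) (g : ℂ → ℂ) (n : ℕ) : tc n (fun z => c * g z) = c * tc n g := by
  unfold tc
  rw [iteratedDeriv_const_mul_field, mul_div_assoc]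

lemma tc_sum {ι : Type*} (s : Finset ι) {g : ι → ℂ → ℂ} (hg : ∀ i ∈ s, AnalyticAt ℂ (g i) 0) (n : ℕ) :
    tc n (fun z => ∑ i ∈ s, g i z) = ∑ i ∈ s, tc n (g i) := by
  unfold tc
  rw [iteratedDeriv_fun_sum (fun i hi => (hg i hi).contDiffAt), sum_div]

lemma tc_succ (g : ℂ → ℂ) (n : ℕ) : ((n:ℂ) + 1) * tc (n + 1) g = tc n (deriv g) := by
  unfold tc
  rw [iteratedDeriv_succ', Nat.factorial_succ]
  have h1 : ((n:ℂ) + 1) ≠ 0 := by exact_mod_cast Nat.succ_ne_zero n
  have h2 : ((n.factorial : ℕ) : ℂ) ≠ 0 := by exact_mod_cast n.factorial_ne_zero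
  push_cast
  field_simp

lemma tc_mul {g h : ℂ → ℂ} (hg : AnalyticAt ℂ g 0) (hh : AnalyticAt ℂ h 0) (n : ℕ) :
    tc n (fun z => g z * h z) = ∑ k ∈ range (n + 1), tc k g * tc (n - k) h := by
  unfold tc
  rw [iteratedDeriv_fun_mul hg.contDiffAt hh.contDiffAt, sum_div]
  refine sum_congr rfl fun k hk => ?_
  have hk' : k ≤ n := Nat.lt_succ_iff.1 (mem_range.1 hk)
  have h1 : ((k.factorial : ℕ) : ℂ) ≠ 0 := by exact_mod_cast k.factorial_ne_zero
  have h2 : (((n - k).factorial : ℕ) : ℂ) ≠ 0 := by exact_mod_cast (n - k).factorial_ne_zero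
  have h3 : ((n.factorial : ℕ) : ℂ) ≠ 0 := by exact_mod_cast n.factorial_ne_zero
  have h4 : ((n.choose k : ℕ) : ℂ) * ((k.factorial : ℕ) : ℂ) * (((n - k).factorial : ℕ) : ℂ)
      = ((n.factorial : ℕ) : ℂ) := by exact_mod_cast Nat.choose_mul_factorial_mul_factorial hk'
  rw [← h4]
  have h5 : ((n.choose k : ℕ) : ℂ) ≠ 0 := by
    exact_mod_cast (Nat.choose_pos hk').ne'
  field_simp

lemma tc_const (c : ℂ) (n : ℕ) : tc n (fun _ => c) = if n = 0 then c else 0 := by
  unfold tc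
  rw [iteratedDeriv_const]
  split_ifs with h
  · simp [h]
  · simp

lemma tc_id (n : ℕ) : tc n (fun z => z) = if n = 1 then 1 else 0 := by
  rcases n with _ | n
  · simp [tc_zero]
  · have h := tc_succ (fun z => z) n
    have h1 : deriv (fun z : ℂ => z) = fun _ => 1 := by funext z; simp
    rw [h1, tc_const] at h
    rcases Nat.eq_zero_or_pos n with h0 | h0
    · subst h0
      simpa using h
    · rw [if_neg (by omega)] at h ⊢
      rcases mul_eq_zero.1 h with h2 | h2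
      · exfalso
        have : ((n:ℂ) + 1) ≠ 0 := by exact_mod_cast Nat.succ_ne_zero n
        exact this h2
      · exact h2

lemma tc_z_mul {g : ℂ → ℂ} (hg : AnalyticAt ℂ g 0) (n : ℕ) :
    tc (n + 1) (fun z => z * g z) = tc n g := by
  have hid : AnalyticAt ℂ (fun z : ℂ => z) 0 := analyticAt_id
  rw [tc_mul hid hg, sum_eq_single 1]
  · rw [tc_id, if_pos rfl, one_mul]
    simp
  · intro k _ hk
    rw [tc_id, if_neg hk, zero_mul]
  · intro h
    exact absurd (Finset.mem_range.2 (by omega)) h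

lemma tc_pow (k n : ℕ) : tc n (fun z => z ^ k) = if n = k then 1 else 0 := by
  induction k generalizing n with
  | zero =>
    simp only [pow_zero]
    rw [tc_const]
  | succ k ih =>
    rcases n with _ | n
    · simp [tc_zero]
    · have h1 : (fun z : ℂ => z ^ (k + 1)) = fun z => z * z ^ k := by funext z; ring
      rw [h1, tc_z_mul (by fun_prop), ih]
      simp

/-- rotation -/
lemma tc_rot {g : ℂ → ℂ} (hg : AnalyticAt ℂ g 0) (c : ℂ) (n : ℕ) :
    tc n (fun z => g (c * z)) = c ^ n * tc n g := by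
  induction n generalizing g with
  | zero => simp [tc_zero]
  | succ n ih =>
    have h1 : ((n:ℂ) + 1) ≠ 0 := by exact_mod_cast Nat.succ_ne_zero n
    apply mul_left_cancel₀ h1
    rw [tc_succ]
    have h2 : deriv (fun z => g (c * z)) = fun z => c * deriv g (c * z) := by
      funext z
      rw [deriv_comp_mul_left]
      rfl
    rw [h2, tc_const_mul, ih hg.deriv]
    have h3 := tc_succ g n
    rw [← h3]
    ring

/-- the derivative of a composition -/
lemma tc_comp_succ {Ψ q : ℂ → ℂ} (hΨ : AnalyticAt ℂ Ψ (q 0)) (hq : AnalyticAt ℂ q 0) (n : ℕ) :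
    ((n:ℂ) + 1) * tc (n + 1) (fun z => Ψ (q z)) = tc n (fun z => deriv Ψ (q z) * deriv q z) := by
  rw [tc_succ]
  refine tc_congr ?_ n
  have h1 : ∀ᶠ z in 𝓝 (0:ℂ), AnalyticAt ℂ q z := hq.eventually_analyticAt
  have h2 : ∀ᶠ z in 𝓝 (0:ℂ), AnalyticAt ℂ Ψ (q z) := hq.continuousAt.eventually hΨ.eventually_analyticAt
  filter_upwards [h1, h2] with z hz1 hz2
  have := hz2.differentiableAt.hasDerivAt.comp z hz1.differentiableAt.hasDerivAt
  exact this.deriv

end Pool.Agent.J4.H68.AC
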