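import Pool.Agent.J4.H68.AC.B1

set_option autoImplicit false

/-!
Dependence of the Taylor coefficients of a composition on parameters.
-/

namespace Pool.Agent.J4.H68.AC

open Complex MeasureTheory Set Filter Topology Metric Finset

/-- the perturbed function -/
def pert (q η : ℂ → ℂ) (ε : ℝ) (z : ℂ) : ℂ := q z + ε * η z

lemma an_pert {q η : ℂ → ℂ} (hq : AnalyticAt ℂ q 0) (hη : AnalyticAt ℂ η 0) (ε : ℝ) :
    AnalyticAt ℂ (pert q η ε) 0 := hq.add (analyticAt_const.mul hη)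

lemma tc_pert {q η : ℂ → ℂ} (hq : AnalyticAt ℂ q 0) (hη : AnalyticAt ℂ η 0) (ε : ℝ) (n : ℕ) :
    tc n (pert q η ε) = tc n q + ε * tc n η := by
  unfold pert
  rw [tc_add hq (analyticAt_const.fun_mul hη), tc_const_mul]

lemma pert_zero {q η : ℂ → ℂ} (hη0 : η 0 = 0) (ε : ℝ) : pert q η ε 0 = q 0 := by
  simp [pert, hη0]

lemma an_comp_pert {Ψ q η : ℂ → ℂ} (hΨ : AnalyticAt ℂ Ψ (q 0)) (hq : AnalyticAt ℂ q 0)
    (hη : AnalyticAt ℂ η 0) (hη0 : η 0 = 0) (ε : ℝ) :
    AnalyticAt ℂ (fun z => Ψ (pert q η ε z)) 0 :=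
  AnalyticAt.fun_comp (by rw [pert_zero hη0]; exact hΨ) (an_pert hq hη ε)

/-- derivative with respect to the parameter of the Taylor coefficients of a composition -/
theorem hasDerivAt_tc_comp {q η : ℂ → ℂ} (hq : AnalyticAt ℂ q 0)
    (hη : AnalyticAt ℂ η 0) (hη0 : η 0 = 0) (n : ℕ) :
    ∀ Ψ : ℂ → ℂ, AnalyticAt ℂ Ψ (q 0) → ∀ ε : ℝ,
      HasDerivAt (fun ε : ℝ => tc n (fun z => Ψ (pert q η ε z)))
        (tc n (fun z => deriv Ψ (pert q η ε z) * η z)) ε := by
  induction n using Nat.strong_induction_on with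
  | _ n ih =>
    intro Ψ hΨ ε
    rcases n with _ | n
    · simp only [tc_zero, hη0, mul_zero, pert_zero hη0]
      exact hasDerivAt_const _ _
    · have h1 : ((n:ℂ) + 1) ≠ 0 := by exact_mod_cast Nat.succ_ne_zero n
      have hdq : ∀ ε : ℝ, AnalyticAt ℂ (deriv (pert q η ε)) 0 := fun ε => (an_pert hq hη ε).deriv
      have hΨ' := hΨ.deriv
      have hA : ∀ ε : ℝ, AnalyticAt ℂ (fun z => deriv Ψ (pert q η ε z)) 0 :=
        fun ε => an_comp_pert hΨ' hq hη hη0 ε
      have hform : ∀ ε : ℝ, tc (n + 1) (fun z => Ψ (pert q η ε z))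
          = ((n:ℂ) + 1)⁻¹ * ∑ k ∈ range (n + 1), tc k (fun z => deriv Ψ (pert q η ε z)) *
            ((((n - k : ℕ) : ℂ) + 1) * (tc (n - k + 1) q + ε * tc (n - k + 1) η)) := by
        intro ε
        rw [eq_inv_mul_iff_mul_eq₀ h1]
        rw [tc_comp_succ (by rw [pert_zero hη0]; exact hΨ) (an_pert hq hη ε)]
        rw [tc_mul (hA ε) (hdq ε)]
        refine sum_congr rfl fun k _ => ?_
        rw [← tc_succ, tc_pert hq hη]
      have hfun : (fun ε : ℝ => tc (n + 1) (fun z => Ψ (pert q η ε z)))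
          = fun ε : ℝ => ((n:ℂ) + 1)⁻¹ * ∑ k ∈ range (n + 1), tc k (fun z => deriv Ψ (pert q η ε z)) *
            ((((n - k : ℕ) : ℂ) + 1) * (tc (n - k + 1) q + ε * tc (n - k + 1) η)) := funext hform
      rw [hfun]
      have hsum : HasDerivAt (fun ε : ℝ => ∑ k ∈ range (n + 1), tc k (fun z => deriv Ψ (pert q η ε z)) *
            ((((n - k : ℕ) : ℂ) + 1) * (tc (n - k + 1) q + ε * tc (n - k + 1) η)))
          (∑ k ∈ range (n + 1), (tc k (fun z => deriv (deriv Ψ) (pert q η ε z) * η z) *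
            ((((n - k : ℕ) : ℂ) + 1) * (tc (n - k + 1) q + ε * tc (n - k + 1) η))
            + tc k (fun z => deriv Ψ (pert q η ε z)) *
            ((((n - k : ℕ) : ℂ) + 1) * tc (n - k + 1) η))) ε := by
        refine HasDerivAt.fun_sum fun k hk => ?_
        have hk' : k < n + 1 := Finset.mem_range.1 hk
        have d1 := ih k hk' (deriv Ψ) hΨ' ε
        have d2 : HasDerivAt (fun ε : ℝ => ((((n - k : ℕ) : ℂ) + 1) * (tc (n - k + 1) q + ε * tc (n - k + 1) η)))
            ((((n - k : ℕ) : ℂ) + 1) * tc (n - k + 1) η) ε := by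
          have := (((ofRealCLM.hasDerivAt (x := ε)).mul_const (tc (n - k + 1) η)).const_add
            (tc (n - k + 1) q)).const_mul (((n - k : ℕ) : ℂ) + 1)
          exact HasDerivAt.congr_deriv this (by simp)
        exact d1.mul d2
      refine HasDerivAt.congr_deriv (hsum.const_mul _) ?_
      rw [inv_mul_eq_iff_eq_mul₀ h1]
      -- right side
      have hB : AnalyticAt ℂ (fun z => deriv (deriv Ψ) (pert q η ε z)) 0 :=
        an_comp_pert hΨ'.deriv hq hη hη0 ε
      have hC : AnalyticAt ℂ (fun z => deriv (deriv Ψ) (pert q η ε z) * η z) 0 := hB.mul hη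
      rw [tc_succ, sum_add_distrib]
      have e1 : ∑ k ∈ range (n + 1), tc k (fun z => deriv (deriv Ψ) (pert q η ε z) * η z) *
            ((((n - k : ℕ) : ℂ) + 1) * (tc (n - k + 1) q + ε * tc (n - k + 1) η))
          = tc n (fun z => (deriv (deriv Ψ) (pert q η ε z) * η z) * deriv (pert q η ε) z) := by
        rw [tc_mul hC (hdq ε)]
        refine sum_congr rfl fun k _ => ?_
        rw [← tc_succ, tc_pert hq hη]
      have e2 : ∑ k ∈ range (n + 1), tc k (fun z => deriv Ψ (pert q η ε z)) *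
            ((((n - k : ℕ) : ℂ) + 1) * tc (n - k + 1) η)
          = tc n (fun z => deriv Ψ (pert q η ε z) * deriv η z) := by
        rw [tc_mul (hA ε) hη.deriv]
        refine sum_congr rfl fun k _ => ?_
        rw [← tc_succ]
      rw [e1, e2, ← tc_add (hC.fun_mul (hdq ε)) ((hA ε).fun_mul hη.deriv)]
      refine tc_congr ?_ n
      have g1 : ∀ᶠ z in 𝓝 (0:ℂ), AnalyticAt ℂ (pert q η ε) z := (an_pert hq hη ε).eventually_analyticAt
      have g2 : ∀ᶠ z in 𝓝 (0:ℂ), AnalyticAt ℂ (deriv Ψ) (pert q η ε z) :=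
        (an_pert hq hη ε).continuousAt.eventually (by
          rw [pert_zero hη0]
          exact hΨ'.eventually_analyticAt)
      have g3 : ∀ᶠ z in 𝓝 (0:ℂ), AnalyticAt ℂ η z := hη.eventually_analyticAt
      filter_upwards [g1, g2, g3] with z hz1 hz2 hz3
      have d1 := hz2.differentiableAt.hasDerivAt.comp z hz1.differentiableAt.hasDerivAt
      have d2 := d1.mul hz3.differentiableAt.hasDerivAt
      have d3 : HasDerivAt (fun z => deriv Ψ (pert q η ε z) * η z)
        (deriv (deriv Ψ) (pert q η ε z) * deriv (pert q η ε) z * η z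
          + (deriv Ψ (pert q η ε z)) * deriv η z) z := d2
      rw [d3.deriv]
      ring

/-- second derivative -/
theorem hasDerivAt_tc_comp2 {q η : ℂ → ℂ} (hq : AnalyticAt ℂ q 0)
    (hη : AnalyticAt ℂ η 0) (hη0 : η 0 = 0) (n : ℕ)
    {Ψ : ℂ → ℂ} (hΨ : AnalyticAt ℂ Ψ (q 0)) (ε : ℝ) :
      HasDerivAt (fun ε : ℝ => tc n (fun z => Ψ (pert q η ε z) * η z))
        (tc n (fun z => deriv Ψ (pert q η ε z) * η z * η z)) ε := by
  have hA : ∀ ε : ℝ, AnalyticAt ℂ (fun z => Ψ (pert q η ε z)) 0 :=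
    fun ε => an_comp_pert hΨ hq hη hη0 ε
  have hfun : (fun ε : ℝ => tc n (fun z => Ψ (pert q η ε z) * η z))
      = fun ε : ℝ => ∑ k ∈ range (n + 1), tc k (fun z => Ψ (pert q η ε z)) * tc (n - k) η := by
    funext ε
    rw [tc_mul (hA ε) hη]
  rw [hfun]
  have hB : AnalyticAt ℂ (fun z => deriv Ψ (pert q η ε z)) 0 :=
    an_comp_pert hΨ.deriv hq hη hη0 ε
  rw [tc_mul (hB.fun_mul hη) hη]
  refine HasDerivAt.fun_sum fun k _ => ?_
  exact (hasDerivAt_tc_comp hq hη hη0 k Ψ hΨ ε).mul_const _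

/-- the coefficients of a composition only depend on the coefficients of the inner function -/
theorem tc_comp_congr {q p : ℂ → ℂ} (hq : AnalyticAt ℂ q 0) (hp : AnalyticAt ℂ p 0) (n : ℕ)
    (hqp : ∀ k ≤ n, tc k q = tc k p) :
    ∀ Ψ : ℂ → ℂ, AnalyticAt ℂ Ψ (q 0) → tc n (fun z => Ψ (q z)) = tc n (fun z => Ψ (p z)) := by
  have h0 : q 0 = p 0 := by
    have := hqp 0 (Nat.zero_le _)
    rwa [tc_zero, tc_zero] at this
  induction n using Nat.strong_induction_on with
  | _ n ih =>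
    intro Ψ hΨ
    rcases n with _ | n
    · rw [tc_zero, tc_zero, h0]
    · have h1 : ((n:ℂ) + 1) ≠ 0 := by exact_mod_cast Nat.succ_ne_zero n
      apply mul_left_cancel₀ h1
      rw [tc_comp_succ hΨ hq, tc_comp_succ (by rw [← h0]; exact hΨ) hp]
      rw [tc_mul (AnalyticAt.fun_comp hΨ.deriv hq) hq.deriv,
        tc_mul (AnalyticAt.fun_comp (by rw [← h0]; exact hΨ.deriv) hp) hp.deriv]
      refine sum_congr rfl fun k hk => ?_
      have hk' : k < n + 1 := Finset.mem_range.1 hk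
      rw [ih k hk' (fun j hj => hqp j (by omega)) (deriv Ψ) hΨ.deriv]
      rw [← tc_succ, ← tc_succ, hqp (n - k + 1) (by omega)]

/-- continuity with respect to parameters -/
theorem continuous_tc_comp {X : Type*} [TopologicalSpace X] {q : X → ℂ → ℂ} {a : ℂ}
    (hq : ∀ x, AnalyticAt ℂ (q x) 0) (hq0 : ∀ x, q x 0 = a)
    (hc : ∀ k, Continuous fun x => tc k (q x)) (n : ℕ) :
    ∀ Ψ : ℂ → ℂ, AnalyticAt ℂ Ψ a → Continuous fun x => tc n (fun z => Ψ (q x z)) := by
  induction n using Nat.strong_induction_on with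
  | _ n ih =>
    intro Ψ hΨ
    rcases n with _ | n
    · simp only [tc_zero, hq0]
      exact continuous_const
    · have h1 : ((n:ℂ) + 1) ≠ 0 := by exact_mod_cast Nat.succ_ne_zero n
      have hform : ∀ x, tc (n + 1) (fun z => Ψ (q x z))
          = ((n:ℂ) + 1)⁻¹ * ∑ k ∈ range (n + 1), tc k (fun z => deriv Ψ (q x z)) *
            ((((n - k : ℕ) : ℂ) + 1) * tc (n - k + 1) (q x)) := by
        intro x
        rw [eq_inv_mul_iff_mul_eq₀ h1]
        rw [tc_comp_succ (by rw [hq0]; exact hΨ) (hq x)]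
        rw [tc_mul (AnalyticAt.fun_comp (by rw [hq0]; exact hΨ.deriv) (hq x)) (hq x).deriv]
        refine sum_congr rfl fun k _ => ?_
        rw [← tc_succ]
      simp_rw [hform]
      refine continuous_const.mul (continuous_finsetSum _ fun k hk => ?_)
      have hk' : k < n + 1 := Finset.mem_range.1 hk
      exact (ih k hk' (deriv Ψ) hΨ.deriv).mul (continuous_const.mul (hc _))

end Pool.Agent.J4.H68.AC
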