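import Pool.Agent.J4.H68.AC.B2
import Pool.Agent.TH276.Torsion.Hull

set_option autoImplicit false

/-!
Circle formulas for the Taylor coefficients, and the coefficient body of the Caratheodory class.
-/

namespace Pool.Agent.J4.H68.AC

open Complex MeasureTheory Set Filter Topology Metric

/-- the point `r e^{iθ}` -/
noncomputable def pt (r θ : ℝ) : ℂ := r * exp (θ * I)

lemma pt_eq (r θ : ℝ) : pt r θ = circleMap 0 r θ := by
  simp [pt, circleMap]

lemma norm_pt {r : ℝ} (hr : 0 ≤ r) (θ : ℝ) : ‖pt r θ‖ = r := by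
  unfold pt
  rw [norm_mul, norm_exp_ofReal_mul_I, mul_one, Complex.norm_real, Real.norm_of_nonneg hr]

lemma continuous_pt (r : ℝ) : Continuous (pt r) := by
  unfold pt
  fun_prop

section
variable {G : ℂ → ℂ} (hG : DifferentiableOn ℂ G (ball 0 1)) {r : ℝ} (hr0 : 0 < r) (hr1 : r < 1)
include hG hr0 hr1

omit hr0 in
lemma diff_closed : DifferentiableOn ℂ G (closedBall 0 r) :=
  hG.mono (closedBall_subset_ball hr1)

lemma continuous_G_pt : Continuous (fun θ : ℝ => G (pt r θ)) := by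
  have h1 : ContinuousOn G (closedBall 0 r) := (diff_closed hG hr1).continuousOn
  refine h1.comp_continuous (continuous_pt r) fun θ => ?_
  rw [mem_closedBall_zero_iff, norm_pt hr0.le]

lemma cf1 (k : ℕ) : (r:ℂ) ^ k * tc k G
    = (2 * Real.pi : ℂ)⁻¹ * ∫ θ in (0:ℝ)..2 * Real.pi, G (pt r θ) * exp (-(k * θ * I)) := by
  have h := (diff_closed hG hr1).circleIntegral_one_div_sub_center_pow_smul hr0 k
  have hr : (r:ℂ) ≠ 0 := by exact_mod_cast hr0.ne'
  have hπ : (Real.pi : ℂ) ≠ 0 := by exact_mod_cast Real.pi_ne_zero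
  have e1 : (∮ z in C(0, r), (1 / (z - 0) ^ (k + 1)) • G z)
      = (I * ((r:ℂ) ^ k)⁻¹) * ∫ θ in (0:ℝ)..2 * Real.pi, G (pt r θ) * exp (-(k * θ * I)) := by
    unfold circleIntegral
    rw [← intervalIntegral.integral_const_mul]
    refine intervalIntegral.integral_congr fun θ _ => ?_
    simp only [deriv_circleMap, smul_eq_mul, sub_zero]
    rw [← pt_eq]
    have hp : pt r θ ≠ 0 := by
      rw [← norm_pos_iff, norm_pt hr0.le]
      exact hr0
    have h1 : pt r θ * I * (1 / pt r θ ^ (k + 1) * G (pt r θ)) = I * ((pt r θ) ^ k)⁻¹ * G (pt r θ) := by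
      field_simp
      ring
    rw [h1]
    have h2 : (pt r θ) ^ k = r ^ k * exp (k * θ * I) := by
      unfold pt
      rw [mul_pow, ← exp_nat_mul]
      ring_nf
    rw [h2, mul_inv, ← exp_neg]
    ring
  rw [e1] at h
  unfold tc
  have hk : ((k.factorial : ℕ) : ℂ) ≠ 0 := by exact_mod_cast k.factorial_ne_zero
  rw [smul_eq_mul] at h
  have hI : I ≠ 0 := I_ne_zero
  field_simp at h ⊢
  linear_combination -h

lemma cf2 {k : ℕ} (hk : 1 ≤ k) :
    ∫ θ in (0:ℝ)..2 * Real.pi, G (pt r θ) * exp (k * θ * I) = 0 := by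
  obtain ⟨m, rfl⟩ : ∃ m, k = m + 1 := ⟨k - 1, by omega⟩
  have hd : DifferentiableOn ℂ (fun z => z ^ m * G z) (closedBall 0 r) :=
    (differentiableOn_pow m).mul (diff_closed hG hr1)
  have h := (hd.mono closure_ball_subset_closedBall).diffContOnCl.circleIntegral_eq_zero hr0.le
  have hr : (r:ℂ) ≠ 0 := by exact_mod_cast hr0.ne'
  have e1 : (∮ z in C(0, r), z ^ m * G z)
      = (I * ((r:ℂ) ^ (m + 1))) * ∫ θ in (0:ℝ)..2 * Real.pi, G (pt r θ) * exp (((m + 1 : ℕ) : ℂ) * θ * I) := by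
    unfold circleIntegral
    rw [← intervalIntegral.integral_const_mul]
    refine intervalIntegral.integral_congr fun θ _ => ?_
    simp only [deriv_circleMap, smul_eq_mul]
    rw [← pt_eq]
    have h2 : (pt r θ) ^ (m + 1) = r ^ (m + 1) * exp (((m + 1 : ℕ) : ℂ) * θ * I) := by
      unfold pt
      rw [mul_pow, ← exp_nat_mul]
      ring_nf
    linear_combination (I * G (pt r θ)) * h2
  rw [e1] at h
  rcases mul_eq_zero.1 h with h1 | h1
  · exfalso
    exact mul_ne_zero I_ne_zero (pow_ne_zero _ hr) h1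
  · exact h1

/-- the coefficient formula with the real part -/
lemma cf {k : ℕ} (hk : 1 ≤ k) : (r:ℂ) ^ k * tc k G
    = (2 * Real.pi : ℂ)⁻¹ * ∫ θ in (0:ℝ)..2 * Real.pi,
      (((G (pt r θ)).re : ℝ) : ℂ) * (2 * exp (-(k * θ * I))) := by
  have h1 := cf1 hG hr0 hr1 k
  have h2 := cf2 hG hr0 hr1 hk
  have hc := continuous_G_pt hG hr0 hr1
  have h3 : ∫ θ in (0:ℝ)..2 * Real.pi, (starRingEnd ℂ) (G (pt r θ)) * exp (-(k * θ * I)) = 0 := by
    have h4 : ∫ θ in (0:ℝ)..2 * Real.pi, (starRingEnd ℂ) (G (pt r θ)) * exp (-(k * θ * I))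
        = (starRingEnd ℂ) (∫ θ in (0:ℝ)..2 * Real.pi, G (pt r θ) * exp (k * θ * I)) := by
      rw [← intervalIntegral.intervalIntegral_conj]
      refine intervalIntegral.integral_congr fun θ _ => ?_
      simp only [map_mul]
      congr 1
      rw [← exp_conj]
      congr 1
      simp
    rw [h4, h2, map_zero]
  have h5 : ∫ θ in (0:ℝ)..2 * Real.pi, (((G (pt r θ)).re : ℝ) : ℂ) * (2 * exp (-(k * θ * I)))
      = (∫ θ in (0:ℝ)..2 * Real.pi, G (pt r θ) * exp (-(k * θ * I)))
        + ∫ θ in (0:ℝ)..2 * Real.pi, (starRingEnd ℂ) (G (pt r θ)) * exp (-(k * θ * I)) := by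
    rw [← intervalIntegral.integral_add]
    · refine intervalIntegral.integral_congr fun θ _ => ?_
      have := add_conj (G (pt r θ))
      push_cast at this
      linear_combination (-exp (-(k * θ * I))) * this
    · exact (hc.mul (by fun_prop)).intervalIntegrable _ _
    · exact ((continuous_conj.comp hc).mul (by fun_prop)).intervalIntegrable _ _
  rw [h5, h3, add_zero]
  exact h1

lemma cf0 : ∫ θ in (0:ℝ)..2 * Real.pi, (G (pt r θ)).re = 2 * Real.pi * (G 0).re := by
  have h1 := cf1 hG hr0 hr1 0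
  have hc := continuous_G_pt hG hr0 hr1
  rw [tc_zero, pow_zero, one_mul] at h1
  have hπ : (Real.pi : ℂ) ≠ 0 := by exact_mod_cast Real.pi_ne_zero
  have h2 : ∫ θ in (0:ℝ)..2 * Real.pi, G (pt r θ) = 2 * Real.pi * G 0 := by
    rw [h1]
    field_simp
    refine intervalIntegral.integral_congr fun θ _ => ?_
    simp
  have h3 := reCLM.intervalIntegral_comp_comm (hc.intervalIntegrable (μ := volume) 0 (2 * Real.pi))
  simp only [reCLM_apply] at h3
  rw [h3, h2]
  have : (2 * (Real.pi:ℂ) * G 0) = ((2 * Real.pi : ℝ) : ℂ) * G 0 := by push_cast; ring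
  rw [this, re_ofReal_mul]

end

end Pool.Agent.J4.H68.AC
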