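import Pool.Agent.J4.H68.AC.B3

set_option autoImplicit false

/-!
The coefficient body of the Caratheodory class.
-/

namespace Pool.Agent.J4.H68.AC

open Complex MeasureTheory Set Filter Topology Metric

/-- the curve of extreme coefficient vectors -/
noncomputable def VV (n : ℕ) (x : ℂ) : Fin n → ℂ := fun k => 2 * x ^ ((k:ℕ) + 1)

/-- the coefficient body -/
noncomputable def body (n : ℕ) : Set (Fin n → ℂ) := convexHull ℝ (VV n '' sphere (0:ℂ) 1)

lemma continuous_VV (n : ℕ) : Continuous (VV n) := by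
  unfold VV
  fun_prop

lemma body_compact (n : ℕ) : IsCompact (body n) :=
  Pool.Agent.TH276.Torsion.isCompact_convexHull_of_isCompact
    ((isCompact_sphere (0:ℂ) 1).image (continuous_VV n))

lemma body_convex (n : ℕ) : Convex ℝ (body n) := convex_convexHull ℝ _

lemma VV_mem (n : ℕ) {x : ℂ} (hx : ‖x‖ = 1) : VV n x ∈ body n :=
  subset_convexHull ℝ _ ⟨x, by simpa using hx, rfl⟩

lemma body_mem_aux (n : ℕ) {G : ℂ → ℂ} (hG : DifferentiableOn ℂ G (ball 0 1))
    (hre : ∀ z ∈ ball (0:ℂ) 1, 0 ≤ (G z).re) (h0 : G 0 = 1) {r : ℝ} (hr0 : 0 < r) (hr1 : r < 1) :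
    (fun k : Fin n => (r:ℂ) ^ ((k:ℕ) + 1) * tc ((k:ℕ) + 1) G) ∈ body n := by
  by_contra hcon
  obtain ⟨f, u, hf, hu⟩ := geometric_hahn_banach_closed_point (body_convex n)
    (body_compact n).isClosed hcon
  have hc := continuous_G_pt hG hr0 hr1
  have hcre : Continuous (fun θ : ℝ => (G (pt r θ)).re) := continuous_re.comp hc
  have hcV : Continuous (fun θ : ℝ => VV n (exp (-(θ * I)))) := (continuous_VV n).comp (by fun_prop)
  have hcs : Continuous (fun θ : ℝ => (G (pt r θ)).re • VV n (exp (-(θ * I)))) := hcre.smul hcV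
  have hint : (fun k : Fin n => (r:ℂ) ^ ((k:ℕ) + 1) * tc ((k:ℕ) + 1) G)
      = (2 * Real.pi)⁻¹ • ∫ θ in (0:ℝ)..2 * Real.pi, (G (pt r θ)).re • VV n (exp (-(θ * I))) := by
    funext k
    rw [cf hG hr0 hr1 (by omega : 1 ≤ (k:ℕ) + 1)]
    have h1 := (ContinuousLinearMap.proj (R := ℝ) (φ := fun _ : Fin n => ℂ) k).intervalIntegral_comp_comm
      (hcs.intervalIntegrable (μ := volume) 0 (2 * Real.pi))
    simp only [ContinuousLinearMap.proj_apply] at h1
    rw [Pi.smul_apply, ← h1, real_smul]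
    push_cast
    congr 1
    refine intervalIntegral.integral_congr fun θ _ => ?_
    simp only [VV, Pi.smul_apply, real_smul]
    rw [← exp_nat_mul]
    push_cast
    ring_nf
  have h2 : f (fun k : Fin n => (r:ℂ) ^ ((k:ℕ) + 1) * tc ((k:ℕ) + 1) G)
      = (2 * Real.pi)⁻¹ * ∫ θ in (0:ℝ)..2 * Real.pi, (G (pt r θ)).re * f (VV n (exp (-(θ * I)))) := by
    rw [hint, map_smul, ← f.intervalIntegral_comp_comm
      (hcs.intervalIntegrable (μ := volume) 0 (2 * Real.pi)), smul_eq_mul]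
    congr 1
    refine intervalIntegral.integral_congr fun θ _ => ?_
    simp only [map_smul, smul_eq_mul]
  have h3 : ∫ θ in (0:ℝ)..2 * Real.pi, (G (pt r θ)).re * f (VV n (exp (-(θ * I))))
      ≤ ∫ θ in (0:ℝ)..2 * Real.pi, (G (pt r θ)).re * u := by
    refine intervalIntegral.integral_mono_on (by positivity)
      ((hcre.mul (f.continuous.comp hcV)).intervalIntegrable _ _)
      ((hcre.mul continuous_const).intervalIntegrable _ _) fun θ _ => ?_
    have h4 : 0 ≤ (G (pt r θ)).re := hre _ (by rw [mem_ball_zero_iff, norm_pt hr0.le]; exact hr1)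
    have h5 : f (VV n (exp (-(θ * I)))) ≤ u := by
      refine (hf _ (VV_mem n ?_)).le
      rw [show -((θ:ℂ) * I) = ((-θ : ℝ) : ℂ) * I by push_cast; ring]
      exact norm_exp_ofReal_mul_I _
    gcongr
  rw [intervalIntegral.integral_mul_const, cf0 hG hr0 hr1, h0, one_re] at h3
  rw [h2] at hu
  have hπ := Real.pi_pos
  have h6 : (2 * Real.pi)⁻¹ * ∫ θ in (0:ℝ)..2 * Real.pi, (G (pt r θ)).re * f (VV n (exp (-(θ * I))))
      ≤ (2 * Real.pi)⁻¹ * (2 * Real.pi * 1 * u) := by gcongr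
  have h7 : (2 * Real.pi)⁻¹ * (2 * Real.pi * 1 * u) = u := by field_simp
  linarith

lemma body_mem (n : ℕ) {G : ℂ → ℂ} (hG : DifferentiableOn ℂ G (ball 0 1))
    (hre : ∀ z ∈ ball (0:ℂ) 1, 0 ≤ (G z).re) (h0 : G 0 = 1) :
    (fun k : Fin n => tc ((k:ℕ) + 1) G) ∈ body n := by
  have hlim : Tendsto (fun r : ℝ => fun k : Fin n => (r:ℂ) ^ ((k:ℕ) + 1) * tc ((k:ℕ) + 1) G)
      (𝓝[<] 1) (𝓝 (fun k : Fin n => tc ((k:ℕ) + 1) G)) := by
    have h1 : Continuous (fun r : ℝ => fun k : Fin n => (r:ℂ) ^ ((k:ℕ) + 1) * tc ((k:ℕ) + 1) G) := by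
      fun_prop
    have h2 := (h1.tendsto 1).mono_left (nhdsWithin_le_nhds (s := Iio 1))
    simpa using h2
  refine (body_compact n).isClosed.mem_of_tendsto hlim ?_
  filter_upwards [Ioo_mem_nhdsLT (show (0:ℝ) < 1 by norm_num)] with r hr
  exact body_mem_aux n hG hre h0 hr.1 hr.2

/-- the extremal functions of the Caratheodory class -/
noncomputable def pp (x z : ℂ) : ℂ := (1 + x * z) / (1 - x * z)

lemma one_sub_ne {x z : ℂ} (hx : ‖x‖ = 1) (hz : ‖z‖ < 1) : 1 - x * z ≠ 0 := by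
  intro h
  have h1 : x * z = 1 := by linear_combination -h
  have h2 := congrArg norm h1
  rw [norm_mul, hx, one_mul, norm_one] at h2
  linarith

lemma pp_zero (x : ℂ) : pp x 0 = 1 := by simp [pp]

lemma an_pp {x z : ℂ} (hz : 1 - x * z ≠ 0) : AnalyticAt ℂ (pp x) z := by
  unfold pp
  exact (analyticAt_const.add (analyticAt_const.mul analyticAt_id)).div
    (analyticAt_const.sub (analyticAt_const.mul analyticAt_id)) hz

lemma an_pp0 (x : ℂ) : AnalyticAt ℂ (pp x) 0 := an_pp (by simp)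

lemma tc_pp (x : ℂ) (k : ℕ) : tc (k + 1) (pp x) = 2 * x ^ (k + 1) := by
  have h0 := an_pp0 x
  -- pp = 1 + x z + x z pp
  have h1 : pp x =ᶠ[𝓝 0] fun z => (1 + x * z) + x * (z * pp x z) := by
    have h2 : ∀ᶠ z in 𝓝 (0:ℂ), 1 - x * z ≠ 0 := by
      have : ContinuousAt (fun z : ℂ => 1 - x * z) 0 := by fun_prop
      exact this.eventually_ne (by simp)
    filter_upwards [h2] with z hz
    unfold pp
    field_simp
    ring
  have h3 : ∀ m, tc (m + 1) (pp x) = tc (m + 1) (fun z => 1 + x * z) + x * tc m (pp x) := by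
    intro m
    rw [tc_congr h1 (m + 1), tc_add (g := fun z => 1 + x * z) (h := fun z => x * (z * pp x z))
      (by fun_prop) (analyticAt_const.mul (analyticAt_id.mul h0)), tc_const_mul, tc_z_mul h0]
  have h4 : ∀ m, tc (m + 1) (fun z => 1 + x * z) = if m = 0 then x else 0 := by
    intro m
    rw [tc_add (g := fun _ => (1:ℂ)) (h := fun z => x * z) analyticAt_const (by fun_prop),
      tc_const, tc_const_mul, tc_id]
    by_cases hm : m = 0
    · simp [hm]
    · simp [hm]
  induction k with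
  | zero =>
    rw [h3, h4, tc_zero, pp_zero]
    simp
    ring
  | succ k ih =>
    rw [h3, h4, ih]
    simp
    ring

end Pool.Agent.J4.H68.AC
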