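import Pool.Agent.J4.H68.AC.B4

set_option autoImplicit false

/-!
Boundary estimates for the key lemma.
-/

namespace Pool.Agent.J4.H68.AC

open Complex MeasureTheory Set Filter Topology Metric

/-- the polynomial attached to the coefficients `D` -/
noncomputable def PP (n : ℕ) (D : ℕ → ℂ) (x : ℂ) : ℂ := ∑ k ∈ Finset.range n, D k * (2 * x ^ (k + 1))

/-- Euler derivative of `PP` -/
noncomputable def PE (n : ℕ) (D : ℕ → ℂ) (x : ℂ) : ℂ :=
  ∑ k ∈ Finset.range n, D k * (2 * (((k + 1 : ℕ) : ℂ) * x ^ (k + 1)))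

lemma pow_taylor {x y : ℂ} (hx : ‖x‖ = 1) (hy : ‖y‖ = 1) (k : ℕ) :
    ‖x ^ k - y ^ k - k * (y ^ (k - 1) * (x - y))‖ ≤ (k:ℝ) ^ 2 * ‖x - y‖ ^ 2 := by
  induction k with
  | zero => simp
  | succ k ih =>
    rcases Nat.eq_zero_or_pos k with h0 | h0
    · subst h0
      simp
    · have e1 : x ^ (k + 1) - y ^ (k + 1) - ((k + 1 : ℕ) : ℂ) * (y ^ (k + 1 - 1) * (x - y))
          = x * (x ^ k - y ^ k - k * (y ^ (k - 1) * (x - y))) + k * (y ^ (k - 1) * (x - y) ^ 2) := by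
        have h1 : y ^ k = y * y ^ (k - 1) := by
          rw [← pow_succ']
          congr 1
          omega
        rw [Nat.add_sub_cancel, pow_succ y k]
        rw [h1]
        push_cast
        ring
      rw [e1]
      calc ‖x * (x ^ k - y ^ k - k * (y ^ (k - 1) * (x - y))) + k * (y ^ (k - 1) * (x - y) ^ 2)‖
          ≤ ‖x * (x ^ k - y ^ k - k * (y ^ (k - 1) * (x - y)))‖ + ‖(k:ℂ) * (y ^ (k - 1) * (x - y) ^ 2)‖ :=
            norm_add_le _ _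
        _ ≤ (k:ℝ) ^ 2 * ‖x - y‖ ^ 2 + k * ‖x - y‖ ^ 2 := by
          refine add_le_add ?_ ?_
          · rw [norm_mul, hx, one_mul]
            exact ih
          · rw [norm_mul, norm_mul, norm_pow, norm_pow, hy, one_pow, one_mul, Complex.norm_natCast]
        _ ≤ ((k + 1 : ℕ) : ℝ) ^ 2 * ‖x - y‖ ^ 2 := by
          push_cast
          have := sq_nonneg ‖x - y‖
          have hk : (0:ℝ) ≤ k := Nat.cast_nonneg k
          nlinarith

/-- at a maximum point of `Re PP` on the circle, `PE` is real -/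
lemma PE_im {n : ℕ} {D : ℕ → ℂ} {C0 : ℝ} (hℓ : ∀ x : ℂ, ‖x‖ = 1 → (PP n D x).re ≤ C0) {y : ℂ}
    (hy : ‖y‖ = 1) (hyC : (PP n D y).re = C0) : (PE n D y).im = 0 := by
  have hder : HasDerivAt (fun φ : ℝ => PP n D (y * exp (φ * I))) (I * PE n D y) 0 := by
    unfold PP PE
    rw [Finset.mul_sum]
    refine HasDerivAt.fun_sum fun k _ => ?_
    have h0 : HasDerivAt (fun φ : ℝ => y * exp ((φ:ℂ) * I)) (y * I) 0 := by
      have h1 : HasDerivAt (fun φ : ℝ => (φ:ℂ) * I) I 0 := by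
        simpa using (ofRealCLM.hasDerivAt (x := (0:ℝ))).mul_const I
      have h2 := (h1.cexp).const_mul y
      exact HasDerivAt.congr_deriv h2 (by simp)
    have h3 := ((h0.pow (k + 1)).const_mul 2).const_mul (D k)
    refine HasDerivAt.congr_deriv h3 ?_
    simp only [ofReal_zero, zero_mul, exp_zero, mul_one, Nat.add_sub_cancel]
    rw [pow_succ]
    ring
  have hre := reCLM.hasFDerivAt.comp_hasDerivAt (0:ℝ) hder
  have hmax : IsLocalMax (fun φ : ℝ => (PP n D (y * exp (φ * I))).re) 0 := by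
    refine Eventually.of_forall fun φ => ?_
    simp only [ofReal_zero, zero_mul, exp_zero, mul_one]
    rw [hyC]
    refine hℓ _ ?_
    rw [norm_mul, hy, one_mul, norm_exp_ofReal_mul_I]
  have h4 := hmax.hasDerivAt_eq_zero hre
  simp only [reCLM_apply] at h4
  rw [I_mul_re] at h4
  linarith

/-- quadratic bound near a maximum point -/
lemma quad_bound {n : ℕ} {D : ℕ → ℂ} {C0 : ℝ} (hℓ : ∀ x : ℂ, ‖x‖ = 1 → (PP n D x).re ≤ C0) {y : ℂ}
    (hy : ‖y‖ = 1) (hyC : (PP n D y).re = C0) :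
    ∃ C : ℝ, 0 ≤ C ∧ ∀ x : ℂ, ‖x‖ = 1 → C0 - (PP n D x).re ≤ C * ‖x - y‖ ^ 2 := by
  refine ⟨‖PE n D y‖ / 2 + ∑ k ∈ Finset.range n, ‖D k‖ * (2 * ((k + 1 : ℕ) : ℝ) ^ 2), ?_, ?_⟩
  · positivity
  intro x hx
  have hyne : y ≠ 0 := by
    intro h
    rw [h, norm_zero] at hy
    exact zero_ne_one hy
  -- remainder
  have h1 : PP n D x = PP n D y + PE n D y * ((x - y) / y)
      + ∑ k ∈ Finset.range n, D k * (2 * (x ^ (k + 1) - y ^ (k + 1)
        - ((k + 1 : ℕ) : ℂ) * (y ^ (k + 1 - 1) * (x - y)))) := by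
    unfold PP PE
    rw [Finset.sum_mul, ← Finset.sum_add_distrib, ← Finset.sum_add_distrib]
    refine Finset.sum_congr rfl fun k _ => ?_
    rw [Nat.add_sub_cancel]
    field_simp
    ring
  have h2 : ‖∑ k ∈ Finset.range n, D k * (2 * (x ^ (k + 1) - y ^ (k + 1)
        - ((k + 1 : ℕ) : ℂ) * (y ^ (k + 1 - 1) * (x - y))))‖
      ≤ (∑ k ∈ Finset.range n, ‖D k‖ * (2 * ((k + 1 : ℕ) : ℝ) ^ 2)) * ‖x - y‖ ^ 2 := by
    refine (norm_sum_le _ _).trans ?_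
    rw [Finset.sum_mul]
    refine Finset.sum_le_sum fun k _ => ?_
    rw [norm_mul, norm_mul]
    have := pow_taylor hx hy (k + 1)
    have h3 : ‖(2:ℂ)‖ = 2 := by simp
    rw [h3]
    calc ‖D k‖ * (2 * ‖x ^ (k + 1) - y ^ (k + 1) - ((k + 1 : ℕ) : ℂ) * (y ^ (k + 1 - 1) * (x - y))‖)
        ≤ ‖D k‖ * (2 * (((k + 1 : ℕ) : ℝ) ^ 2 * ‖x - y‖ ^ 2)) := by gcongr
      _ = _ := by ring
  have him := PE_im hℓ hy hyC
  -- the linear term
  set u := x / y with hu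
  have hun : ‖u‖ = 1 := by rw [hu, norm_div, hx, hy, div_one]
  have h4 : (x - y) / y = u - 1 := by
    rw [hu]
    field_simp
  have h5 : ‖x - y‖ = ‖u - 1‖ := by
    rw [← h4, norm_div, hy, div_one]
  have h6 : ‖u - 1‖ ^ 2 = 2 - 2 * u.re := by
    have h7 : ‖u‖ ^ 2 = 1 := by rw [hun]; norm_num
    rw [← normSq_eq_norm_sq, normSq_apply] at h7 ⊢
    simp only [sub_re, one_re, sub_im, one_im]
    nlinarith
  have h8 : (PE n D y * ((x - y) / y)).re = (PE n D y).re * (u.re - 1) := by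
    rw [h4, mul_re, him, sub_re, one_re]
    ring
  have h9 : |(PE n D y).re * (u.re - 1)| ≤ ‖PE n D y‖ / 2 * ‖x - y‖ ^ 2 := by
    rw [abs_mul, h5, h6]
    have h10 := abs_re_le_norm (PE n D y)
    have h11 : |u.re - 1| = 1 - u.re := by
      rw [abs_of_nonpos (by nlinarith [sq_nonneg ‖u - 1‖])]
      ring
    rw [h11]
    have h12 : 0 ≤ 1 - u.re := by nlinarith [sq_nonneg ‖u - 1‖]
    calc |(PE n D y).re| * (1 - u.re) ≤ ‖PE n D y‖ * (1 - u.re) := by gcongr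
      _ = _ := by ring
  have h13 := abs_re_le_norm (∑ k ∈ Finset.range n, D k * (2 * (x ^ (k + 1) - y ^ (k + 1)
        - ((k + 1 : ℕ) : ℂ) * (y ^ (k + 1 - 1) * (x - y)))))
  have h14 := (abs_le.1 (h13.trans h2)).1
  have h15 := (abs_le.1 h9).1
  rw [h1, add_re, add_re, hyC, h8]
  rw [add_mul]
  linarith

lemma norm_one_sub_ge {a : ℂ} (ha : ‖a‖ = 1) {r : ℝ} (hr0 : 0 ≤ r) (hr1 : r ≤ 1) :
    ‖1 - a‖ ≤ 2 * ‖1 - r * a‖ := by
  have h1 : 1 - r ≤ ‖1 - r * a‖ := by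
    have := norm_sub_norm_le 1 ((r:ℂ) * a)
    rw [norm_one, norm_mul, ha, mul_one, Complex.norm_real, Real.norm_of_nonneg hr0] at this
    exact this
  have h2 : ‖1 - a‖ ≤ ‖1 - r * a‖ + ‖((r:ℂ) - 1) * a‖ := by
    calc ‖1 - a‖ = ‖(1 - r * a) + ((r:ℂ) - 1) * a‖ := by congr 1; ring
      _ ≤ _ := norm_add_le _ _
  have h3 : ‖((r:ℂ) - 1) * a‖ = 1 - r := by
    rw [norm_mul, ha, mul_one]
    have : ((r:ℂ) - 1) = ((r - 1 : ℝ) : ℂ) := by push_cast; ring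
    rw [this, Complex.norm_real, Real.norm_of_nonpos (by linarith)]
    ring
  linarith

lemma pp_eq {x z : ℂ} (hx : 1 - x * z ≠ 0) : pp x z = 2 * (1 - x * z)⁻¹ - 1 := by
  unfold pp
  rw [div_eq_mul_inv]
  have := mul_inv_cancel₀ hx
  linear_combination (-1 : ℂ) * this

lemma pp_sub {x y z : ℂ} (hx : 1 - x * z ≠ 0) (hy : 1 - y * z ≠ 0) :
    pp x z - pp y z = 2 * (x - y) * z / ((1 - x * z) * (1 - y * z)) := by
  unfold pp
  rw [div_sub_div _ _ hx hy]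
  congr 1
  ring

lemma norm_pp_sub_sq {x y z : ℂ} (hx : 1 - x * z ≠ 0) (hy : 1 - y * z ≠ 0) :
    ‖pp x z - pp y z‖ ^ 2 ≤ 8 * (‖1 - x * z‖ ^ 2)⁻¹ + 8 * (‖1 - y * z‖ ^ 2)⁻¹ := by
  have h1 : pp x z - pp y z = 2 * (1 - x * z)⁻¹ - 2 * (1 - y * z)⁻¹ := by
    rw [pp_eq hx, pp_eq hy]
    ring
  have h2 : ‖pp x z - pp y z‖ ≤ 2 * ‖1 - x * z‖⁻¹ + 2 * ‖1 - y * z‖⁻¹ := by
    rw [h1]
    refine (norm_sub_le _ _).trans ?_
    rw [norm_mul, norm_mul, norm_inv, norm_inv]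
    simp
  have h3 : 0 ≤ ‖pp x z - pp y z‖ := norm_nonneg _
  calc ‖pp x z - pp y z‖ ^ 2 ≤ (2 * ‖1 - x * z‖⁻¹ + 2 * ‖1 - y * z‖⁻¹) ^ 2 := by gcongr
    _ ≤ 8 * (‖1 - x * z‖⁻¹) ^ 2 + 8 * (‖1 - y * z‖⁻¹) ^ 2 := by
      nlinarith [sq_nonneg (‖1 - x * z‖⁻¹ - ‖1 - y * z‖⁻¹)]
    _ = _ := by rw [inv_pow, inv_pow]

lemma re_pp {x z : ℂ} (h : 1 - x * z ≠ 0) :
    (pp x z).re = (1 - ‖x * z‖ ^ 2) / ‖1 - x * z‖ ^ 2 := by
  unfold pp
  rw [div_re, ← normSq_eq_norm_sq, ← normSq_eq_norm_sq]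
  have : normSq (1 - x * z) ≠ 0 := by rwa [Ne, normSq_eq_zero]
  field_simp
  rw [normSq_apply]
  simp only [add_re, one_re, sub_re, add_im, one_im, sub_im]
  ring

end Pool.Agent.J4.H68.AC
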