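import Pool.Agent.J4.H68.AC.B5

set_option autoImplicit false

/-!
The key lemma: there is no maximizer with two distinct atoms.
-/

namespace Pool.Agent.J4.H68.AC

open Complex MeasureTheory Set Filter Topology Metric

/-- a finite convex combination of the extremal functions -/
noncomputable def qh {ι : Type*} [Fintype ι] (x : ι → ℂ) (w : ι → ℝ) (z : ℂ) : ℂ :=
  ∑ i, (w i : ℂ) * pp (x i) z

section
variable {ι : Type*} [Fintype ι] {x : ι → ℂ} {w : ι → ℝ}

lemma qh_zero (hw1 : ∑ i, w i = 1) : qh x w 0 = 1 := by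
  unfold qh
  simp only [pp_zero, mul_one]
  exact_mod_cast hw1

lemma an_qh {z : ℂ} (hz : ∀ i, 1 - x i * z ≠ 0) : AnalyticAt ℂ (qh x w) z := by
  unfold qh
  exact Finset.analyticAt_fun_sum _ fun i _ => analyticAt_const.mul (an_pp (hz i))

lemma qh_re_pos (hx : ∀ i, ‖x i‖ = 1) (hw : ∀ i, 0 < w i) (hw1 : ∑ i, w i = 1) {z : ℂ} (hz : ‖z‖ < 1) :
    0 < (qh x w z).re := by
  unfold qh
  rw [re_sum]
  have hne : (Finset.univ : Finset ι).Nonempty := by
    by_contra h
    rw [Finset.not_nonempty_iff_eq_empty] at h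
    rw [h, Finset.sum_empty] at hw1
    exact zero_ne_one hw1
  refine Finset.sum_pos (fun i _ => ?_) hne
  rw [re_ofReal_mul, re_pp (one_sub_ne (hx i) hz)]
  refine mul_pos (hw i) (div_pos ?_ ?_)
  · rw [norm_mul, hx, one_mul]
    nlinarith [norm_nonneg z]
  · have := norm_pos_iff.2 (one_sub_ne (hx i) hz)
    positivity

lemma qh_re_zero (hx : ∀ i, ‖x i‖ = 1) {z : ℂ} (hz : ‖z‖ = 1) (hne : ∀ i, 1 - x i * z ≠ 0) :
    (qh x w z).re = 0 := by
  unfold qh
  rw [re_sum]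
  refine Finset.sum_eq_zero fun i _ => ?_
  rw [re_ofReal_mul, re_pp (hne i), norm_mul, hx, hz]
  simp

end

lemma tc_PP {n : ℕ} (hn : 1 ≤ n) (D : ℕ → ℂ) : tc n (PP n D) = 2 * D (n - 1) := by
  unfold PP
  rw [tc_sum _ (fun k _ => by fun_prop)]
  rw [Finset.sum_eq_single (n - 1)]
  · rw [tc_const_mul, tc_const_mul, tc_pow, if_pos (by omega)]
    ring
  · intro k hk hk2
    rw [tc_const_mul, tc_const_mul, tc_pow, if_neg (by omega)]
    simp
  · intro h
    exact absurd (Finset.mem_range.2 (by omega)) h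

lemma int_exp_zero {n : ℕ} (hn : 1 ≤ n) : ∫ θ in (0:ℝ)..2 * Real.pi, exp (-(n * θ * I)) = 0 := by
  have h := cf1 (G := fun _ => (1:ℂ)) (differentiableOn_const _) (r := 1 / 2) (by norm_num) (by norm_num) n
  rw [tc_const, if_neg (by omega), mul_zero] at h
  simp only [one_mul] at h
  have hπ : (Real.pi : ℂ) ≠ 0 := by exact_mod_cast Real.pi_ne_zero
  rcases mul_eq_zero.1 h.symm with h1 | h1
  · exfalso
    have : (2 * (Real.pi:ℂ))⁻¹ ≠ 0 := by
      apply inv_ne_zero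
      exact mul_ne_zero two_ne_zero hπ
    exact this h1
  · exact h1

/-- the deficit cannot vanish almost everywhere -/
lemma deficit_ne {n : ℕ} (hn : 1 ≤ n) {D : ℕ → ℂ} (hD : D (n - 1) ≠ 0) {C0 : ℝ}
    (h : ∀ᵐ θ : ℝ, θ ∈ Ioc 0 (2 * Real.pi) → C0 - (PP n D (exp (-(θ * I)))).re = 0) : False := by
  set D' : ℕ → ℂ := fun k => (starRingEnd ℂ) (D k) with hD'
  have hconj : ∀ θ : ℝ, (PP n D' (exp (θ * I))).re = (PP n D (exp (-(θ * I)))).re := by
    intro θ
    have h1 : PP n D' (exp (θ * I)) = (starRingEnd ℂ) (PP n D (exp (-(θ * I)))) := by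
      unfold PP
      rw [map_sum]
      refine Finset.sum_congr rfl fun k _ => ?_
      simp only [hD', map_mul, map_pow, Complex.conj_ofNat]
      rw [← exp_conj]
      simp
    rw [h1, conj_re]
  have hdiff : DifferentiableOn ℂ (fun z => PP n D' (2 * z)) (ball 0 1) := by
    unfold PP
    fun_prop
  have h2 := cf hdiff (r := 1 / 2) (by norm_num) (by norm_num) hn
  have h3 : ∫ θ in (0:ℝ)..2 * Real.pi, (((PP n D' (2 * pt (1 / 2) θ)).re : ℝ) : ℂ) * (2 * exp (-(n * θ * I)))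
      = ∫ θ in (0:ℝ)..2 * Real.pi, (2 * C0 : ℂ) * exp (-(n * θ * I)) := by
    refine intervalIntegral.integral_congr_ae ?_
    rw [uIoc_of_le (by positivity)]
    filter_upwards [h] with θ hθ hmem
    have h4 : 2 * pt (1 / 2) θ = exp (θ * I) := by
      unfold pt
      push_cast
      ring
    rw [h4, hconj, show (PP n D (exp (-(θ * I)))).re = C0 by linarith [hθ hmem]]
    ring
  rw [h3, intervalIntegral.integral_const_mul, int_exp_zero hn, mul_zero, mul_zero] at h2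
  have h5 : tc n (fun z => PP n D' (2 * z)) = 2 ^ n * (2 * D' (n - 1)) := by
    rw [tc_rot (g := PP n D') (by unfold PP; fun_prop), tc_PP hn]
  rw [h5] at h2
  have h6 : D' (n - 1) ≠ 0 := by
    simp only [hD']
    intro hc
    exact hD ((map_eq_zero _).1 hc)
  have : ((1 / 2 : ℝ) : ℂ) ^ n * (2 ^ n * (2 * D' (n - 1))) ≠ 0 := by
    refine mul_ne_zero (pow_ne_zero _ (by norm_num)) (mul_ne_zero (pow_ne_zero _ two_ne_zero)
      (mul_ne_zero two_ne_zero h6))
  exact this h2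

theorem key {n : ℕ} (hn : 1 ≤ n) {D : ℕ → ℂ} (hD : D (n - 1) ≠ 0) {C0 : ℝ}
    (hℓ : ∀ x : ℂ, ‖x‖ = 1 → (PP n D x).re ≤ C0)
    {ι : Type*} [Fintype ι] {x : ι → ℂ} (hx : ∀ i, ‖x i‖ = 1) {w : ι → ℝ} (hw : ∀ i, 0 < w i)
    (hw1 : ∑ i, w i = 1) (hxC : ∀ i, (PP n D (x i)).re = C0) {i j : ι} (hij : x i ≠ x j)
    {Φ : ℂ → ℂ} (hΦd : ∀ s : ℂ, 0 ≤ s.re → DifferentiableAt ℂ Φ s)
    (hΦb : ∃ C : ℝ, ∀ s : ℂ, 0 ≤ s.re → ‖Φ s‖ ≤ C) (hΦax : ∀ t : ℝ, 0 < (Φ (t * I)).re)
    (hle : (∑ k ∈ Finset.range n, D k * tc (k + 1) (fun z => Φ (qh x w z) *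
      (pp (x i) z - pp (x j) z) ^ 2)).re ≤ 0) : False := by
  set K : ℂ → ℂ := fun z => Φ (qh x w z) * (pp (x i) z - pp (x j) z) ^ 2 with hK
  obtain ⟨CΦ, hCΦ⟩ := hΦb
  have hCΦ0 : 0 ≤ CΦ := (norm_nonneg _).trans (hCΦ 0 (by simp))
  have hKd : DifferentiableOn ℂ K (ball 0 1) := by
    intro z hz
    rw [mem_ball_zero_iff] at hz
    have h1 : ∀ k, 1 - x k * z ≠ 0 := fun k => one_sub_ne (hx k) hz
    have h2 := (hΦd _ (qh_re_pos hx hw hw1 hz).le).comp z (an_qh (w := w) h1).differentiableAt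
    have h3 := ((an_pp (h1 i)).differentiableAt.sub (an_pp (h1 j)).differentiableAt).pow 2
    exact (h2.mul h3).differentiableWithinAt
  have hK0 : K 0 = 0 := by simp [hK, pp_zero]
  set M : ℝ → ℝ := fun θ => C0 - (PP n D (exp (-(θ * I)))).re with hM
  have hexpn : ∀ θ : ℝ, ‖exp (-((θ:ℂ) * I))‖ = 1 := by
    intro θ
    rw [show -((θ:ℂ) * I) = ((-θ : ℝ) : ℂ) * I by push_cast; ring]
    exact norm_exp_ofReal_mul_I _
  have hM0 : ∀ θ, 0 ≤ M θ := fun θ => by
    have := hℓ _ (hexpn θ)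
    simp only [hM]
    linarith
  have hMc : Continuous M := by
    simp only [hM]
    unfold PP
    fun_prop
  obtain ⟨Ci, hCi0, hCi⟩ := quad_bound hℓ (hx i) (hxC i)
  obtain ⟨Cj, hCj0, hCj⟩ := quad_bound hℓ (hx j) (hxC j)
  -- relation of distances
  have hdist : ∀ (k : ι) (θ : ℝ), ‖exp (-((θ:ℂ) * I)) - x k‖ = ‖1 - x k * exp (θ * I)‖ := by
    intro k θ
    have h1 : exp (-((θ:ℂ) * I)) - x k = exp (-((θ:ℂ) * I)) * (1 - x k * exp (θ * I)) := by
      rw [mul_sub, mul_one, mul_left_comm, ← exp_add]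
      simp
    rw [h1, norm_mul, hexpn, one_mul]
  have hMk : ∀ (k : ι) (C : ℝ), 0 ≤ C → (∀ y : ℂ, ‖y‖ = 1 → C0 - (PP n D y).re ≤ C * ‖y - x k‖ ^ 2) →
      ∀ (r θ : ℝ), 0 < r → r < 1 → M θ * (‖1 - x k * pt r θ‖ ^ 2)⁻¹ ≤ 4 * C := by
    intro k C hC0 hC r θ hr0 hr1
    have h1 := hC _ (hexpn θ)
    rw [hdist] at h1
    have h2 : ‖1 - x k * exp (θ * I)‖ ≤ 2 * ‖1 - (r:ℂ) * (x k * exp (θ * I))‖ :=
      norm_one_sub_ge (by rw [norm_mul, hx, one_mul, norm_exp_ofReal_mul_I]) hr0.le hr1.le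
    have h3 : (r:ℂ) * (x k * exp (θ * I)) = x k * pt r θ := by unfold pt; ring
    rw [h3] at h2
    have h4 : 0 < ‖1 - x k * pt r θ‖ :=
      norm_pos_iff.2 (one_sub_ne (hx k) (by rw [norm_pt hr0.le]; exact hr1))
    rw [← div_eq_mul_inv, div_le_iff₀ (by positivity)]
    calc M θ ≤ C * ‖1 - x k * exp (θ * I)‖ ^ 2 := h1
      _ ≤ C * (2 * ‖1 - x k * pt r θ‖) ^ 2 := by gcongr
      _ = _ := by ring
  -- bound
  have hbound : ∀ (r θ : ℝ), 0 < r → r < 1 → ‖(K (pt r θ)).re * M θ‖ ≤ CΦ * (32 * Ci + 32 * Cj) := by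
    intro r θ hr0 hr1
    have hz : ‖pt r θ‖ < 1 := by rw [norm_pt hr0.le]; exact hr1
    rw [norm_mul, Real.norm_eq_abs, Real.norm_of_nonneg (hM0 θ)]
    have h1 : |(K (pt r θ)).re| ≤ CΦ * (8 * (‖1 - x i * pt r θ‖ ^ 2)⁻¹ + 8 * (‖1 - x j * pt r θ‖ ^ 2)⁻¹) := by
      refine (abs_re_le_norm _).trans ?_
      simp only [hK]
      rw [norm_mul, norm_pow]
      have h2 := hCΦ _ (qh_re_pos hx hw hw1 hz).le
      have h3 := norm_pp_sub_sq (one_sub_ne (hx i) hz) (one_sub_ne (hx j) hz)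
      gcongr
    have h4 := hMk i Ci hCi0 hCi r θ hr0 hr1
    have h5 := hMk j Cj hCj0 hCj r θ hr0 hr1
    calc |(K (pt r θ)).re| * M θ
        ≤ CΦ * (8 * (‖1 - x i * pt r θ‖ ^ 2)⁻¹ + 8 * (‖1 - x j * pt r θ‖ ^ 2)⁻¹) * M θ := by
          have := hM0 θ
          gcongr
      _ = CΦ * (8 * (M θ * (‖1 - x i * pt r θ‖ ^ 2)⁻¹) + 8 * (M θ * (‖1 - x j * pt r θ‖ ^ 2)⁻¹)) := by ring
      _ ≤ CΦ * (8 * (4 * Ci) + 8 * (4 * Cj)) := by gcongr
      _ = _ := by ring
  -- singular angles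
  have hsing : ∀ (k : ι) (θ : ℝ), 1 - x k * pt 1 θ = 0 → M θ = 0 := by
    intro k θ h
    have h1 : ‖exp (-((θ:ℂ) * I)) - x k‖ = 0 := by
      rw [hdist]
      have : pt 1 θ = exp (θ * I) := by unfold pt; simp
      rw [this] at h
      rw [h, norm_zero]
    rw [norm_eq_zero, sub_eq_zero] at h1
    simp only [hM]
    rw [h1, hxC, sub_self]
  -- pointwise limit
  have hlim : ∀ θ : ℝ, Tendsto (fun r : ℝ => (K (pt r θ)).re * M θ) (𝓝[<] 1) (𝓝 ((K (pt 1 θ)).re * M θ)) := by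
    intro θ
    by_cases hs : ∃ k, 1 - x k * pt 1 θ = 0
    · obtain ⟨k, hk⟩ := hs
      rw [hsing k θ hk]
      simp
    · push Not at hs
      refine Tendsto.mul_const _ ?_
      have h1 : ContinuousAt (fun r : ℝ => pt r θ) 1 := by
        unfold pt
        fun_prop
      have hz1 : ‖pt 1 θ‖ = 1 := norm_pt zero_le_one θ
      have h2 : ContinuousAt K (pt 1 θ) := by
        have h3 := (hΦd _ (qh_re_zero (w := w) hx hz1 hs).ge).continuousAt
        have h4 := (an_qh (w := w) hs).continuousAt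
        have h5 : ContinuousAt (fun z => Φ (qh x w z)) (pt 1 θ) := ContinuousAt.comp' h3 h4
        exact h5.mul (((an_pp (hs i)).continuousAt.sub (an_pp (hs j)).continuousAt).pow 2)
      have h6 : ContinuousAt (fun r : ℝ => (K (pt r θ)).re) 1 :=
        continuous_re.continuousAt.comp' (ContinuousAt.comp' h2 h1)
      exact h6.tendsto.mono_left nhdsWithin_le_nhds
  -- sign of the limit
  have hsign : ∀ θ : ℝ, (K (pt 1 θ)).re * M θ ≤ 0 ∧ ((K (pt 1 θ)).re * M θ = 0 → M θ = 0) := by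
    intro θ
    by_cases hs : ∃ k, 1 - x k * pt 1 θ = 0
    · obtain ⟨k, hk⟩ := hs
      rw [hsing k θ hk]
      simp
    · push Not at hs
      have hz1 : ‖pt 1 θ‖ = 1 := norm_pt zero_le_one θ
      have h1 := qh_re_zero (w := w) hx hz1 hs
      have h2 : qh x w (pt 1 θ) = ((qh x w (pt 1 θ)).im : ℂ) * I := by
        apply Complex.ext <;> simp [h1]
      have h3 := hΦax (qh x w (pt 1 θ)).im
      rw [← h2] at h3
      have h4 : (pp (x i) (pt 1 θ) - pp (x j) (pt 1 θ)).re = 0 := by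
        rw [sub_re, re_pp (hs i), re_pp (hs j), norm_mul, norm_mul, hx, hx, hz1]
        simp
      have h5 : pp (x i) (pt 1 θ) - pp (x j) (pt 1 θ) ≠ 0 := by
        rw [pp_sub (hs i) (hs j)]
        refine div_ne_zero (mul_ne_zero (mul_ne_zero two_ne_zero (sub_ne_zero.2 hij)) ?_)
          (mul_ne_zero (hs i) (hs j))
        rw [← norm_pos_iff, hz1]
        exact one_pos
      set v := (pp (x i) (pt 1 θ) - pp (x j) (pt 1 θ)).im with hv
      have h6 : pp (x i) (pt 1 θ) - pp (x j) (pt 1 θ) = (v:ℂ) * I := by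
        apply Complex.ext
        · rw [h4]; simp
        · simp [hv]
      have hv0 : v ≠ 0 := by
        intro h
        rw [h6, h] at h5
        simp at h5
      have h7 : (K (pt 1 θ)).re = -(v ^ 2) * (Φ (qh x w (pt 1 θ))).re := by
        simp only [hK]
        rw [h6, mul_pow, I_sq]
        have : Φ (qh x w (pt 1 θ)) * ((v:ℂ) ^ 2 * -1) = ((-(v ^ 2) : ℝ) : ℂ) * Φ (qh x w (pt 1 θ)) := by
          push_cast; ring
        rw [this, re_ofReal_mul]
      have h8 : (K (pt 1 θ)).re < 0 := by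
        rw [h7]
        have : 0 < v ^ 2 := by positivity
        nlinarith
      refine ⟨mul_nonpos_of_nonpos_of_nonneg h8.le (hM0 θ), fun h => ?_⟩
      rcases mul_eq_zero.1 h with h9 | h9
      · exact absurd h9 h8.ne
      · exact h9
  -- the identity for r < 1
  have hid : ∀ r : ℝ, 0 < r → r < 1 →
      (∑ k ∈ Finset.range n, D k * ((r:ℂ) ^ (k + 1) * tc (k + 1) K)).re
        = -((2 * Real.pi)⁻¹ * ∫ θ in (0:ℝ)..2 * Real.pi, (K (pt r θ)).re * M θ) := by
    intro r hr0 hr1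
    have hc := continuous_G_pt hKd hr0 hr1
    have hcre : Continuous (fun θ : ℝ => (K (pt r θ)).re) := continuous_re.comp hc
    have h1 : ∑ k ∈ Finset.range n, D k * ((r:ℂ) ^ (k + 1) * tc (k + 1) K)
        = ((2 * Real.pi)⁻¹ : ℝ) * ∫ θ in (0:ℝ)..2 * Real.pi, (((K (pt r θ)).re : ℝ) : ℂ)
          * PP n D (exp (-(θ * I))) := by
      have h2 : ∀ k ∈ Finset.range n, D k * ((r:ℂ) ^ (k + 1) * tc (k + 1) K)
          = ((2 * Real.pi)⁻¹ : ℝ) * ∫ θ in (0:ℝ)..2 * Real.pi, (((K (pt r θ)).re : ℝ) : ℂ)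
          * (D k * (2 * exp (-(θ * I)) ^ (k + 1))) := by
        intro k _
        rw [cf hKd hr0 hr1 (by omega : 1 ≤ k + 1), mul_left_comm, ← intervalIntegral.integral_const_mul]
        push_cast
        congr 1
        refine intervalIntegral.integral_congr fun θ _ => ?_
        rw [← exp_nat_mul]
        push_cast
        ring_nf
      rw [Finset.sum_congr rfl h2, ← Finset.mul_sum, ← intervalIntegral.integral_finsetSum]
      · congr 1
        refine intervalIntegral.integral_congr fun θ _ => ?_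
        simp only [PP]
        rw [Finset.mul_sum]
      · intro k _
        exact Continuous.intervalIntegrable (by fun_prop) _ _
    have hcP : Continuous (fun θ : ℝ => (((K (pt r θ)).re : ℝ) : ℂ) * PP n D (exp (-(θ * I)))) := by
      unfold PP
      fun_prop
    have h3 := reCLM.intervalIntegral_comp_comm (hcP.intervalIntegrable (μ := volume) 0 (2 * Real.pi))
    simp only [reCLM_apply] at h3
    rw [h1, re_ofReal_mul, ← h3, ← mul_neg]
    congr 1
    have h4 : ∀ θ : ℝ, ((((K (pt r θ)).re : ℝ) : ℂ) * PP n D (exp (-(θ * I)))).re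
        = C0 * (K (pt r θ)).re - (K (pt r θ)).re * M θ := by
      intro θ
      rw [re_ofReal_mul]
      simp only [hM]
      ring
    simp_rw [h4]
    have hcc1 : Continuous (fun θ : ℝ => C0 * (K (pt r θ)).re) := continuous_const.mul hcre
    have hcc2 : Continuous (fun θ : ℝ => (K (pt r θ)).re * M θ) := hcre.mul hMc
    rw [intervalIntegral.integral_sub (hcc1.intervalIntegrable _ _)
      (hcc2.intervalIntegrable _ _), intervalIntegral.integral_const_mul,
      cf0 hKd hr0 hr1, hK0]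
    simp
  -- limit of the integral
  have hint : Tendsto (fun r : ℝ => ∫ θ in (0:ℝ)..2 * Real.pi, (K (pt r θ)).re * M θ) (𝓝[<] 1)
      (𝓝 (∫ θ in (0:ℝ)..2 * Real.pi, (K (pt 1 θ)).re * M θ)) := by
    refine intervalIntegral.tendsto_integral_filter_of_dominated_convergence
      (fun _ => CΦ * (32 * Ci + 32 * Cj)) ?_ ?_ intervalIntegrable_const ?_
    · filter_upwards [Ioo_mem_nhdsLT (show (0:ℝ) < 1 by norm_num)] with r hr
      have hc := continuous_G_pt hKd hr.1 hr.2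
      exact ((continuous_re.comp hc).mul hMc).aestronglyMeasurable
    · filter_upwards [Ioo_mem_nhdsLT (show (0:ℝ) < 1 by norm_num)] with r hr
      exact Eventually.of_forall fun θ _ => hbound r θ hr.1 hr.2
    · exact Eventually.of_forall fun θ _ => hlim θ
  have hsumlim : Tendsto (fun r : ℝ => (∑ k ∈ Finset.range n, D k * ((r:ℂ) ^ (k + 1) * tc (k + 1) K)).re)
      (𝓝[<] 1) (𝓝 (∑ k ∈ Finset.range n, D k * tc (k + 1) K).re) := by
    have h1 : Continuous (fun r : ℝ => (∑ k ∈ Finset.range n, D k * ((r:ℂ) ^ (k + 1) * tc (k + 1) K)).re) := by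
      fun_prop
    have h2 := (h1.tendsto 1).mono_left (nhdsWithin_le_nhds (s := Iio 1))
    simpa using h2
  have hfin : (∑ k ∈ Finset.range n, D k * tc (k + 1) K).re
      = -((2 * Real.pi)⁻¹ * ∫ θ in (0:ℝ)..2 * Real.pi, (K (pt 1 θ)).re * M θ) := by
    refine tendsto_nhds_unique (hsumlim.congr' ?_) ((hint.const_mul _).neg)
    filter_upwards [Ioo_mem_nhdsLT (show (0:ℝ) < 1 by norm_num)] with r hr
    exact hid r hr.1 hr.2
  rw [hfin] at hle
  have hpi : 0 < (2 * Real.pi)⁻¹ := by have := Real.pi_pos; positivity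
  have hge : 0 ≤ ∫ θ in (0:ℝ)..2 * Real.pi, (K (pt 1 θ)).re * M θ := by
    by_contra hcon
    push Not at hcon
    have := mul_neg_of_pos_of_neg hpi hcon
    linarith
  -- the integral vanishes, hence the integrand vanishes a.e.
  set g : ℝ → ℝ := fun θ => (K (pt 1 θ)).re * M θ with hg
  have hrn : Tendsto (fun m : ℕ => 1 - 1 / ((m:ℝ) + 2)) atTop (𝓝[<] 1) := by
    refine tendsto_nhdsWithin_iff.2 ⟨?_, Eventually.of_forall fun m => ?_⟩
    · have h1 : Tendsto (fun m : ℕ => ((m:ℝ) + 2)) atTop atTop :=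
        tendsto_atTop_add_const_right _ _ tendsto_natCast_atTop_atTop
      have h2 : Tendsto (fun m : ℕ => 1 / ((m:ℝ) + 2)) atTop (𝓝 0) := by
        simp_rw [one_div]
        exact tendsto_inv_atTop_zero.comp h1
      simpa using h2.const_sub 1
    · have : 0 < 1 / ((m:ℝ) + 2) := by positivity
      simp only [mem_Iio]
      linarith
  have hrm : ∀ m : ℕ, 0 < 1 - 1 / ((m:ℝ) + 2) ∧ 1 - 1 / ((m:ℝ) + 2) < 1 := by
    intro m
    have h1 : 0 < 1 / ((m:ℝ) + 2) := by positivity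
    have h2 : 1 / ((m:ℝ) + 2) < 1 := by
      rw [div_lt_one (by positivity)]
      have : (0:ℝ) ≤ m := Nat.cast_nonneg m
      linarith
    exact ⟨by linarith, by linarith⟩
  have hmeas : AEStronglyMeasurable g volume := by
    refine aestronglyMeasurable_of_tendsto_ae (u := (atTop : Filter ℕ))
      (f := fun (m : ℕ) (θ : ℝ) => (K (pt (1 - 1 / ((m:ℝ) + 2)) θ)).re * M θ) ?_ ?_
    · intro m
      have hc := continuous_G_pt hKd (hrm m).1 (hrm m).2
      exact ((continuous_re.comp hc).mul hMc).aestronglyMeasurable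
    · exact Eventually.of_forall fun θ => (hlim θ).comp hrn
  have hgb : ∀ θ, ‖g θ‖ ≤ CΦ * (32 * Ci + 32 * Cj) := by
    intro θ
    refine le_of_tendsto ((hlim θ).norm) ?_
    filter_upwards [Ioo_mem_nhdsLT (show (0:ℝ) < 1 by norm_num)] with r hr
    exact hbound r θ hr.1 hr.2
  have hgi : IntegrableOn (fun θ => - g θ) (Ioc 0 (2 * Real.pi)) volume := by
    refine Measure.integrableOn_of_bounded (M := CΦ * (32 * Ci + 32 * Cj)) measure_Ioc_lt_top.ne
      hmeas.neg ?_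
    exact Eventually.of_forall fun θ => by rw [norm_neg]; exact hgb θ
  have hnn : 0 ≤ᵐ[volume.restrict (Ioc 0 (2 * Real.pi))] (fun θ => - g θ) :=
    Eventually.of_forall fun θ => by
      simp only [Pi.zero_apply]
      linarith [(hsign θ).1]
  have hzero : ∫ θ in Ioc 0 (2 * Real.pi), - g θ = 0 := by
    have h1 : 0 ≤ ∫ θ in Ioc 0 (2 * Real.pi), - g θ := integral_nonneg_of_ae hnn
    rw [intervalIntegral.integral_of_le (by positivity)] at hge
    rw [integral_neg] at h1 ⊢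
    linarith
  have hae := (setIntegral_eq_zero_iff_of_nonneg_ae hnn hgi).1 hzero
  have hae2 : ∀ᵐ θ : ℝ, θ ∈ Ioc 0 (2 * Real.pi) → - g θ = 0 := by
    have := (ae_restrict_iff' measurableSet_Ioc).1 hae
    exact this
  refine deficit_ne hn hD (C0 := C0) ?_
  filter_upwards [hae2] with θ hθ hmem
  exact (hsign θ).2 (by linarith [hθ hmem])

end Pool.Agent.J4.H68.AC
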