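import Mathlib

set_option autoImplicit false

/-!
Subordination on the right half plane: general lemmas.
-/

namespace Pool.Agent.J4.H68.AC

open Complex MeasureTheory Set Filter Topology Metric Bornology

/-- the hypotheses on the dominant -/
structure Good (Θ Θ' : ℂ → ℂ) : Prop where
  an : ∀ s : ℂ, 0 ≤ s.re → AnalyticAt ℂ Θ s
  der : ∀ s : ℂ, 0 ≤ s.re → HasDerivAt Θ (Θ' s) s
  ne : ∀ s : ℂ, 0 ≤ s.re → Θ' s ≠ 0
  inj : InjOn Θ {s : ℂ | 0 ≤ s.re}
  prop : ∀ M : ℝ, ∃ N : ℝ, ∀ s : ℂ, 0 ≤ s.re → N ≤ ‖s‖ → M ≤ ‖Θ s‖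

namespace Good

variable {Θ Θ' : ℂ → ℂ} (G : Good Θ Θ')
include G

omit G in
lemma _root_.Pool.Agent.J4.H68.AC.sub_hp : {s : ℂ | 0 < s.re} ⊆ {s : ℂ | 0 ≤ s.re} :=
  fun s hs => le_of_lt (show (0:ℝ) < s.re from hs)

omit G in
lemma _root_.Pool.Agent.J4.H68.AC.compactK (N : ℝ) : IsCompact (closedBall (0:ℂ) N ∩ {z : ℂ | 0 ≤ z.re}) :=
  (isCompact_closedBall 0 N).inter_right (isClosed_le continuous_const continuous_re)

lemma tendsto {α : Type*} {l : Filter α} {s : α → ℂ} {s0 : ℂ} (hs0 : 0 ≤ s0.re)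
    (hs : ∀ᶠ a in l, 0 ≤ (s a).re) (h : Tendsto (fun a => Θ (s a)) l (𝓝 (Θ s0))) :
    Tendsto s l (𝓝 s0) := by
  obtain ⟨N, hN⟩ := G.prop (‖Θ s0‖ + 1)
  have h1 : ∀ᶠ a in l, ‖Θ (s a)‖ < ‖Θ s0‖ + 1 := h.norm.eventually_lt_const (by linarith)
  refine (compactK N).tendsto_nhds_of_unique_mapClusterPt ?_ ?_
  · filter_upwards [hs, h1] with a ha hb
    refine ⟨?_, ha⟩
    rw [mem_closedBall_zero_iff]
    by_contra hcon
    push Not at hcon
    have := hN _ ha hcon.le
    linarith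
  · intro x hx hcl
    have h2 : MapClusterPt (Θ x) l (fun a => Θ (s a)) := by
      have hc : ContinuousAt Θ x := (G.an x hx.2).continuousAt
      exact hcl.tendsto_comp hc
    have h3 : ClusterPt (Θ x) (𝓝 (Θ s0)) := ClusterPt.mono h2 h
    have h4 : Θ x = Θ s0 := by
      have : (𝓝 (Θ x) ⊓ 𝓝 (Θ s0)).NeBot := h3
      exact eq_of_nhds_neBot this
    exact G.inj hx.2 hs0 h4

lemma isClosed_image : IsClosed (Θ '' {s : ℂ | 0 ≤ s.re}) := by
  apply isClosed_of_closure_subset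
  intro y hy
  obtain ⟨x, hx, hlim⟩ := mem_closure_iff_seq_limit.1 hy
  choose s hs hxs using hx
  obtain ⟨N, hN⟩ := G.prop (‖y‖ + 1)
  have h1 : ∀ᶠ n in atTop, ‖x n‖ < ‖y‖ + 1 := hlim.norm.eventually_lt_const (by linarith)
  have h2 : ∀ᶠ n in atTop, s n ∈ closedBall (0:ℂ) N ∩ {z : ℂ | 0 ≤ z.re} := by
    filter_upwards [h1] with n hn
    refine ⟨?_, hs n⟩
    rw [mem_closedBall_zero_iff]
    by_contra hcon
    push Not at hcon
    have := hN _ (hs n) hcon.le
    rw [hxs n] at this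
    linarith
  obtain ⟨a, ha, φ, hφ, hlim2⟩ := (compactK N).tendsto_subseq' h2.frequently
  refine ⟨a, ha.2, ?_⟩
  have h3 : Tendsto (fun n => Θ (s (φ n))) atTop (𝓝 (Θ a)) :=
    ((G.an a ha.2).continuousAt.tendsto).comp hlim2
  have h4 : Tendsto (fun n => Θ (s (φ n))) atTop (𝓝 y) := by
    simp_rw [hxs]
    exact hlim.comp hφ.tendsto_atTop
  exact tendsto_nhds_unique h3 h4

lemma strict {s : ℂ} (hs : 0 ≤ s.re) : HasStrictDerivAt Θ (Θ' s) s := by
  have := (G.an s hs).hasStrictDerivAt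
  rwa [(G.der s hs).deriv] at this

lemma isOpen_image : IsOpen (Θ '' {s : ℂ | 0 < s.re}) := by
  rw [isOpen_iff_mem_nhds]
  rintro _ ⟨s, hs, rfl⟩
  have hs' : 0 ≤ s.re := le_of_lt hs
  rw [← (G.strict hs').map_nhds_eq (G.ne s hs')]
  exact image_mem_map ((isOpen_lt continuous_const continuous_re).mem_nhds hs)

lemma axis_notMem (t : ℝ) : Θ (t * I) ∉ Θ '' {s : ℂ | 0 < s.re} := by
  rintro ⟨s, hs, h⟩
  have := G.inj (sub_hp hs)
    (show (t:ℂ) * I ∈ {s : ℂ | 0 ≤ s.re} by simp) h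
  rw [this] at hs
  simp at hs

/-- the inverse function -/
noncomputable def _root_.Pool.Agent.J4.H68.AC.sig (Θ : ℂ → ℂ) : ℂ → ℂ :=
  Function.invFunOn Θ {s : ℂ | 0 ≤ s.re}

lemma sig_left {s : ℂ} (hs : 0 ≤ s.re) : sig Θ (Θ s) = s :=
  G.inj.leftInvOn_invFunOn hs

lemma sig_spec {w : ℂ} (hw : w ∈ Θ '' {s : ℂ | 0 < s.re}) :
    0 < (sig Θ w).re ∧ Θ (sig Θ w) = w := by
  obtain ⟨s, hs, rfl⟩ := hw
  rw [G.sig_left (le_of_lt hs)]
  exact ⟨hs, rfl⟩

lemma sig_hasDerivAt {w : ℂ} (hw : w ∈ Θ '' {s : ℂ | 0 < s.re}) :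
    HasDerivAt (sig Θ) (Θ' (sig Θ w))⁻¹ w := by
  have h1 := G.sig_spec hw
  have hev : ∀ᶠ w' in 𝓝 w, w' ∈ Θ '' {s : ℂ | 0 < s.re} := G.isOpen_image.mem_nhds hw
  refine HasDerivAt.of_local_left_inverse ?_ (G.der _ h1.1.le) (G.ne _ h1.1.le) ?_
  · refine G.tendsto h1.1.le ?_ ?_
    · filter_upwards [hev] with w' hw'
      exact (G.sig_spec hw').1.le
    · rw [h1.2]
      refine tendsto_id.congr' ?_
      filter_upwards [hev] with w' hw'
      exact (G.sig_spec hw').2.symm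
  · filter_upwards [hev] with w' hw'
    exact (G.sig_spec hw').2

/-- local inverse at a point of the closed half plane -/
lemma local_inv {s : ℂ} (hs : 0 ≤ s.re) : ∃ g : ℂ → ℂ, HasDerivAt g (Θ' s)⁻¹ (Θ s) ∧ g (Θ s) = s ∧
    ∀ᶠ z in 𝓝 s, g (Θ z) = z := by
  refine ⟨(G.strict hs).localInverse Θ (Θ' s) s (G.ne s hs),
    ((G.strict hs).to_localInverse (G.ne s hs)).hasDerivAt, ?_,
    (G.strict hs).eventually_left_inverse (G.ne s hs)⟩
  exact ((G.strict hs).eventually_left_inverse (G.ne s hs)).self_of_nhds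

end Good

/-- one sided derivative test -/
lemma deriv_nonneg_of_right {f : ℝ → ℝ} {f' a : ℝ} (hf : HasDerivAt f f' a)
    (h : ∀ᶠ x in 𝓝[>] a, f a ≤ f x) : 0 ≤ f' := by
  have h1 : Tendsto (slope f a) (𝓝[≠] a) (𝓝 f') := hf.tendsto_slope
  have h2 : Tendsto (slope f a) (𝓝[>] a) (𝓝 f') := h1.mono_left (nhdsWithin_mono _ (fun x hx => ne_of_gt hx))
  refine ge_of_tendsto h2 ?_
  filter_upwards [h, self_mem_nhdsWithin] with x hx hx2
  rw [slope_def_field]
  exact div_nonneg (by linarith) (by have := mem_Ioi.1 hx2; linarith)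

namespace Good

variable {Θ Θ' : ℂ → ℂ} (G : Good Θ Θ')
include G

/-- the starlikeness exclusion -/
theorem star_excl (hax : ∀ t : ℝ, ((Θ (t * I) - Θ 1) / Θ' (t * I)).re < 0) {t0 m : ℝ} (hm : 1 ≤ m)
    {s1 : ℂ} (hs1 : 0 < s1.re) (h : Θ s1 = Θ 1 + m * (Θ (t0 * I) - Θ 1)) : False := by
  set w : ℝ → ℂ := fun x => Θ 1 + x * (Θ s1 - Θ 1) with hw
  have hwc : Continuous w := by fun_prop
  set Z : Set ℝ := Icc 0 1 ∩ w ⁻¹' (Θ '' {s : ℂ | 0 < s.re})ᶜ with hZ
  have hZc : IsCompact Z := isCompact_Icc.inter_right (G.isOpen_image.isClosed_compl.preimage hwc)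
  have hZn : Z.Nonempty := by
    refine ⟨1 / m, ⟨by positivity, by rw [div_le_one (by linarith)]; exact hm⟩, ?_⟩
    rw [mem_preimage]
    have : w (1 / m) = Θ (t0 * I) := by
      simp only [hw, h]
      have : (m:ℂ) ≠ 0 := by exact_mod_cast (by linarith : (0:ℝ) < m).ne'
      push_cast
      field_simp
      ring
    rw [this]
    exact G.axis_notMem t0
  obtain ⟨a, haZ, hamax⟩ := hZc.exists_isMaxOn hZn continuousOn_id
  have hmax : ∀ x ∈ Z, x ≤ a := fun x hx => hamax hx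
  have ha1 : a < 1 := by
    refine lt_of_le_of_ne haZ.1.2 ?_
    intro h1
    apply haZ.2
    rw [h1]
    refine ⟨s1, hs1, ?_⟩
    simp [hw]
  have ha0 : 0 < a := by
    refine lt_of_le_of_ne haZ.1.1 ?_
    intro h1
    apply haZ.2
    rw [← h1]
    refine ⟨1, by simp, ?_⟩
    simp [hw]
  have hright : ∀ᶠ x in 𝓝[>] a, w x ∈ Θ '' {s : ℂ | 0 < s.re} := by
    filter_upwards [Ioo_mem_nhdsGT ha1] with x hx
    by_contra hcon
    have := hmax x ⟨⟨by linarith [hx.1], hx.2.le⟩, hcon⟩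
    linarith [hx.1]
  have hwa : w a ∈ Θ '' {s : ℂ | 0 ≤ s.re} := by
    refine G.isClosed_image.mem_of_tendsto
      ((hwc.tendsto a).mono_left (nhdsWithin_le_nhds (s := Ioi a))) ?_
    filter_upwards [hright] with x hx
    exact image_mono sub_hp hx
  obtain ⟨s, hs, hsw⟩ := hwa
  have hs0 : s.re = 0 := by
    by_contra hne
    exact haZ.2 ⟨s, lt_of_le_of_ne hs (Ne.symm hne), hsw⟩
  have hsI : s = (s.im : ℂ) * I := by apply Complex.ext <;> simp [hs0]
  set t := s.im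
  obtain ⟨g, hg, hg0, hgev⟩ := G.local_inv (s := s) hs
  have hwd : HasDerivAt w (Θ s1 - Θ 1) a := by
    have := ((ofRealCLM.hasDerivAt (x := a)).mul_const (Θ s1 - Θ 1)).const_add (Θ 1)
    exact HasDerivAt.congr_deriv this (by simp)
  rw [hsw] at hg
  have hgw := hg.comp a hwd
  have hre := reCLM.hasFDerivAt.comp_hasDerivAt a hgw
  have hge := deriv_nonneg_of_right (f := fun x => (g (w x)).re) hre ?_
  · have h3 := hax t
    rw [← hsI, hsw] at h3
    have h4 : (w a - Θ 1) / Θ' s = ((a : ℝ) : ℂ) * ((Θ' s)⁻¹ * (Θ s1 - Θ 1)) := by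
      simp only [hw]
      field_simp
      ring
    rw [h4, re_ofReal_mul] at h3
    have h5 : 0 ≤ ((Θ' s)⁻¹ * (Θ s1 - Θ 1)).re := hge
    have := mul_nonneg ha0.le h5
    linarith
  · have h6 : Tendsto (fun x => sig Θ (w x)) (𝓝[>] a) (𝓝 s) := by
      refine G.tendsto hs ?_ ?_
      · filter_upwards [hright] with x hx
        exact (G.sig_spec hx).1.le
      · rw [hsw]
        refine ((hwc.tendsto a).mono_left (nhdsWithin_le_nhds (s := Ioi a))).congr' ?_
        filter_upwards [hright] with x hx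
        exact (G.sig_spec hx).2.symm
    filter_upwards [hright, h6.eventually hgev] with x hx hx2
    rw [(G.sig_spec hx).2] at hx2
    rw [hx2, ← hsw, hg0, hs0]
    exact (G.sig_spec hx).1.le

/-- the main subordination lemma -/
theorem sub {h : ℂ → ℂ} (hh : DifferentiableOn ℂ h (ball 0 1)) (h0 : h 0 = Θ 1)
    (hno : ∀ z0 ∈ ball (0:ℂ) 1, ∀ t0 m : ℝ, 1 ≤ m → h z0 = Θ (t0 * I) →
      z0 * deriv h z0 = -((m * (1 + t0 ^ 2) / 2 : ℝ) : ℂ) * Θ' (t0 * I) → False) :
    ∀ z ∈ ball (0:ℂ) 1, h z ∈ Θ '' {s : ℂ | 0 < s.re} := by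
  by_contra hcon
  push Not at hcon
  obtain ⟨z1, hz1, hz1n⟩ := hcon
  rw [mem_ball_zero_iff] at hz1
  have hsub : closedBall (0:ℂ) ‖z1‖ ⊆ ball 0 1 := closedBall_subset_ball hz1
  set B : Set ℂ := closedBall (0:ℂ) ‖z1‖ ∩ h ⁻¹' (Θ '' {s : ℂ | 0 < s.re})ᶜ with hB
  have hBc : IsCompact B := by
    refine (isCompact_closedBall (0:ℂ) ‖z1‖).of_isClosed_subset ?_ inter_subset_left
    exact (hh.continuousOn.mono hsub).preimage_isClosed_of_isClosed isClosed_closedBall
      G.isOpen_image.isClosed_compl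
  have hBn : B.Nonempty := ⟨z1, by simp, hz1n⟩
  obtain ⟨z0, hz0B, hz0min⟩ := hBc.exists_isMinOn hBn continuous_norm.continuousOn
  have hmin : ∀ z ∈ B, ‖z0‖ ≤ ‖z‖ := fun z hz => hz0min hz
  have hz01 : ‖z0‖ ≤ ‖z1‖ := by simpa using hz0B.1
  set r := ‖z0‖ with hr
  have hin : ∀ z : ℂ, ‖z‖ < r → h z ∈ Θ '' {s : ℂ | 0 < s.re} := by
    intro z hz
    by_contra hc
    have := hmin z ⟨by rw [mem_closedBall_zero_iff]; linarith, hc⟩
    linarith
  have hz0ne : z0 ≠ 0 := by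
    intro hc
    apply hz0B.2
    rw [hc, h0]
    exact ⟨1, by simp, rfl⟩
  have hrpos : 0 < r := norm_pos_iff.2 hz0ne
  have hr1 : r < 1 := by linarith
  have hz0ball : z0 ∈ ball (0:ℂ) 1 := by rw [mem_ball_zero_iff]; exact hr1
  have hhd : HasDerivAt h (deriv h z0) z0 :=
    (hh.differentiableAt (isOpen_ball.mem_nhds hz0ball)).hasDerivAt
  have hhc : ContinuousAt h z0 := hhd.continuousAt
  -- `z0` is in the closure of the small ball
  have hcl : (𝓝[ball (0:ℂ) r] z0).NeBot := by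
    rw [← mem_closure_iff_nhdsWithin_neBot, closure_ball _ hrpos.ne', mem_closedBall_zero_iff]
  have hmem : h z0 ∈ Θ '' {s : ℂ | 0 ≤ s.re} := by
    refine G.isClosed_image.mem_of_tendsto (b := 𝓝[ball (0:ℂ) r] z0) hhc.continuousWithinAt.tendsto ?_
    filter_upwards [self_mem_nhdsWithin] with z hz
    rw [mem_ball_zero_iff] at hz
    exact image_mono sub_hp (hin z hz)
  obtain ⟨s, hs, hsw⟩ := hmem
  have hs0 : s.re = 0 := by
    by_contra hne
    exact hz0B.2 ⟨s, lt_of_le_of_ne hs (Ne.symm hne), hsw⟩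
  set t := s.im with ht
  have hsI : s = (t : ℂ) * I := by apply Complex.ext <;> simp [hs0, ht]
  -- the subordinating function
  set q : ℂ → ℂ := fun z => sig Θ (h z) with hq
  have hqre : ∀ z : ℂ, ‖z‖ < r → 0 < (q z).re := fun z hz => (G.sig_spec (hin z hz)).1
  have hqΘ : ∀ z : ℂ, ‖z‖ < r → Θ (q z) = h z := fun z hz => (G.sig_spec (hin z hz)).2
  have hqd : ∀ z : ℂ, ‖z‖ < r → DifferentiableAt ℂ q z := by
    intro z hz
    have hzb : z ∈ ball (0:ℂ) 1 := by rw [mem_ball_zero_iff]; linarith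
    exact ((G.sig_hasDerivAt (hin z hz)).comp z
      (hh.differentiableAt (isOpen_ball.mem_nhds hzb)).hasDerivAt).differentiableAt
  have hq0 : q 0 = 1 := by
    simp only [hq, h0]
    exact G.sig_left (by simp)
  have hq1 : ∀ z : ℂ, ‖z‖ < r → q z + 1 ≠ 0 := by
    intro z hz hc
    have := hqre z hz
    have h2 := congrArg re hc
    simp at h2
    linarith
  -- Schwarz
  have hschwarz : ∀ z : ℂ, ‖z‖ < r → ‖(q z - 1) / (q z + 1)‖ ≤ ‖z‖ / r := by
    intro z hz
    have key := dist_le_div_mul_dist_of_mapsTo_ball (f := fun z => (q z - 1) / (q z + 1)) (c := (0:ℂ))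
      (z := z) (R₁ := r) (R₂ := 1) ?_ ?_ (by rwa [mem_ball_zero_iff])
    · simp only [hq0, sub_self, zero_div, dist_zero_right] at key
      calc _ ≤ _ := key
        _ = _ := by ring
    · intro y hy
      rw [mem_ball_zero_iff] at hy
      exact (((hqd y hy).sub_const 1).div ((hqd y hy).add_const 1) (hq1 y hy)).differentiableWithinAt
    · intro y hy
      rw [mem_ball_zero_iff] at hy
      simp only [hq0, sub_self, zero_div, mem_closedBall_zero_iff]
      rw [norm_div, div_le_one (norm_pos_iff.2 (hq1 y hy))]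
      have := hqre y hy
      rw [← sq_le_sq₀ (norm_nonneg _) (norm_nonneg _), ← normSq_eq_norm_sq, ← normSq_eq_norm_sq,
        normSq_apply, normSq_apply]
      simp only [sub_re, sub_im, one_re, one_im, add_re, add_im]
      nlinarith
  obtain ⟨g, hg, hg0, hgev⟩ := G.local_inv (s := s) hs
  set Q : ℂ → ℂ := fun z => g (h z) with hQ
  have hQ0 : Q z0 = s := by simp only [hQ, ← hsw, hg0]
  set D := (Θ' s)⁻¹ * deriv h z0 with hD
  have hQd : HasDerivAt Q D z0 := by
    rw [hsw] at hg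
    exact hg.comp z0 hhd
  have hqQ : ∀ᶠ z in 𝓝[ball (0:ℂ) r] z0, q z = Q z := by
    have h6 : Tendsto q (𝓝[ball (0:ℂ) r] z0) (𝓝 s) := by
      refine G.tendsto hs ?_ ?_
      · filter_upwards [self_mem_nhdsWithin] with z hz
        rw [mem_ball_zero_iff] at hz
        exact (hqre z hz).le
      · rw [hsw]
        refine hhc.continuousWithinAt.tendsto.congr' ?_
        filter_upwards [self_mem_nhdsWithin] with z hz
        rw [mem_ball_zero_iff] at hz
        exact (hqΘ z hz).symm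
    filter_upwards [self_mem_nhdsWithin, h6.eventually hgev] with z hz hz2
    rw [mem_ball_zero_iff] at hz
    rw [hqΘ z hz] at hz2
    exact hz2.symm
  have hs1 : s + 1 ≠ 0 := by
    intro hc
    have h2 := congrArg re hc
    simp [hs0] at h2
  -- omega tilde
  set Ω : ℂ → ℂ := fun z => (Q z - 1) / (Q z + 1) with hΩ
  have hΩd : HasDerivAt Ω (2 * D / (s + 1) ^ 2) z0 := by
    have h7 := (hQd.sub_const 1).div (hQd.add_const 1) (by rw [hQ0]; exact hs1)
    refine HasDerivAt.congr_deriv h7 ?_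
    rw [hQ0]
    field_simp
    ring
  have hΩ0 : Ω z0 = (s - 1) / (s + 1) := by simp only [hΩ, hQ0]
  have hΩn : ‖Ω z0‖ = 1 := by
    rw [hΩ0, norm_div, div_eq_one_iff_eq (norm_pos_iff.2 hs1).ne']
    rw [← sq_eq_sq₀ (norm_nonneg _) (norm_nonneg _), ← normSq_eq_norm_sq, ← normSq_eq_norm_sq,
        normSq_apply, normSq_apply]
    simp [hs0]
  set D2 : ℂ := (starRingEnd ℂ) (Ω z0) * (2 * D / (s + 1) ^ 2) * z0 with hD2
  -- the directional inequality
  have hdir : ∀ e : ℂ, 0 < e.re → e.re ≤ (e * D2).re := by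
    intro e he
    have hline : HasDerivAt (fun x : ℝ => z0 * (1 - x * e)) (-(z0 * e)) 0 := by
      have := (((ofRealCLM.hasDerivAt (x := (0:ℝ))).mul_const e).const_sub 1).const_mul z0
      simpa using this
    have hline1 : HasDerivAt (fun x : ℝ => (1 - x * e : ℂ)) (-e) 0 := by
      have := (((ofRealCLM.hasDerivAt (x := (0:ℝ))).mul_const e).const_sub 1)
      simpa using this
    have hz00 : (fun x : ℝ => z0 * (1 - x * e)) 0 = z0 := by simp
    have hc1 : HasDerivAt (fun x : ℝ => Ω (z0 * (1 - x * e))) ((2 * D / (s + 1) ^ 2) * (-(z0 * e))) 0 := by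
      have hΩd' := hΩd
      rw [← hz00] at hΩd'
      exact hΩd'.comp (0:ℝ) hline
    have hn1 := hline1.norm_sq
    have hn2 := hc1.norm_sq
    have hf := hn1.sub hn2
    have hnn := deriv_nonneg_of_right hf ?_
    · simp only [Complex.inner, ofReal_zero, zero_mul, sub_zero, mul_one, map_one] at hnn
      have e1 : ((2 * D / (s + 1) ^ 2) * (-(z0 * e)) * (starRingEnd ℂ) (Ω z0)).re = -(e * D2).re := by
        rw [← neg_re]
        congr 1
        rw [hD2]
        ring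
      rw [e1, neg_re] at hnn
      linarith
    · -- eventually
      have hev1 : ∀ᶠ x : ℝ in 𝓝[>] (0:ℝ), ‖(1 - (x:ℂ) * e)‖ < 1 := by
        have h8 : ∀ᶠ x in 𝓝[>] (0:ℝ), x * normSq e < 2 * e.re := by
          have : Tendsto (fun x : ℝ => x * normSq e) (𝓝[>] (0:ℝ)) (𝓝 (0 * normSq e)) :=
            (Continuous.tendsto (by fun_prop) 0).mono_left nhdsWithin_le_nhds
          rw [zero_mul] at this
          exact this.eventually_lt_const (by linarith)
        filter_upwards [h8, self_mem_nhdsWithin] with x hx hx2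
        have hx2' : 0 < x := hx2
        rw [← sq_lt_one_iff₀ (norm_nonneg _), ← normSq_eq_norm_sq, normSq_apply]
        rw [normSq_apply] at hx
        simp only [sub_re, one_re, re_ofReal_mul, sub_im, one_im, im_ofReal_mul]
        nlinarith
      have htend : Tendsto (fun x : ℝ => z0 * (1 - x * e)) (𝓝[>] (0:ℝ)) (𝓝[ball (0:ℂ) r] z0) := by
        refine tendsto_nhdsWithin_iff.2 ⟨?_, ?_⟩
        · have : Tendsto (fun x : ℝ => z0 * (1 - x * e)) (𝓝[>] (0:ℝ)) (𝓝 (z0 * (1 - (0:ℝ) * e))) :=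
            (Continuous.tendsto (by fun_prop) 0).mono_left nhdsWithin_le_nhds
          simpa using this
        · filter_upwards [hev1] with x hx
          rw [mem_ball_zero_iff, norm_mul, ← hr]
          nlinarith
      filter_upwards [hev1, htend.eventually hqQ] with x hx hx2
      have h9 : ‖z0 * (1 - x * e)‖ < r := by
        rw [norm_mul, ← hr]
        nlinarith
      have h10 := hschwarz _ h9
      rw [hx2] at h10
      have e5 : ‖z0 * (1 - (x:ℂ) * e)‖ / r = ‖(1 - (x:ℂ) * e)‖ := by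
        rw [norm_mul, ← hr]
        field_simp
      rw [e5] at h10
      have h11 : ‖Ω (z0 * (1 - x * e))‖ ^ 2 ≤ ‖(1 - x * e : ℂ)‖ ^ 2 := by
        have : ‖Ω (z0 * (1 - x * e))‖ ≤ ‖(1 - x * e : ℂ)‖ := h10
        gcongr
      simp only [Pi.sub_apply]
      have h12 : ‖Ω (z0 * (1 - ((0:ℝ):ℂ) * e))‖ ^ 2 = 1 := by
        simp [hΩn]
      rw [h12]
      simp
      linarith
  have hre1 : 1 ≤ D2.re := by
    have := hdir 1 (by simp)
    simpa using this
  have him : D2.im = 0 := by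
    by_contra hne
    have := hdir (1 + (D2.re / D2.im : ℝ) * I) (by simp)
    simp only [add_re, one_re, mul_re, ofReal_re, I_re, mul_zero, ofReal_im, I_im, mul_one, sub_self,
      add_zero, one_mul, add_im, one_im, mul_im, zero_add] at this
    have h13 : D2.re / D2.im * D2.im = D2.re := by field_simp
    rw [h13] at this
    linarith
  have hD2r : D2 = (D2.re : ℂ) := by apply Complex.ext <;> simp [him]
  refine hno z0 hz0ball t D2.re hre1 (by rw [← hsI]; exact hsw.symm) ?_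
  rw [← hsI]
  -- algebra
  have hconj : Ω z0 * (starRingEnd ℂ) (Ω z0) = 1 := by
    rw [mul_conj, normSq_eq_norm_sq, hΩn]
    simp
  have h14 : (2 * D / (s + 1) ^ 2) * z0 = D2 * Ω z0 := by
    rw [hD2]
    linear_combination (-(2 * D / (s + 1) ^ 2) * z0) * hconj
  rw [hD2r, hΩ0] at h14
  have hΘne := G.ne s hs
  have h15 : 2 * D * z0 = D2.re * (s ^ 2 - 1) := by
    field_simp at h14
    linear_combination h14
  have h16 : s ^ 2 = - (t:ℂ) ^ 2 := by
    rw [hsI, mul_pow, I_sq]; ring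
  rw [h16, hD] at h15
  push_cast
  field_simp at h15
  linear_combination h15 / 2

end Good

end Pool.Agent.J4.H68.AC
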