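import Pool.Agent.J4.H68.AC.B6
import Pool.Agent.J4.H68.AC.C6

set_option autoImplicit false

/-!
The coefficient theorem for compositions with the Caratheodory class.
-/

namespace Pool.Agent.J4.H68.AC

open Complex MeasureTheory Set Filter Topology Metric

/-- second derivative test -/
lemma second_deriv_le {φ φ' : ℝ → ℝ} {c : ℝ} (h1 : ∀ ε, HasDerivAt φ (φ' ε) ε)
    (h2 : HasDerivAt φ' c 0) (hmax : ∀ᶠ ε in 𝓝 (0:ℝ), φ ε ≤ φ 0) : c ≤ 0 := by
  by_contra hc
  push Not at hc
  have h3 : IsLocalMax φ 0 := hmax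
  have h4 : φ' 0 = 0 := h3.hasDerivAt_eq_zero (h1 0)
  have h5 : Tendsto (slope φ' 0) (𝓝[>] 0) (𝓝 c) :=
    h2.tendsto_slope.mono_left (nhdsWithin_mono _ (fun x hx => ne_of_gt hx))
  have h6 : ∀ᶠ ε in 𝓝[>] (0:ℝ), 0 < φ' ε := by
    filter_upwards [h5.eventually_const_lt hc, self_mem_nhdsWithin] with x hx hx2
    have hx2' : 0 < x := hx2
    rw [slope_def_field, h4, sub_zero, sub_zero] at hx
    exact (div_pos_iff_of_pos_right hx2').1 hx
  obtain ⟨a, ha, haI⟩ := mem_nhdsGT_iff_exists_Ioo_subset.1 h6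
  obtain ⟨b, hb, hbI⟩ := Metric.eventually_nhds_iff.1 hmax
  have ha' : 0 < a := ha
  set ε := min a b / 2 with hε
  have hε0 : 0 < ε := by
    have := lt_min ha' hb
    linarith
  have hεa : ε < a := by
    have := min_le_left a b
    have := lt_min ha' hb
    linarith
  have hεb : ε < b := by
    have := min_le_right a b
    have := lt_min ha' hb
    linarith
  obtain ⟨ξ, hξ, hξ2⟩ := exists_hasDerivAt_eq_slope φ φ' hε0
    (fun x _ => (h1 x).continuousAt.continuousWithinAt) (fun x _ => h1 x)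
  have h7 : 0 < φ' ξ := haI ⟨hξ.1, by linarith [hξ.2]⟩
  rw [hξ2, sub_zero] at h7
  have h8 := (div_pos_iff_of_pos_right hε0).1 h7
  have h9 : φ ε ≤ φ 0 := hbI (by rw [Real.dist_eq, sub_zero, abs_of_pos hε0]; exact hεb)
  linarith

/-- polynomial with prescribed coefficients -/
noncomputable def qv {n : ℕ} (v : Fin n → ℂ) (z : ℂ) : ℂ := 1 + ∑ k : Fin n, v k * z ^ ((k:ℕ) + 1)

lemma an_qv {n : ℕ} (v : Fin n → ℂ) : AnalyticAt ℂ (qv v) 0 := by
  unfold qv
  fun_prop

lemma tc_qv_form {n : ℕ} (v : Fin n → ℂ) (m : ℕ) :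
    tc m (qv v) = (if m = 0 then 1 else 0) + ∑ k : Fin n, v k * (if m = (k:ℕ) + 1 then 1 else 0) := by
  unfold qv
  rw [tc_add (g := fun _ => (1:ℂ)) analyticAt_const (by fun_prop), tc_const,
    tc_sum _ (fun k _ => by fun_prop)]
  congr 1
  refine Finset.sum_congr rfl fun k _ => ?_
  rw [tc_const_mul, tc_pow]

lemma tc_qv {n : ℕ} (v : Fin n → ℂ) (k : Fin n) : tc ((k:ℕ) + 1) (qv v) = v k := by
  rw [tc_qv_form, if_neg (by omega), zero_add, Finset.sum_eq_single k]
  · simp
  · intro j _ hj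
    rw [if_neg, mul_zero]
    intro h
    apply hj
    apply Fin.ext
    omega
  · intro h
    exact absurd (Finset.mem_univ k) h

/-- the functional on the coefficient body -/
noncomputable def TT (n : ℕ) (Ψ : ℂ → ℂ) (v : Fin n → ℂ) : ℂ := tc n (fun z => Ψ (qv v z))

lemma TT_continuous (n : ℕ) {Ψ : ℂ → ℂ} (hΨ : AnalyticAt ℂ Ψ 1) : Continuous (TT n Ψ) := by
  unfold TT
  refine continuous_tc_comp (q := fun v : Fin n → ℂ => qv v) (a := 1) (fun v => an_qv v)
    (fun v => by simp [qv]) (fun k => ?_) n Ψ hΨ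
  simp_rw [tc_qv_form]
  fun_prop

lemma TT_eq {n : ℕ} {Ψ q : ℂ → ℂ} (hΨ : AnalyticAt ℂ Ψ 1) (hq : AnalyticAt ℂ q 0) (hq0 : q 0 = 1) :
    TT n Ψ (fun k : Fin n => tc ((k:ℕ) + 1) q) = tc n (fun z => Ψ (q z)) := by
  unfold TT
  refine tc_comp_congr (an_qv _) hq n ?_ Ψ (by simpa [qv] using hΨ)
  intro k hk
  rcases k with _ | k
  · rw [tc_zero, tc_zero, hq0]
    simp [qv]
  · exact tc_qv (fun k : Fin n => tc ((k:ℕ) + 1) q) ⟨k, by omega⟩

lemma tc_lin {n : ℕ} {A h : ℂ → ℂ} (hA : AnalyticAt ℂ A 0) (hh : AnalyticAt ℂ h 0) (h0 : h 0 = 0) :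
    tc n (fun z => A z * h z) = ∑ k ∈ Finset.range n, tc (n - (k + 1)) A * tc (k + 1) h := by
  have e : (fun z => A z * h z) = fun z => h z * A z := by funext z; ring
  rw [e, tc_mul hh hA, Finset.sum_range_succ', tc_zero, h0, zero_mul, add_zero]
  refine Finset.sum_congr rfl fun k _ => ?_
  ring

section
variable {n : ℕ} (hn : 1 ≤ n) {Ψ Φ : ℂ → ℂ} (hΨ : AnalyticAt ℂ Ψ 1) (hΨ1 : deriv Ψ 1 ≠ 0)
  (hΦd : ∀ s : ℂ, 0 ≤ s.re → DifferentiableAt ℂ Φ s)
  (hΦb : ∃ C : ℝ, ∀ s : ℂ, 0 ≤ s.re → ‖Φ s‖ ≤ C) (hΦax : ∀ t : ℝ, 0 < (Φ (t * I)).re)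
  (hΨ2 : ∀ᶠ s in 𝓝 (1:ℂ), deriv (deriv Ψ) s = Φ s * deriv Ψ s)
include hn hΨ hΨ1 hΦd hΦb hΦax hΨ2

theorem body_bound {v : Fin n → ℂ} (hv : v ∈ body n) :
    (TT n Ψ v).re ≤ ‖tc n (fun z => Ψ (pp 1 z))‖ := by
  have hne : (body n).Nonempty := ⟨_, VV_mem n (x := 1) (by simp)⟩
  obtain ⟨v', hv', hmax'⟩ := (body_compact n).exists_isMaxOn hne
    (continuous_re.comp (TT_continuous n hΨ)).continuousOn
  have hmax : ∀ u ∈ body n, (TT n Ψ u).re ≤ (TT n Ψ v').re := fun u hu => hmax' hu
  refine (hmax v hv).trans ?_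
  clear hv v hmax'
  obtain ⟨ι, hι, Z, w, hZ, _, hw, hw1, hsum⟩ := eq_pos_convex_span_of_mem_convexHull hv'
  have hx' : ∀ i, ∃ x : ℂ, ‖x‖ = 1 ∧ VV n x = Z i := by
    intro i
    obtain ⟨x, hx, hxZ⟩ := hZ ⟨i, rfl⟩
    exact ⟨x, by simpa using hx, hxZ⟩
  choose x hx hxZ using hx'
  have hneι : Nonempty ι := by
    by_contra h
    rw [not_nonempty_iff] at h
    rw [Finset.univ_eq_empty, Finset.sum_empty] at hw1
    exact zero_ne_one hw1
  have hrot : ∀ y : ℂ, tc n (fun z => Ψ (pp y z)) = y ^ n * tc n (fun z => Ψ (pp 1 z)) := by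
    intro y
    have h1 : AnalyticAt ℂ (fun z => Ψ (pp 1 z)) 0 :=
      AnalyticAt.fun_comp (by rw [pp_zero]; exact hΨ) (an_pp0 1)
    have h2 := tc_rot h1 y n
    rw [← h2]
    congr 1
    funext z
    simp [pp]
  have hanq : AnalyticAt ℂ (qh x w) 0 := an_qh (by simp)
  have hqh0 : qh x w 0 = 1 := qh_zero hw1
  have htcqh : ∀ k : ℕ, tc (k + 1) (qh x w) = ∑ i, (w i : ℂ) * (2 * x i ^ (k + 1)) := by
    intro k
    unfold qh
    rw [tc_sum _ (fun i _ => analyticAt_const.fun_mul (an_pp0 _))]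
    refine Finset.sum_congr rfl fun i _ => ?_
    rw [tc_const_mul, tc_pp]
  have hv'k : ∀ k : Fin n, v' k = tc ((k:ℕ) + 1) (qh x w) := by
    intro k
    rw [htcqh, ← hsum]
    simp only [Finset.sum_apply, Pi.smul_apply, real_smul]
    refine Finset.sum_congr rfl fun i _ => ?_
    rw [← hxZ]
    rfl
  by_cases hall : ∀ i j, x i = x j
  · -- a single atom
    obtain ⟨i0⟩ := hneι
    have h1 : v' = VV n (x i0) := by
      funext k
      rw [hv'k, htcqh]
      unfold VV
      have : ∀ i ∈ Finset.univ, (w i : ℂ) * (2 * x i ^ ((k:ℕ) + 1)) = (w i : ℂ) * (2 * x i0 ^ ((k:ℕ) + 1)) :=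
        fun i _ => by rw [hall i i0]
      rw [Finset.sum_congr rfl this, ← Finset.sum_mul]
      have h2 : ∑ i, (w i : ℂ) = 1 := by exact_mod_cast hw1
      rw [h2, one_mul]
    have h3 : TT n Ψ v' = tc n (fun z => Ψ (pp (x i0) z)) := by
      rw [← TT_eq hΨ (an_pp0 (x i0)) (pp_zero _), h1]
      congr 1
      funext k
      rw [tc_pp]
      rfl
    rw [h3, hrot]
    refine (re_le_norm _).trans ?_
    rw [norm_mul, norm_pow, hx, one_pow, one_mul]
  · exfalso
    push Not at hall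
    obtain ⟨i, j, hij⟩ := hall
    set A : ℂ → ℂ := fun z => deriv Ψ (qh x w z) with hA
    have hAan : AnalyticAt ℂ A 0 := AnalyticAt.fun_comp (by rw [hqh0]; exact hΨ.deriv) hanq
    have hΨq : AnalyticAt ℂ Ψ (qh x w 0) := by rw [hqh0]; exact hΨ
    set D : ℕ → ℂ := fun k => tc (n - (k + 1)) A with hD
    have hDn : D (n - 1) ≠ 0 := by
      simp only [hD]
      rw [show n - (n - 1 + 1) = 0 by omega, tc_zero]
      simp only [hA, hqh0]
      exact hΨ1
    set C0 : ℝ := (∑ k ∈ Finset.range n, D k * tc (k + 1) (qh x w)).re with hC0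
    -- values of PP
    have hPP : ∀ y : ℂ, (PP n D y).re - C0 = (tc n (fun z => A z * (pp y z - qh x w z))).re := by
      intro y
      rw [tc_lin hAan ((an_pp0 y).fun_sub hanq) (by rw [pp_zero, hqh0, sub_self]), hC0, ← sub_re]
      congr 1
      unfold PP
      rw [← Finset.sum_sub_distrib]
      refine Finset.sum_congr rfl fun k _ => ?_
      rw [tc_sub (an_pp0 y) hanq, tc_pp]
      ring
    -- vectors of perturbations
    have hpertT : ∀ (η : ℂ → ℂ), AnalyticAt ℂ η 0 → η 0 = 0 → ∀ ε : ℝ,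
        tc n (fun z => Ψ (pert (qh x w) η ε z))
          = TT n Ψ (fun k : Fin n => v' k + ε * tc ((k:ℕ) + 1) η) := by
      intro η hη hη0 ε
      rw [← TT_eq hΨ (an_pert hanq hη ε) (by rw [pert_zero hη0, hqh0])]
      congr 1
      funext k
      rw [tc_pert hanq hη, hv'k]
    -- first order condition
    have hℓ : ∀ y : ℂ, ‖y‖ = 1 → (PP n D y).re ≤ C0 := by
      intro y hy
      have hη : AnalyticAt ℂ (fun z => pp y z - qh x w z) 0 := (an_pp0 y).fun_sub hanq
      have hη0 : (fun z => pp y z - qh x w z) 0 = 0 := by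
        simp only [pp_zero, hqh0, sub_self]
      have hder := hasDerivAt_tc_comp hanq hη hη0 n Ψ hΨq 0
      have hre := (reCLM.hasFDerivAt.comp_hasDerivAt (0:ℝ) hder).neg
      have h1 := deriv_nonneg_of_right hre ?_
      · simp only [reCLM_apply] at h1
        have h2 : (fun z => deriv Ψ (pert (qh x w) (fun z => pp y z - qh x w z) 0 z)
            * (pp y z - qh x w z)) = fun z => A z * (pp y z - qh x w z) := by
          funext z
          simp [pert, hA]
        rw [h2, ← hPP] at h1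
        linarith
      · filter_upwards [Ioo_mem_nhdsGT (show (0:ℝ) < 1 by norm_num)] with ε hε
        simp only [Pi.neg_apply, Function.comp_apply, reCLM_apply]
        rw [hpertT _ hη hη0, hpertT _ hη hη0, neg_le_neg_iff]
        have h3 : (fun k : Fin n => v' k + ((0:ℝ):ℂ) * tc ((k:ℕ) + 1) (fun z => pp y z - qh x w z)) = v' := by
          funext k
          simp
        rw [h3]
        refine hmax _ ?_
        have h4 : (fun k : Fin n => v' k + (ε:ℂ) * tc ((k:ℕ) + 1) (fun z => pp y z - qh x w z))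
            = (1 - ε) • v' + ε • VV n y := by
          funext k
          rw [tc_sub (an_pp0 y) hanq, tc_pp, ← hv'k]
          simp only [Pi.add_apply, Pi.smul_apply, real_smul, VV]
          push_cast
          ring
        rw [h4]
        exact (body_convex n) hv' (VV_mem n hy) (by linarith [hε.2]) hε.1.le (by ring)
    -- equality at atoms
    have hsumPP : ∑ i, w i * (PP n D (x i)).re = C0 := by
      have h1 : ∑ i, (w i : ℂ) * PP n D (x i) = ∑ k ∈ Finset.range n, D k * tc (k + 1) (qh x w) := by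
        unfold PP
        simp_rw [htcqh, Finset.mul_sum]
        rw [Finset.sum_comm]
        refine Finset.sum_congr rfl fun k _ => Finset.sum_congr rfl fun i _ => ?_
        ring
      rw [hC0, ← h1, re_sum]
      refine Finset.sum_congr rfl fun i _ => ?_
      rw [re_ofReal_mul]
    have hxC : ∀ i, (PP n D (x i)).re = C0 := by
      have h1 : ∑ i, w i * (C0 - (PP n D (x i)).re) = 0 := by
        simp_rw [mul_sub]
        rw [Finset.sum_sub_distrib, ← Finset.sum_mul, hw1, hsumPP]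
        ring
      have h2 := (Finset.sum_eq_zero_iff_of_nonneg (fun i _ =>
        mul_nonneg (hw i).le (sub_nonneg.2 (hℓ _ (hx i))))).1 h1
      intro i
      rcases mul_eq_zero.1 (h2 i (Finset.mem_univ i)) with h3 | h3
      · exact absurd h3 (hw i).ne'
      · linarith
    -- second order condition
    set η : ℂ → ℂ := fun z => pp (x i) z - pp (x j) z with hη
    have hηan : AnalyticAt ℂ η 0 := (an_pp0 _).fun_sub (an_pp0 _)
    have hη0 : η 0 = 0 := by simp only [hη, pp_zero, sub_self]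
    have hsec : (tc n (fun z => deriv (deriv Ψ) (pert (qh x w) η 0 z) * η z * η z)).re ≤ 0 := by
      refine second_deriv_le (φ := fun ε : ℝ => (tc n (fun z => Ψ (pert (qh x w) η ε z))).re)
        (φ' := fun ε : ℝ => (tc n (fun z => deriv Ψ (pert (qh x w) η ε z) * η z)).re) ?_ ?_ ?_
      · intro ε
        exact reCLM.hasFDerivAt.comp_hasDerivAt ε (hasDerivAt_tc_comp hanq hηan hη0 n Ψ hΨq ε)
      · exact reCLM.hasFDerivAt.comp_hasDerivAt (0:ℝ)
          (hasDerivAt_tc_comp2 hanq hηan hη0 n (Ψ := deriv Ψ) hΨq.deriv 0)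
      · have hδ : 0 < min (w i) (w j) := lt_min (hw i) (hw j)
        filter_upwards [Metric.ball_mem_nhds (0:ℝ) hδ] with ε hε
        rw [Metric.mem_ball, Real.dist_eq, sub_zero] at hε
        have hε1 := abs_lt.1 (hε.trans_le (min_le_left _ _))
        have hε2 := abs_lt.1 (hε.trans_le (min_le_right _ _))
        rw [hpertT _ hηan hη0, hpertT _ hηan hη0]
        have h3 : (fun k : Fin n => v' k + ((0:ℝ):ℂ) * tc ((k:ℕ) + 1) η) = v' := by
          funext k
          simp
        rw [h3]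
        refine hmax _ ?_
        classical
        set w' : ι → ℝ := fun k => w k + (if k = i then ε else 0) - (if k = j then ε else 0) with hw'
        have hij' : i ≠ j := fun h => hij (by rw [h])
        have hw'0 : ∀ k ∈ (Finset.univ : Finset ι), 0 ≤ w' k := by
          intro k _
          simp only [hw']
          by_cases hki : k = i
          · subst hki
            rw [if_pos rfl, if_neg hij']
            linarith [hε1.1]
          · rw [if_neg hki]
            by_cases hkj : k = j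
            · subst hkj
              rw [if_pos rfl]
              linarith [hε2.2]
            · rw [if_neg hkj]
              linarith [hw k]
        have hw'1 : ∑ k, w' k = 1 := by
          simp only [hw']
          rw [Finset.sum_sub_distrib, Finset.sum_add_distrib]
          simp [hw1]
        have h4 : (fun k : Fin n => v' k + (ε:ℂ) * tc ((k:ℕ) + 1) η) = ∑ m, w' m • VV n (x m) := by
          funext k
          have hηk : tc ((k:ℕ) + 1) η = tc ((k:ℕ) + 1) (pp (x i)) - tc ((k:ℕ) + 1) (pp (x j)) :=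
            tc_sub (an_pp0 _) (an_pp0 _) _
          rw [hηk, tc_pp, tc_pp, hv'k, htcqh]
          simp only [Finset.sum_apply, Pi.smul_apply, real_smul, VV, hw']
          push_cast
          simp_rw [sub_mul, add_mul]
          rw [Finset.sum_sub_distrib, Finset.sum_add_distrib]
          have hite : ∀ m0 : ι, ∑ m, ((if m = m0 then ε else 0 : ℝ) : ℂ) * (2 * x m ^ ((k:ℕ) + 1))
              = ε * (2 * x m0 ^ ((k:ℕ) + 1)) := by
            intro m0
            rw [Finset.sum_eq_single m0]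
            · rw [if_pos rfl]
            · intro b _ hb
              rw [if_neg hb]
              simp
            · intro h
              exact absurd (Finset.mem_univ _) h
          rw [hite, hite]
          ring
        rw [h4]
        exact (body_convex n).sum_mem hw'0 hw'1 fun m _ => VV_mem n (hx m)
    refine key hn hDn hℓ hx hw hw1 hxC hij hΦd hΦb hΦax ?_
    have hηη : AnalyticAt ℂ (fun z => Φ (qh x w z) * (pp (x i) z - pp (x j) z) ^ 2) 0 := by
      have h1 : AnalyticAt ℂ Φ (qh x w 0) := by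
        rw [hqh0]
        have : DifferentiableOn ℂ Φ {s : ℂ | 0 < s.re} := fun s hs =>
          (hΦd s (sub_hp hs)).differentiableWithinAt
        exact this.analyticAt ((isOpen_lt continuous_const continuous_re).mem_nhds (by simp))
      exact (AnalyticAt.fun_comp h1 hanq).fun_mul (hηan.fun_pow 2)
    rw [← tc_lin hAan hηη (by simp only [pp_zero]; ring)]
    have h5 : tc n (fun z => A z * (Φ (qh x w z) * (pp (x i) z - pp (x j) z) ^ 2))
        = tc n (fun z => deriv (deriv Ψ) (pert (qh x w) η 0 z) * η z * η z) := by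
      refine tc_congr ?_ n
      have h6 : ∀ᶠ z in 𝓝 (0:ℂ), deriv (deriv Ψ) (qh x w z) = Φ (qh x w z) * deriv Ψ (qh x w z) :=
        hanq.continuousAt.eventually (by rw [hqh0]; exact hΨ2)
      filter_upwards [h6] with z hz
      simp only [pert, ofReal_zero, zero_mul, add_zero, hz, hA, hη]
      ring
    rw [h5]
    exact hsec

theorem coeff_bound {q : ℂ → ℂ} (hq : DifferentiableOn ℂ q (ball 0 1)) (hq0 : q 0 = 1)
    (hqre : ∀ z ∈ ball (0:ℂ) 1, 0 < (q z).re) :
    ‖tc n (fun z => Ψ (q z))‖ ≤ ‖tc n (fun z => Ψ (pp 1 z))‖ := by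
  have hqan : AnalyticAt ℂ q 0 := hq.analyticAt (isOpen_ball.mem_nhds (mem_ball_self one_pos))
  set a := tc n (fun z => Ψ (q z)) with ha
  -- the rotation
  obtain ⟨c, hc, hca⟩ : ∃ c : ℂ, ‖c‖ = 1 ∧ c ^ n * a = (‖a‖ : ℂ) := by
    have hn0 : (n:ℂ) ≠ 0 := by exact_mod_cast (by omega : n ≠ 0)
    refine ⟨exp (((-(arg a) / n : ℝ) : ℂ) * I), norm_exp_ofReal_mul_I _, ?_⟩
    rw [← exp_nat_mul]
    have h1 : (n:ℂ) * (((-(arg a) / n : ℝ) : ℂ) * I) = -(arg a * I) := by
      push_cast
      field_simp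
    rw [h1]
    nth_rewrite 2 [← norm_mul_exp_arg_mul_I a]
    rw [mul_left_comm, ← exp_add]
    simp
  have hmaps : ∀ z ∈ ball (0:ℂ) 1, c * z ∈ ball (0:ℂ) 1 := by
    intro z hz
    rw [mem_ball_zero_iff] at hz ⊢
    rw [norm_mul, hc, one_mul]
    exact hz
  have hqc : DifferentiableOn ℂ (fun z => q (c * z)) (ball 0 1) :=
    hq.comp (by fun_prop) hmaps
  have hqc0 : q (c * 0) = 1 := by rw [mul_zero, hq0]
  have hmem := body_mem n hqc (fun z hz => (hqre _ (hmaps z hz)).le) hqc0
  have hqcan : AnalyticAt ℂ (fun z => q (c * z)) 0 :=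
    hqc.analyticAt (isOpen_ball.mem_nhds (mem_ball_self one_pos))
  have hb := body_bound hn hΨ hΨ1 hΦd hΦb hΦax hΨ2 hmem
  rw [TT_eq hΨ hqcan hqc0] at hb
  have hcomp : AnalyticAt ℂ (fun z => Ψ (q z)) 0 := AnalyticAt.fun_comp (by rw [hq0]; exact hΨ) hqan
  have h2 := tc_rot hcomp c n
  rw [h2, ← ha, hca, ofReal_re] at hb
  exact hb

end

end Pool.Agent.J4.H68.AC
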