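import Pool.Agent.J4.H68.AC.R4

set_option autoImplicit false

/-!
The complex functions `RR`, `R1`.
-/

namespace Pool.Agent.J4.H68.AC

open Complex MeasureTheory intervalIntegral Set Filter Topology Metric

/-- parametric integral -/
noncomputable def WW (w : ℝ → ℝ) (a : ℂ) (s : ℂ) : ℂ :=
  ∫ y in (0:ℝ)..1, (w y : ℂ) * (1 + s * y) ^ a

lemma re_one_add {s : ℂ} (hs : -1 < s.re) {y : ℝ} (h0 : 0 ≤ y) (h1 : y ≤ 1) :
    0 < (1 + s * y).re := by
  simp only [add_re, one_re, mul_re, ofReal_re, ofReal_im, mul_zero, sub_zero]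
  rcases h1.lt_or_eq with h | h
  · nlinarith [mul_le_mul_of_nonneg_right hs.le h0]
  · rw [h]; linarith

lemma slit {s : ℂ} (hs : -1 < s.re) {y : ℝ} (h0 : 0 ≤ y) (h1 : y ≤ 1) :
    (1 + s * y) ∈ slitPlane := Or.inl (re_one_add hs h0 h1)

lemma contOn_WW {w : ℝ → ℝ} (hw : Continuous w) (a : ℂ) {s : ℂ} (hs : -1 < s.re) :
    ContinuousOn (fun y : ℝ => (w y : ℂ) * (1 + s * y) ^ a) (Icc 0 1) := by
  refine ContinuousOn.mul (by fun_prop) ?_
  refine ContinuousOn.cpow_const (by fun_prop) ?_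
  intro y hy
  exact slit hs hy.1 hy.2

lemma hasDerivAt_WW {w : ℝ → ℝ} (hw : Continuous w) (a : ℂ) {s0 : ℂ} (hs : -1 < s0.re) :
    HasDerivAt (WW w a) (a * WW (fun y => y * w y) (a - 1) s0) s0 := by
  set ρ := (1 + s0.re) / 2 with hρ
  have hρ0 : 0 < ρ := by rw [hρ]; linarith
  have hre : ∀ s ∈ closedBall s0 ρ, -1 < s.re := by
    intro s hs'
    have h1 : |(s - s0).re| ≤ ‖s - s0‖ := abs_re_le_norm _
    rw [mem_closedBall, dist_eq_norm] at hs'
    have h2 := abs_le.1 (h1.trans hs')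
    rw [sub_re] at h2
    have := h2.1
    rw [hρ] at this
    linarith
  have hcont : ContinuousOn (fun p : ℂ × ℝ => (w p.2 : ℂ) * (a * (1 + p.1 * p.2) ^ (a - 1) * p.2))
      (closedBall s0 ρ ×ˢ Icc (0:ℝ) 1) := by
    refine ContinuousOn.mul (by fun_prop) ?_
    refine ContinuousOn.mul (ContinuousOn.mul continuousOn_const ?_) (by fun_prop)
    refine ContinuousOn.cpow_const (by fun_prop) ?_
    rintro ⟨s, y⟩ ⟨h1, h2⟩
    exact slit (hre s h1) h2.1 h2.2
  obtain ⟨C, hC⟩ := ((isCompact_closedBall s0 ρ).prod isCompact_Icc).exists_bound_of_continuousOn hcont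
  have key := intervalIntegral.hasDerivAt_integral_of_dominated_loc_of_deriv_le (𝕜 := ℂ) (μ := volume)
    (a := (0:ℝ)) (b := 1) (F := fun (s : ℂ) (y : ℝ) => (w y : ℂ) * (1 + s * y) ^ a)
    (F' := fun (s : ℂ) (y : ℝ) => (w y : ℂ) * (a * (1 + s * y) ^ (a - 1) * y))
    (x₀ := s0) (s := closedBall s0 ρ) (bound := fun _ => C) (closedBall_mem_nhds s0 hρ0)
    ?_ ?_ ?_ ?_ ?_ ?_
  · have h2 := key.2
    refine HasDerivAt.congr_deriv h2 ?_
    unfold WW
    rw [← intervalIntegral.integral_const_mul]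
    refine intervalIntegral.integral_congr fun y _ => ?_
    simp only
    push_cast
    ring
  · filter_upwards [closedBall_mem_nhds s0 hρ0] with s hs'
    have := (contOn_WW hw a (hre s hs'))
    rw [uIoc_of_le zero_le_one]
    exact (this.mono Ioc_subset_Icc_self).aestronglyMeasurable measurableSet_Ioc
  · have := (contOn_WW hw a hs)
    exact (this.intervalIntegrable_of_Icc zero_le_one)
  · rw [uIoc_of_le zero_le_one]
    have : ContinuousOn (fun y : ℝ => (w y : ℂ) * (a * (1 + s0 * y) ^ (a - 1) * y)) (Icc 0 1) := by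
      refine ContinuousOn.mul (by fun_prop) ?_
      refine ContinuousOn.mul (ContinuousOn.mul continuousOn_const ?_) (by fun_prop)
      refine ContinuousOn.cpow_const (by fun_prop) ?_
      intro y hy
      exact slit hs hy.1 hy.2
    exact (this.mono Ioc_subset_Icc_self).aestronglyMeasurable measurableSet_Ioc
  · refine Eventually.of_forall fun y hy s hs' => ?_
    rw [uIoc_of_le zero_le_one] at hy
    exact hC (s, y) ⟨hs', Ioc_subset_Icc_self hy⟩
  · exact intervalIntegrable_const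
  · refine Eventually.of_forall fun y hy s hs' => ?_
    rw [uIoc_of_le zero_le_one] at hy
    have h1 : HasDerivAt (fun s : ℂ => 1 + s * (y:ℂ)) (y:ℂ) s := by
      have := ((hasDerivAt_id s).mul_const (y:ℂ)).const_add 1
      simpa using this
    have h2 := (h1.cpow_const (c := a) (slit (hre s hs') hy.1.le hy.2)).const_mul (w y : ℂ)
    exact h2

variable {β : ℝ}

/-- the function `R` -/
noncomputable def RR (β : ℝ) (s : ℂ) : ℂ := WW (Jp β) (-(2 * β)) s

/-- the function `R1` -/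
noncomputable def R1 (β : ℝ) (s : ℂ) : ℂ := WW (fun y => y * Jp β y) (-(2 * β) - 1) s

/-- the auxiliary function `R0` -/
noncomputable def R0 (β : ℝ) (s : ℂ) : ℂ := WW (Jp β) (-(2 * β) - 1) s

section
variable (hβ : 1 < β)
include hβ

lemma hasDerivAt_RR {s : ℂ} (hs : -1 < s.re) : HasDerivAt (RR β) (-(2 * β) * R1 β s) s := by
  have := hasDerivAt_WW (Jp_continuous hβ) (-(2 * β)) hs
  exact this

lemma differentiableAt_R1 {s : ℂ} (hs : -1 < s.re) : DifferentiableAt ℂ (R1 β) s := by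
  have := hasDerivAt_WW (w := fun y => y * Jp β y) (continuous_id.mul (Jp_continuous hβ))
    (-(2 * β) - 1) hs
  exact this.differentiableAt

/-- the first relation : `R = R0 + s R1` -/
lemma RR_eq_R0 {s : ℂ} (hs : -1 < s.re) : RR β s = R0 β s + s * R1 β s := by
  have hJ := Jp_continuous hβ
  unfold RR R0 R1 WW
  rw [← intervalIntegral.integral_const_mul, ← intervalIntegral.integral_add]
  · refine intervalIntegral.integral_congr fun y hy => ?_
    rw [uIcc_of_le zero_le_one] at hy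
    simp only
    have h1 : (1 + s * (y:ℂ)) ≠ 0 := slitPlane_ne_zero (slit hs hy.1 hy.2)
    have h2 : (1 + s * (y:ℂ)) ^ (-(2 * (β:ℂ))) = (1 + s * (y:ℂ)) ^ (-(2 * (β:ℂ)) - 1) * (1 + s * y) := by
      rw [cpow_sub _ _ h1, cpow_one]
      field_simp
    rw [h2]
    push_cast
    ring
  · exact (contOn_WW hJ _ hs).intervalIntegrable_of_Icc zero_le_one
  · exact (continuousOn_const.mul (contOn_WW (w := fun y => y * Jp β y) (continuous_id.mul hJ) _ hs)).intervalIntegrable_of_Icc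
      zero_le_one

/-- the second relation : `1 = R1 + s R0` -/
lemma one_eq_R1 {s : ℂ} (hs : -1 < s.re) : 1 = R1 β s + s * R0 β s := by
  have hJ := Jp_continuous hβ
  have hd : ∀ y ∈ uIcc (0:ℝ) 1, HasDerivAt (fun y : ℝ => -((FF β y : ℂ) * (1 + s * y) ^ (-(2 * (β:ℂ)))))
      ((((fun y => y * Jp β y) y : ℝ) : ℂ) * (1 + s * y) ^ (-(2 * (β:ℂ)) - 1)
        + s * ((Jp β y : ℂ) * (1 + s * y) ^ (-(2 * (β:ℂ)) - 1))) y := by
    intro y hy
    rw [uIcc_of_le zero_le_one] at hy
    have d1 : HasDerivAt (fun y : ℝ => (FF β y : ℂ)) ((-(y * Jp β y) : ℝ) : ℂ) y :=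
      (hasDerivAt_FF hβ y).ofReal_comp
    have d0 : HasDerivAt (fun y : ℝ => (1 + s * (y:ℂ))) s y := by
      have h0 : HasDerivAt (fun y : ℝ => (y : ℂ)) 1 y := ofRealCLM.hasDerivAt (x := y)
      have := (h0.const_mul s).const_add 1
      simpa using this
    have hsl := slit hs hy.1 hy.2
    have d2 : HasDerivAt (fun y : ℝ => (1 + s * (y:ℂ)) ^ (-(2 * (β:ℂ))))
        (-(2 * (β:ℂ)) * (1 + s * y) ^ (-(2 * (β:ℂ)) - 1) * s) y := by
      have h := HasDerivAt.comp y (h₂ := fun z : ℂ => z ^ (-(2 * (β:ℂ)))) (h := fun y : ℝ => 1 + s * (y:ℂ))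
        ((hasDerivAt_id (1 + s * (y:ℂ))).cpow_const (c := -(2 * (β:ℂ))) hsl) d0
      refine HasDerivAt.congr_deriv h ?_
      simp only [id]
      ring
    have d3 := (d1.mul d2).neg
    refine HasDerivAt.congr_deriv d3 ?_
    have h1 : (1 + s * (y:ℂ)) ≠ 0 := slitPlane_ne_zero hsl
    have h2 : (1 + s * (y:ℂ)) ^ (-(2 * (β:ℂ))) = (1 + s * (y:ℂ)) ^ (-(2 * (β:ℂ)) - 1) * (1 + s * y) := by
      rw [cpow_sub _ _ h1, cpow_one]
      field_simp
    have h3 : (2 * β : ℂ) * (FF β y : ℂ) = (1 - y ^ 2) * (Jp β y : ℂ) := by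
      have : 2 * β * FF β y = (1 - y ^ 2) * Jp β y := by
        unfold FF Jp
        rcases eq_or_ne (1 - y ^ 2) 0 with h0 | h0
        · rw [h0, Real.zero_rpow (by linarith), Real.zero_rpow (by linarith)]; ring
        · rw [Real.rpow_sub_one h0 β]
          field_simp
      exact_mod_cast this
    rw [h2]
    push_cast
    linear_combination ((1 + s * (y:ℂ)) ^ (-(2 * (β:ℂ)) - 1) * s) * h3
  have hc1 := contOn_WW (w := fun y => y * Jp β y) (continuous_id.mul hJ) (-(2 * (β:ℂ)) - 1) hs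
  have hc2 := contOn_WW hJ (-(2 * (β:ℂ)) - 1) hs
  have i1 := hc1.intervalIntegrable_of_Icc zero_le_one (μ := volume)
  have i2 : IntervalIntegrable (fun y : ℝ => s * ((Jp β y : ℂ) * (1 + s * y) ^ (-(2 * (β:ℂ)) - 1)))
      volume 0 1 := ((continuousOn_const (c := s)).mul hc2).intervalIntegrable_of_Icc zero_le_one
  have key := intervalIntegral.integral_eq_sub_of_hasDerivAt hd (i1.add i2)
  rw [intervalIntegral.integral_add i1 i2, intervalIntegral.integral_const_mul] at key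
  unfold R1 R0 WW
  rw [key, FF_one hβ, FF_zero]
  simp

/-- `1 - s R = (1 - s^2) R1` -/
lemma rel1 {s : ℂ} (hs : -1 < s.re) : 1 - s * RR β s = (1 - s ^ 2) * R1 β s := by
  have h1 := RR_eq_R0 hβ hs
  have h2 := one_eq_R1 hβ hs
  rw [h1]
  linear_combination h2

end

end Pool.Agent.J4.H68.AC
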