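import Mathlib

set_option autoImplicit false

/-!
Phragmen-Lindelof type positivity lemmas on the right half plane, and injectivity of functions
whose derivative has positive real part.
-/

namespace Pool.Agent.J4.H68.AC

open Complex MeasureTheory Set Filter Topology Metric Bornology

lemma closure_rhp : closure {z : ℂ | 0 < z.re} = {z : ℂ | 0 ≤ z.re} :=
  Complex.closure_setOfPred_lt_re 0

lemma diffCont {g : ℂ → ℂ} (hd : ∀ s : ℂ, 0 ≤ s.re → DifferentiableAt ℂ g s) :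
    DiffContOnCl ℂ g {z : ℂ | 0 < z.re} := by
  apply DifferentiableOn.diffContOnCl
  rw [closure_rhp]
  exact fun s hs => (hd s hs).differentiableWithinAt

lemma bdd_of_tail {g : ℂ → ℂ} (hd : ∀ s : ℂ, 0 ≤ s.re → DifferentiableAt ℂ g s) {C N : ℝ}
    (hC : ∀ s : ℂ, 0 ≤ s.re → N ≤ ‖s‖ → ‖g s‖ ≤ C) :
    ∃ C' : ℝ, ∀ s : ℂ, 0 ≤ s.re → ‖g s‖ ≤ C' := by
  have hK : IsCompact (closedBall (0:ℂ) N ∩ {z : ℂ | 0 ≤ z.re}) :=
    (isCompact_closedBall 0 N).inter_right (isClosed_le continuous_const continuous_re)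
  have hcont : ContinuousOn g (closedBall (0:ℂ) N ∩ {z : ℂ | 0 ≤ z.re}) :=
    fun s hs => (hd s hs.2).continuousAt.continuousWithinAt
  obtain ⟨D, hD⟩ := hK.exists_bound_of_continuousOn hcont
  refine ⟨max C D, fun s hs => ?_⟩
  rcases le_total N ‖s‖ with h | h
  · exact (hC s hs h).trans (le_max_left _ _)
  · exact (hD s ⟨by simpa using h, hs⟩).trans (le_max_right _ _)

lemma PL_nn {g : ℂ → ℂ} (hd : ∀ s : ℂ, 0 ≤ s.re → DifferentiableAt ℂ g s)
    (hb : ∃ C : ℝ, ∀ s : ℂ, 0 ≤ s.re → ‖g s‖ ≤ C)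
    (hax : ∀ t : ℝ, 0 ≤ (g (t * I)).re) {s : ℂ} (hs : 0 ≤ s.re) : 0 ≤ (g s).re := by
  obtain ⟨C, hC⟩ := hb
  have hnorm : ∀ z : ℂ, ‖cexp (-(g z))‖ = Real.exp (-(g z).re) := by
    intro z
    rw [Complex.norm_exp, neg_re]
  have hle : ∀ z : ℂ, 0 ≤ z.re → ‖cexp (-(g z))‖ ≤ Real.exp C := by
    intro z hz
    rw [hnorm]
    apply Real.exp_le_exp.2
    have h1 := abs_re_le_norm (g z)
    have h2 := (abs_le.1 (h1.trans (hC z hz))).1
    linarith
  have key := PhragmenLindelof.right_half_plane_of_bounded_on_real (f := fun z => cexp (-(g z)))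
    (C := 1) (z := s) (diffCont fun z hz => (hd z hz).neg.cexp) ?_ ?_ ?_ hs
  · rw [hnorm] at key
    have := Real.exp_le_one_iff.1 key
    linarith
  · refine ⟨1, by norm_num, 0, ?_⟩
    refine Asymptotics.IsBigO.of_bound (Real.exp C) ?_
    have : ∀ᶠ z in cobounded ℂ ⊓ 𝓟 {z : ℂ | 0 < z.re}, z ∈ {z : ℂ | 0 < z.re} :=
      mem_inf_of_right (mem_principal_self _)
    filter_upwards [this] with z hz
    simp only [zero_mul, Real.exp_zero, norm_one, mul_one]
    exact hle z (le_of_lt hz)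
  · refine isBoundedUnder_of_eventually_le (a := Real.exp C) ?_
    filter_upwards [eventually_ge_atTop (0:ℝ)] with x hx
    exact hle x (by simpa using hx)
  · intro x
    rw [hnorm]
    exact Real.exp_le_one_iff.2 (by linarith [hax x])

lemma PL_pos {g : ℂ → ℂ} (hd : ∀ s : ℂ, 0 ≤ s.re → DifferentiableAt ℂ g s)
    (hb : ∃ C : ℝ, ∀ s : ℂ, 0 ≤ s.re → ‖g s‖ ≤ C)
    (hax : ∀ t : ℝ, 0 < (g (t * I)).re) {s : ℂ} (hs : 0 ≤ s.re) : 0 < (g s).re := by
  rcases hs.eq_or_lt with h0 | h0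
  · have : s = (s.im : ℂ) * I := by
      apply Complex.ext <;> simp [← h0]
    rw [this]
    exact hax _
  have hnn : ∀ z : ℂ, 0 ≤ z.re → 0 ≤ (g z).re := fun z hz => PL_nn hd hb (fun t => (hax t).le) hz
  have hopen : IsOpen {z : ℂ | 0 < z.re} := isOpen_lt continuous_const continuous_re
  have han : AnalyticOnNhd ℂ g {z : ℂ | 0 < z.re} :=
    DifferentiableOn.analyticOnNhd (fun z hz => (hd z (le_of_lt hz)).differentiableWithinAt) hopen
  have hpre : IsPreconnected {z : ℂ | 0 < z.re} := (convex_halfSpace_re_gt 0).isPreconnected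
  rcases han.is_constant_or_isOpen hpre with ⟨w, hw⟩ | hop
  · have hcl : (0:ℂ) ∈ closure {z : ℂ | 0 < z.re} := by rw [closure_rhp]; simp
    have hne : (𝓝[{z : ℂ | 0 < z.re}] (0:ℂ)).NeBot := mem_closure_iff_nhdsWithin_neBot.1 hcl
    have h1 : Tendsto g (𝓝[{z : ℂ | 0 < z.re}] (0:ℂ)) (𝓝 (g 0)) :=
      (hd 0 (by simp)).continuousAt.continuousWithinAt
    have h2 : Tendsto g (𝓝[{z : ℂ | 0 < z.re}] (0:ℂ)) (𝓝 w) := by
      refine tendsto_const_nhds.congr' ?_
      filter_upwards [self_mem_nhdsWithin] with z hz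
      exact (hw z hz).symm
    have h3 := tendsto_nhds_unique h1 h2
    rw [hw s h0, ← h3]
    have := hax 0
    simpa using this
  · have h1 : IsOpen (g '' {z : ℂ | 0 < z.re}) := hop _ subset_rfl hopen
    have h2 : g '' {z : ℂ | 0 < z.re} ⊆ {z : ℂ | 0 ≤ z.re} := by
      rintro _ ⟨z, hz, rfl⟩
      exact hnn z (le_of_lt hz)
    have h3 : g '' {z : ℂ | 0 < z.re} ⊆ interior {z : ℂ | 0 ≤ z.re} := h1.subset_interior_iff.2 h2
    rw [Complex.interior_setOfPred_le_re] at h3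
    exact h3 ⟨s, h0, rfl⟩

/-- Noshiro-Warschawski on a convex set, with differentiability at all the points of the set. -/
lemma injOn_of_re_deriv_pos {g g' : ℂ → ℂ} {K : Set ℂ} (hK : Convex ℝ K)
    (hd : ∀ s ∈ K, HasDerivAt g (g' s) s) (hp : ∀ s ∈ K, 0 < (g' s).re) : InjOn g K := by
  intro a ha b hb hab
  by_contra hne
  have hne' : b - a ≠ 0 := sub_ne_zero.2 (Ne.symm hne)
  -- the real function
  have hmem : ∀ τ ∈ Icc (0:ℝ) 1, a + τ * (b - a) ∈ K := by
    intro τ hτ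
    have := hK ha hb (sub_nonneg.2 hτ.2) hτ.1 (by ring)
    convert this using 1
    simp only [real_smul]
    push_cast
    ring
  have hder : ∀ τ ∈ Icc (0:ℝ) 1, HasDerivAt (fun τ : ℝ => ((g (a + τ * (b - a))) / (b - a)).re)
      ((g' (a + τ * (b - a))).re) τ := by
    intro τ hτ
    have h1 : HasDerivAt (fun τ : ℝ => a + (τ:ℂ) * (b - a)) (b - a) τ := by
      have h0 : HasDerivAt (fun y : ℝ => (y : ℂ)) 1 τ := ofRealCLM.hasDerivAt (x := τ)
      have := (h0.mul_const (b - a)).const_add a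
      simpa using this
    have h2 := ((hd _ (hmem τ hτ)).comp τ h1).div_const (b - a)
    rw [mul_div_assoc, div_self hne', mul_one] at h2
    have h3 := (reCLM.hasFDerivAt.comp_hasDerivAt τ h2)
    exact h3
  have hmono : StrictMonoOn (fun τ : ℝ => ((g (a + τ * (b - a))) / (b - a)).re) (Icc 0 1) := by
    refine strictMonoOn_of_deriv_pos (convex_Icc 0 1) ?_ ?_
    · exact fun τ hτ => (hder τ hτ).continuousAt.continuousWithinAt
    · intro τ hτ
      rw [interior_Icc] at hτ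
      rw [(hder τ (Ioo_subset_Icc_self hτ)).deriv]
      exact hp _ (hmem τ (Ioo_subset_Icc_self hτ))
  have := hmono (show (0:ℝ) ∈ Icc (0:ℝ) 1 by simp) (show (1:ℝ) ∈ Icc (0:ℝ) 1 by simp) one_pos
  simp [hab] at this

end Pool.Agent.J4.H68.AC
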