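import Pool.Agent.J4.H68.AC.C1
import Pool.Agent.J4.H68.AC.C2

set_option autoImplicit false

/-!
Basic facts on `RR` and `SS` on the closed right half plane.
-/

namespace Pool.Agent.J4.H68.AC

open Complex MeasureTheory intervalIntegral Set Filter Topology Metric Bornology

/-- the function `S` -/
noncomputable def SS (β : ℝ) (s : ℂ) : ℂ := RR β s - (1 + s) * R1 β s

section
variable {β : ℝ} (hβ : 1 < β)
include hβ

lemma rel2 {s : ℂ} (hs : -1 < s.re) : (s - 1) * SS β s = 1 - RR β s := by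
  unfold SS
  have := rel1 hβ hs
  linear_combination -this

lemma RR_one : RR β 1 = 1 := by
  have := rel2 hβ (s := 1) (by simp)
  rw [sub_self, zero_mul] at this
  linear_combination this

omit hβ in
lemma RR_zero : RR β 0 = cc β := by
  unfold RR WW cc JJ
  rw [← intervalIntegral.integral_ofReal]
  refine intervalIntegral.integral_congr fun y _ => ?_
  simp

lemma deriv_RR {s : ℂ} (hs : -1 < s.re) : deriv (RR β) s = -(2 * β) * R1 β s :=
  (hasDerivAt_RR hβ hs).deriv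

/-- ODE for `R` -/
lemma odeR {s : ℂ} (hs : -1 < s.re) : (s ^ 2 - 1) * deriv (RR β) s = 2 * β * (1 - s * RR β s) := by
  rw [deriv_RR hβ hs]
  have := rel1 hβ hs
  linear_combination (-2 * (β:ℂ)) * this

/-- the derivative of `R1` -/
lemma odeR1 {s : ℂ} (hs : -1 < s.re) :
    (1 - s ^ 2) * deriv (R1 β) s = - RR β s + (2 * β + 2) * s * R1 β s := by
  have hopen : IsOpen {z : ℂ | -1 < z.re} := isOpen_lt continuous_const continuous_re
  have hev : (fun z : ℂ => 1 - z * RR β z) =ᶠ[𝓝 s] fun z => (1 - z ^ 2) * R1 β z := by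
    filter_upwards [hopen.mem_nhds hs] with z hz
    exact rel1 hβ hz
  have d1 : HasDerivAt (fun z : ℂ => 1 - z * RR β z) (-(1 * RR β s + s * (-(2 * β) * R1 β s))) s :=
    ((hasDerivAt_id s).mul (hasDerivAt_RR hβ hs)).const_sub 1
  have d0 : HasDerivAt (fun z : ℂ => 1 - z ^ 2) (-(2 * s)) s := by
    have := (hasDerivAt_pow 2 s).const_sub 1
    simpa using this
  have d2 := d0.mul (differentiableAt_R1 hβ hs).hasDerivAt
  have d3 := d1.congr_of_eventuallyEq hev.symm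
  have := d2.unique d3
  linear_combination this

lemma hasDerivAt_SS {s : ℂ} (hs : -1 < s.re) :
    HasDerivAt (SS β) (-(2 * β) * R1 β s - (R1 β s + (1 + s) * deriv (R1 β) s)) s := by
  have d1 := hasDerivAt_RR hβ hs
  have d2 : HasDerivAt (fun z : ℂ => 1 + z) 1 s := by simpa using (hasDerivAt_id s).const_add 1
  have d3 := (d1.sub (d2.mul (differentiableAt_R1 hβ hs).hasDerivAt))
  refine HasDerivAt.congr_deriv d3 ?_
  ring

/-- ODE for `S` -/
lemma odeS {s : ℂ} (hs : -1 < s.re) :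
    (s ^ 2 - 1) * deriv (SS β) s = 2 * β - ((2 * β + 1) * s + 1) * SS β s := by
  rw [(hasDerivAt_SS hβ hs).deriv]
  have h1 := rel1 hβ hs
  have h2 := odeR1 hβ hs
  unfold SS
  linear_combination (-(2 * (β:ℂ))) * h1 + (1 + s) * h2

/-- the value on the imaginary axis -/
lemma RR_axis (t : ℝ) : (EE β t : ℂ) * RR β (t * I) = cc β - II β t * I := by
  have hre : ∀ t : ℝ, -1 < ((t:ℂ) * I).re := by intro t; simp
  have hd : ∀ t : ℝ, HasDerivAt (fun t : ℝ => (EE β t : ℂ) * RR β (t * I) + II β t * I) 0 t := by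
    intro t
    have hE := (hasDerivAt_EE β t).ofReal_comp
    have hI := (hasDerivAt_II β t).ofReal_comp
    have h0 : HasDerivAt (fun y : ℝ => (y : ℂ) * I) I t := by
      have := (ofRealCLM.hasDerivAt (x := t)).mul_const I
      simpa using this
    have hR := (hasDerivAt_RR hβ (hre t)).comp t h0
    have h1 := (hE.mul hR).add (hI.mul_const I)
    refine HasDerivAt.congr_deriv h1 ?_
    have h2 := rel1 hβ (hre t)
    have h3 : (2 * β : ℂ) * EE β t = (1 + t ^ 2) * Ip β t := by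
      exact_mod_cast EE_eq β t
    have hI2 : (I:ℂ) ^ 2 = -1 := I_sq
    simp only [Function.comp_apply]
    push_cast
    have h4 : (1:ℂ) - (t * I) ^ 2 = 1 + t ^ 2 := by
      rw [mul_pow, hI2]; ring
    rw [h4] at h2
    linear_combination (-(R1 β (t * I)) * I) * h3 + (Ip β t * I) * h2 + (Ip β t * t * RR β (t*I)) * hI2
  have hconst : ∀ x y : ℝ, (fun t : ℝ => (EE β t : ℂ) * RR β (t * I) + II β t * I) x
      = (fun t : ℝ => (EE β t : ℂ) * RR β (t * I) + II β t * I) y := by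
    refine is_const_of_deriv_eq_zero (fun t => (hd t).differentiableAt) (fun t => (hd t).deriv)
  have := hconst t 0
  simp only [EE_zero, II_zero, ofReal_zero, ofReal_one, zero_mul, RR_zero] at this
  linear_combination this

omit hβ in
/-- boundedness -/
lemma norm_base_ge {s : ℂ} (hs : 0 ≤ s.re) {y : ℝ} (h0 : 0 ≤ y) : 1 + ‖s‖ ^ 2 * y ^ 2 ≤ ‖1 + s * y‖ ^ 2 := by
  have e1 : ‖1 + s * (y:ℂ)‖ ^ 2 = (1 + s.re * y) ^ 2 + (s.im * y) ^ 2 := by
    rw [← normSq_eq_norm_sq, normSq_apply]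
    simp only [add_re, one_re, mul_re, ofReal_re, ofReal_im, mul_zero, sub_zero, add_im, one_im,
      mul_im, zero_add]
    ring
  have e2 : ‖s‖ ^ 2 = s.re ^ 2 + s.im ^ 2 := by
    rw [← normSq_eq_norm_sq, normSq_apply]
    ring
  rw [e1, e2]
  have : 0 ≤ s.re * y := by positivity
  nlinarith

lemma norm_integrand {s : ℂ} (hs : 0 ≤ s.re) {y : ℝ} (h0 : 0 ≤ y) (h1 : y ≤ 1) :
    ‖(Jp β y : ℂ) * (1 + s * y) ^ (-(2 * (β:ℂ)))‖ ≤ Jp β y * (1 + ‖s‖ ^ 2 * y ^ 2)⁻¹ := by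
  have hJ := Jp_nonneg hβ h0 h1
  rw [norm_mul, Complex.norm_real, Real.norm_of_nonneg hJ]
  refine mul_le_mul_of_nonneg_left ?_ hJ
  have hne : (1 + s * (y:ℂ)) ≠ 0 := slitPlane_ne_zero (slit (by linarith) h0 h1)
  have hn := norm_base_ge hs h0
  have e1 : ‖(1 + s * (y:ℂ)) ^ (-(2 * (β:ℂ)))‖ = ‖1 + s * (y:ℂ)‖ ^ (-(2 * β)) := by
    have : (-(2 * (β:ℂ))) = ((-(2 * β) : ℝ) : ℂ) := by push_cast; ring
    rw [this, norm_cpow_real]
  rw [e1, Real.rpow_neg (norm_nonneg _), Real.rpow_mul (norm_nonneg _)]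
  have hpos : 0 < 1 + ‖s‖ ^ 2 * y ^ 2 := by positivity
  rw [inv_le_inv₀ (by have := norm_pos_iff.2 hne; positivity) hpos]
  have h2 : (‖1 + s * (y:ℂ)‖ ^ (2:ℝ)) = ‖1 + s * (y:ℂ)‖ ^ 2 := by norm_cast
  rw [h2]
  have h3 : (1 + ‖s‖ ^ 2 * y ^ 2) ≤ (1 + ‖s‖ ^ 2 * y ^ 2) ^ β := by
    have h4 : 1 ≤ 1 + ‖s‖ ^ 2 * y ^ 2 := by
      have : 0 ≤ ‖s‖ ^ 2 * y ^ 2 := by positivity
      linarith
    calc (1 + ‖s‖ ^ 2 * y ^ 2) = (1 + ‖s‖ ^ 2 * y ^ 2) ^ (1:ℝ) := (Real.rpow_one _).symm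
      _ ≤ _ := Real.rpow_le_rpow_of_exponent_le h4 hβ.le
  exact h3.trans (Real.rpow_le_rpow hpos.le hn (by linarith))

lemma norm_RR_le {s : ℂ} (hs : 0 ≤ s.re) : ‖RR β s‖ ≤ cc β := by
  unfold RR WW cc JJ
  refine intervalIntegral.norm_integral_le_of_norm_le zero_le_one ?_
    ((Jp_continuous hβ).intervalIntegrable 0 1)
  refine Eventually.of_forall fun y hy => ?_
  refine (norm_integrand hβ hs hy.1.le hy.2).trans ?_
  have hJ := Jp_nonneg hβ hy.1.le hy.2
  have : (1 + ‖s‖ ^ 2 * y ^ 2)⁻¹ ≤ 1 := inv_le_one_of_one_le₀ (by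
    have : 0 ≤ ‖s‖ ^ 2 * y ^ 2 := by positivity
    linarith)
  nlinarith

lemma norm_RR_le' {s : ℂ} (hs : 0 ≤ s.re) : ‖s‖ * ‖RR β s‖ ≤ Real.pi * β := by
  rcases eq_or_ne s 0 with h0 | h0
  · rw [h0, norm_zero, zero_mul]
    have := Real.pi_pos
    positivity
  have hsp : 0 < ‖s‖ := norm_pos_iff.2 h0
  have hb : ‖RR β s‖ ≤ ∫ y in (0:ℝ)..1, 2 * β * (1 + (‖s‖ * y) ^ 2)⁻¹ := by
    unfold RR WW
    refine intervalIntegral.norm_integral_le_of_norm_le zero_le_one ?_ ?_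
    · refine Eventually.of_forall fun y hy => ?_
      refine (norm_integrand hβ hs hy.1.le hy.2).trans ?_
      rw [mul_pow]
      have hJ := Jp_le hβ hy.1.le hy.2
      gcongr
    · apply Continuous.intervalIntegrable
      refine continuous_const.mul (Continuous.inv₀ (by fun_prop) ?_)
      intro y
      positivity
  have he : ∫ y in (0:ℝ)..1, 2 * β * (1 + (‖s‖ * y) ^ 2)⁻¹ = 2 * β * (‖s‖⁻¹ * Real.arctan ‖s‖) := by
    rw [intervalIntegral.integral_const_mul]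
    rw [intervalIntegral.integral_comp_mul_left (fun x => (1 + x ^ 2)⁻¹) hsp.ne']
    rw [mul_zero, mul_one, integral_inv_one_add_sq, Real.arctan_zero, sub_zero, smul_eq_mul]
  rw [he] at hb
  have h1 := Real.arctan_lt_pi_div_two ‖s‖
  calc ‖s‖ * ‖RR β s‖ ≤ ‖s‖ * (2 * β * (‖s‖⁻¹ * Real.arctan ‖s‖)) := by gcongr
    _ = 2 * β * Real.arctan ‖s‖ := by field_simp
    _ ≤ 2 * β * (Real.pi / 2) := by gcongr
    _ = Real.pi * β := by ring

end

end Pool.Agent.J4.H68.AC
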