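import Pool.Agent.J4.H68.AC.C3

set_option autoImplicit false

/-!
Positivity facts for `RR`, `SS`, `QQ`, `dL` on the closed right half plane.
-/

namespace Pool.Agent.J4.H68.AC

open Complex MeasureTheory intervalIntegral Set Filter Topology Metric Bornology

/-- the function `Q = 1/R` -/
noncomputable def QQ (β : ℝ) (s : ℂ) : ℂ := (RR β s)⁻¹

/-- the derivative of `Q` -/
noncomputable def dQ (β : ℝ) (s : ℂ) : ℂ := 2 * β * R1 β s * (QQ β s) ^ 2

/-- the derivative of `L` -/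
noncomputable def dL (β : ℝ) (s : ℂ) : ℂ := 2 * SS β s / ((s + 1) * RR β s)

lemma isOpen_gt : IsOpen {z : ℂ | -1 < z.re} := isOpen_lt continuous_const continuous_re

lemma re_axis (t : ℝ) : ((t:ℂ) * I).re = 0 := by simp
lemma re_axis' (t : ℝ) : 0 ≤ ((t:ℂ) * I).re := by simp

lemma ne_neg_one {s : ℂ} (hs : 0 ≤ s.re) : s + 1 ≠ 0 := by
  intro h
  have := congrArg re h
  simp at this
  linarith

section
variable {β : ℝ} (hβ : 1 < β)
include hβ

lemma an_RR {s : ℂ} (hs : -1 < s.re) : AnalyticAt ℂ (RR β) s := by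
  have : DifferentiableOn ℂ (RR β) {z : ℂ | -1 < z.re} :=
    fun z hz => (hasDerivAt_RR hβ hz).differentiableAt.differentiableWithinAt
  exact this.analyticAt (isOpen_gt.mem_nhds hs)

lemma an_R1 {s : ℂ} (hs : -1 < s.re) : AnalyticAt ℂ (R1 β) s := by
  have : DifferentiableOn ℂ (R1 β) {z : ℂ | -1 < z.re} :=
    fun z hz => (differentiableAt_R1 hβ hz).differentiableWithinAt
  exact this.analyticAt (isOpen_gt.mem_nhds hs)

lemma an_SS {s : ℂ} (hs : -1 < s.re) : AnalyticAt ℂ (SS β) s := by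
  unfold SS
  exact (an_RR hβ hs).sub ((analyticAt_const.add analyticAt_id).mul (an_R1 hβ hs))

lemma RR_axis_eq (t : ℝ) : RR β (t * I) = (cc β - II β t * I) / EE β t := by
  have h := RR_axis hβ t
  have hE : (EE β t : ℂ) ≠ 0 := by exact_mod_cast (EE_pos β t).ne'
  rw [eq_div_iff hE, ← h]
  ring

lemma RR_axis_re (t : ℝ) : (RR β (t * I)).re = cc β / EE β t := by
  rw [RR_axis_eq hβ, div_ofReal_re]
  simp

lemma RR_axis_im (t : ℝ) : (RR β (t * I)).im = - II β t / EE β t := by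
  rw [RR_axis_eq hβ, div_ofReal_im]
  simp

/-- first lower bound -/
lemma re_R_ge {s : ℂ} (hs : 0 ≤ s.re) : 1 ≤ ((1 + s) * RR β s).re := by
  have h := PL_nn (g := fun s => (1 + s) * RR β s - 1) (s := s) ?_ ?_ ?_ hs
  · simp only [sub_re, one_re] at h
    linarith
  · intro z hz
    have := (an_RR hβ (by linarith : -1 < z.re)).differentiableAt
    fun_prop
  · refine ⟨cc β + Real.pi * β + 1, fun z hz => ?_⟩
    have h1 := norm_RR_le hβ hz
    have h2 := norm_RR_le' hβ hz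
    calc ‖(1 + z) * RR β z - 1‖ ≤ ‖(1 + z) * RR β z‖ + ‖(1:ℂ)‖ := norm_sub_le _ _
      _ ≤ (1 + ‖z‖) * ‖RR β z‖ + 1 := by
        rw [norm_mul, norm_one]
        gcongr
        calc ‖1 + z‖ ≤ ‖(1:ℂ)‖ + ‖z‖ := norm_add_le _ _
          _ = _ := by rw [norm_one]
      _ ≤ _ := by linarith
  · intro t
    simp only [sub_re, one_re, mul_re, add_re, add_im, one_im]
    rw [RR_axis_re hβ, RR_axis_im hβ]
    have hE := EE_pos β t
    have h1 := ax1 hβ t
    simp only [mul_im, ofReal_re, I_im, mul_one, ofReal_im, I_re, mul_zero, add_zero, zero_add, one_mul,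
      sub_self]
    have : cc β / EE β t - t * (-II β t / EE β t) - 1 = (cc β + t * II β t - EE β t) / EE β t := by
      field_simp
      ring
    rw [this]
    exact div_nonneg (by linarith) hE.le

lemma RR_ne {s : ℂ} (hs : 0 ≤ s.re) : RR β s ≠ 0 := by
  intro h
  have := re_R_ge hβ hs
  rw [h, mul_zero, zero_re] at this
  linarith

lemma norm_QQ_le {s : ℂ} (hs : 0 ≤ s.re) : ‖QQ β s‖ ≤ ‖1 + s‖ := by
  unfold QQ
  rw [norm_inv]
  have h1 := re_R_ge hβ hs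
  have h2 : 1 ≤ ‖1 + s‖ * ‖RR β s‖ := by
    rw [← norm_mul]
    exact h1.trans (re_le_norm _)
  have h3 : 0 < ‖RR β s‖ := norm_pos_iff.2 (RR_ne hβ hs)
  rw [inv_le_iff_one_le_mul₀ h3]
  exact h2

omit hβ in
lemma norm_one_add_le (s : ℂ) : ‖1 + s‖ ≤ 1 + ‖s‖ := by
  calc ‖1 + s‖ ≤ ‖(1:ℂ)‖ + ‖s‖ := norm_add_le _ _
    _ = _ := by rw [norm_one]

omit hβ in
lemma norm_sub_one_ge (s : ℂ) : ‖s‖ - 1 ≤ ‖s - 1‖ := by
  have := norm_sub_norm_le s 1
  rwa [norm_one] at this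

omit hβ in
lemma norm_sq_sub_one_ge (s : ℂ) : ‖s‖ ^ 2 - 1 ≤ ‖s ^ 2 - 1‖ := by
  have := norm_sub_norm_le (s ^ 2) 1
  rwa [norm_one, norm_pow] at this

lemma norm_SS_le {s : ℂ} (hs : 0 ≤ s.re) : (‖s‖ - 1) * ‖SS β s‖ ≤ 1 + cc β := by
  have h := rel2 hβ (by linarith : -1 < s.re)
  have h3 := congrArg norm h
  rw [norm_mul] at h3
  have h4 : ‖1 - RR β s‖ ≤ 1 + cc β := by
    calc ‖1 - RR β s‖ ≤ ‖(1:ℂ)‖ + ‖RR β s‖ := norm_sub_le _ _
      _ ≤ _ := by rw [norm_one]; have := norm_RR_le hβ hs; linarith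
  calc (‖s‖ - 1) * ‖SS β s‖ ≤ ‖s - 1‖ * ‖SS β s‖ := by
        have := norm_sub_one_ge s
        gcongr
    _ ≤ _ := by rw [h3]; exact h4

/-- second lower bound -/
lemma re_S_ge {s : ℂ} (hs : 0 ≤ s.re) : 1 ≤ ((1 + s) * SS β s).re := by
  have hd : ∀ z : ℂ, 0 ≤ z.re → DifferentiableAt ℂ (fun s => (1 + s) * SS β s - 1) z := by
    intro z hz
    have := (an_SS hβ (by linarith : -1 < z.re)).differentiableAt
    fun_prop
  have h := PL_nn (g := fun s => (1 + s) * SS β s - 1) (s := s) hd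
    (bdd_of_tail hd (C := 3 * (1 + cc β) + 1) (N := 2) ?_) ?_ hs
  · simp only [sub_re, one_re] at h
    linarith
  · intro z hz hz2
    have h1 := norm_SS_le hβ hz
    have h2 := norm_one_add_le z
    calc ‖(1 + z) * SS β z - 1‖ ≤ ‖(1 + z) * SS β z‖ + ‖(1:ℂ)‖ := norm_sub_le _ _
      _ ≤ (3 * (‖z‖ - 1)) * ‖SS β z‖ + 1 := by
        rw [norm_mul, norm_one]
        gcongr
        linarith
      _ ≤ _ := by linarith
  · intro t
    have hE := EE_pos β t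
    have hEc : (EE β t : ℂ) ≠ 0 := by exact_mod_cast hE.ne'
    have h1 := ax2 hβ t
    have h2 := rel2 hβ (s := t * I) (by rw [re_axis]; norm_num)
    have hne : ((t:ℂ) * I - 1) ≠ 0 := by
      intro h
      have := congrArg re h
      simp at this
    have hb := base_pos t
    have hbc : (1 + (t:ℂ) ^ 2) ≠ 0 := by exact_mod_cast hb.ne'
    have h3 : (1 + (t:ℂ) * I) * SS β (t * I) = (((t ^ 2 - 1) * (EE β t - cc β) + 2 * t * II β t : ℝ)
        + ((t ^ 2 - 1) * II β t - 2 * t * (EE β t - cc β) : ℝ) * I) / ((EE β t * (1 + t ^ 2) : ℝ) : ℂ) := by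
      have h4 : SS β (t * I) = (1 - RR β (t * I)) / (t * I - 1) := by
        rw [eq_div_iff hne, ← h2]; ring
      rw [h4, RR_axis_eq hβ]
      rw [mul_div_assoc', div_eq_div_iff hne (by push_cast; exact mul_ne_zero hEc hbc)]
      have hI2 : (I:ℂ) ^ 2 = -1 := I_sq
      push_cast
      field_simp
      linear_combination (((t:ℂ) * (1 + t ^ 2) * II β t) - (t * ((t ^ 2 - 1) * II β t - 2 * t * (EE β t - cc β)))) * hI2
    simp only [sub_re, one_re]
    rw [h3, div_ofReal_re]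
    simp only [add_re, mul_re, ofReal_re, I_re, mul_zero, ofReal_im, I_im, mul_one, sub_self, add_zero]
    rw [sub_nonneg, le_div_iff₀ (by positivity)]
    linarith

lemma SS_ne {s : ℂ} (hs : 0 ≤ s.re) : SS β s ≠ 0 := by
  intro h
  have := re_S_ge hβ hs
  rw [h, mul_zero, zero_re] at this
  linarith

lemma norm_inv_SS_le {s : ℂ} (hs : 0 ≤ s.re) : ‖(SS β s)⁻¹‖ ≤ ‖1 + s‖ := by
  rw [norm_inv]
  have h1 := re_S_ge hβ hs
  have h2 : 1 ≤ ‖1 + s‖ * ‖SS β s‖ := by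
    rw [← norm_mul]
    exact h1.trans (re_le_norm _)
  have h3 : 0 < ‖SS β s‖ := norm_pos_iff.2 (SS_ne hβ hs)
  rw [inv_le_iff_one_le_mul₀ h3]
  exact h2

/-- `Re R > 0` -/
lemma re_RR_pos {s : ℂ} (hs : 0 ≤ s.re) : 0 < (RR β s).re := by
  refine PL_pos (g := RR β) (s := s) (fun z hz => (an_RR hβ (by linarith)).differentiableAt)
    ⟨cc β, fun z hz => norm_RR_le hβ hz⟩ ?_ hs
  intro t
  rw [RR_axis_re hβ]
  exact div_pos (cc_pos hβ) (EE_pos β t)

lemma re_QQ_pos {s : ℂ} (hs : 0 ≤ s.re) : 0 < (QQ β s).re := by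
  unfold QQ
  rw [inv_re]
  exact div_pos (re_RR_pos hβ hs) (normSq_pos.2 (RR_ne hβ hs))

lemma QQ_one : QQ β 1 = 1 := by
  unfold QQ
  rw [RR_one hβ, inv_one]

lemma an_QQ {s : ℂ} (hs : 0 ≤ s.re) : AnalyticAt ℂ (QQ β) s :=
  (an_RR hβ (by linarith)).inv (RR_ne hβ hs)

lemma hasDerivAt_QQ {s : ℂ} (hs : 0 ≤ s.re) : HasDerivAt (QQ β) (dQ β s) s := by
  have h := (hasDerivAt_RR hβ (by linarith : -1 < s.re)).inv (RR_ne hβ hs)
  refine HasDerivAt.congr_deriv h ?_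
  unfold dQ QQ
  field_simp

/-- ODE for `Q` -/
lemma odeQ {s : ℂ} (hs : 0 ≤ s.re) : (s ^ 2 - 1) * dQ β s = 2 * β * QQ β s * (s - QQ β s) := by
  have h := rel1 hβ (by linarith : -1 < s.re)
  unfold dQ QQ
  have h0 := RR_ne hβ hs
  field_simp
  linear_combination (β:ℂ) * h

lemma QQ_axis (t : ℝ) : QQ β (t * I) = EE β t * (cc β + II β t * I) / ((cc β ^ 2 + II β t ^ 2 : ℝ) : ℂ) := by
  unfold QQ
  rw [RR_axis_eq hβ]
  have hD : ((cc β ^ 2 + II β t ^ 2 : ℝ) : ℂ) ≠ 0 := by exact_mod_cast (Dn_pos hβ t).ne'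
  have hI2 : (I:ℂ) ^ 2 = -1 := I_sq
  have hw : ((cc β : ℂ) - II β t * I) ≠ 0 := by
    intro h
    have := congrArg re h
    simp at this
    exact (cc_pos hβ).ne' this
  rw [inv_div, div_eq_div_iff hw hD]
  push_cast
  linear_combination ((EE β t : ℂ) * (II β t) ^ 2) * hI2

lemma QQ_axis_re (t : ℝ) : (QQ β (t * I)).re = cc β * EE β t / (cc β ^ 2 + II β t ^ 2) := by
  rw [QQ_axis hβ, div_ofReal_re]
  simp
  ring

lemma QQ_axis_im (t : ℝ) : (QQ β (t * I)).im = EE β t * II β t / (cc β ^ 2 + II β t ^ 2) := by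
  rw [QQ_axis hβ, div_ofReal_im]
  simp

lemma dQ_diff {s : ℂ} (hs : 0 ≤ s.re) : DifferentiableAt ℂ (dQ β) s := by
  have h1 := (an_R1 hβ (by linarith : -1 < s.re)).differentiableAt
  have h2 := (an_QQ hβ hs).differentiableAt
  unfold dQ
  fun_prop

/-- `Re Q' > 0` -/
lemma re_dQ_pos {s : ℂ} (hs : 0 ≤ s.re) : 0 < (dQ β s).re := by
  refine PL_pos (g := dQ β) (s := s) (fun z hz => dQ_diff hβ hz)
    (bdd_of_tail (fun z hz => dQ_diff hβ hz) (C := 10 * β) (N := 2) ?_) ?_ hs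
  · intro z hz hz2
    have h1 := odeQ hβ hz
    have h2 := norm_QQ_le hβ hz
    have h3 := norm_one_add_le z
    have h4 := norm_sq_sub_one_ge z
    have h5 : ‖z ^ 2 - 1‖ * ‖dQ β z‖ = 2 * β * ‖QQ β z‖ * ‖z - QQ β z‖ := by
      have := congrArg norm h1
      rw [norm_mul, norm_mul, norm_mul, norm_mul] at this
      rw [this, Complex.norm_real, Real.norm_of_nonneg (by linarith)]
      simp
    have h6 : ‖z - QQ β z‖ ≤ 1 + 2 * ‖z‖ := by
      calc ‖z - QQ β z‖ ≤ ‖z‖ + ‖QQ β z‖ := norm_sub_le _ _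
        _ ≤ _ := by linarith
    have h7 : (‖z‖ ^ 2 - 1) * ‖dQ β z‖ ≤ 2 * β * (1 + ‖z‖) * (5 * (‖z‖ - 1)) := by
      calc (‖z‖ ^ 2 - 1) * ‖dQ β z‖ ≤ ‖z ^ 2 - 1‖ * ‖dQ β z‖ := by gcongr
        _ = 2 * β * ‖QQ β z‖ * ‖z - QQ β z‖ := h5
        _ ≤ 2 * β * (1 + ‖z‖) * (5 * (‖z‖ - 1)) := by
          gcongr
          · linarith
          · linarith
    have h8 : 0 < ‖z‖ ^ 2 - 1 := by nlinarith
    have h9 : 2 * β * (1 + ‖z‖) * (5 * (‖z‖ - 1)) = (‖z‖ ^ 2 - 1) * (10 * β) := by ring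
    rw [h9] at h7
    exact le_of_mul_le_mul_left h7 h8
  · intro t
    have h1 := odeQ hβ (re_axis' t)
    have hb := base_pos t
    have hbc : (1 + (t:ℂ) ^ 2) ≠ 0 := by exact_mod_cast hb.ne'
    have hI2 : (I:ℂ) ^ 2 = -1 := I_sq
    have h2 : dQ β (t * I) = ((2 * β / (1 + t ^ 2) : ℝ) : ℂ) * (QQ β (t * I) * (QQ β (t * I) - t * I)) := by
      push_cast
      rw [div_mul_eq_mul_div, eq_div_iff hbc]
      linear_combination -h1 + ((t:ℂ) ^ 2 * dQ β (t * I)) * hI2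
    rw [h2, re_ofReal_mul]
    have hG := G_pos hβ t
    have hD := Dn_pos hβ t
    have hE := EE_pos β t
    have hc := cc_pos hβ
    refine mul_pos (by positivity) ?_
    rw [mul_re, sub_re, sub_im, QQ_axis_re hβ, QQ_axis_im hβ, re_axis]
    have e1 : ((t:ℂ) * I).im = t := by simp
    rw [e1]
    have e2 : cc β * EE β t / (cc β ^ 2 + II β t ^ 2) * (cc β * EE β t / (cc β ^ 2 + II β t ^ 2) - 0) -
        EE β t * II β t / (cc β ^ 2 + II β t ^ 2) * (EE β t * II β t / (cc β ^ 2 + II β t ^ 2) - t)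
        = EE β t * ((II β t ^ 2 * (t * II β t - EE β t) + cc β ^ 2 * (t * II β t + EE β t)
      - cc β * EE β t ^ 2) + cc β * EE β t ^ 2) / (cc β ^ 2 + II β t ^ 2) ^ 2 := by
      field_simp
      ring
    rw [e2]
    positivity

lemma dQ_ne {s : ℂ} (hs : 0 ≤ s.re) : dQ β s ≠ 0 := by
  intro h
  have := re_dQ_pos hβ hs
  rw [h, zero_re] at this
  exact lt_irrefl _ this

omit hβ in
lemma convex_rhp : Convex ℝ {s : ℂ | 0 ≤ s.re} := convex_halfSpace_re_ge 0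

lemma injOn_QQ : InjOn (QQ β) {s : ℂ | 0 ≤ s.re} :=
  injOn_of_re_deriv_pos convex_rhp (fun _ hs => hasDerivAt_QQ hβ hs) (fun _ hs => re_dQ_pos hβ hs)

lemma QQ_proper (M : ℝ) : ∃ N : ℝ, ∀ s : ℂ, 0 ≤ s.re → N ≤ ‖s‖ → M ≤ ‖QQ β s‖ := by
  refine ⟨Real.pi * β * |M|, fun s hs hN => ?_⟩
  have h1 := norm_RR_le' hβ hs
  have h3 : 0 < ‖RR β s‖ := norm_pos_iff.2 (RR_ne hβ hs)
  have h4 : 0 < Real.pi * β := by have := Real.pi_pos; positivity
  unfold QQ
  rw [norm_inv]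
  refine (le_abs_self M).trans ?_
  rw [← one_div, le_div_iff₀ h3]
  have h5 : Real.pi * β * |M| * ‖RR β s‖ ≤ ‖s‖ * ‖RR β s‖ := by gcongr
  have h6 : Real.pi * β * (|M| * ‖RR β s‖) ≤ Real.pi * β * 1 := by linarith
  exact le_of_mul_le_mul_left h6 h4

end

end Pool.Agent.J4.H68.AC
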