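import Pool.Agent.J4.H68.AC.C4

set_option autoImplicit false

/-!
The function `LL` (logarithm of the dominant), and `PH` (ratio of the second and first derivatives
of its exponential).
-/

namespace Pool.Agent.J4.H68.AC

open Complex MeasureTheory intervalIntegral Set Filter Topology Metric Bornology

/-- the function `L` -/
noncomputable def LL (β : ℝ) (s : ℂ) : ℂ :=
  (2 - 1 / β) * log (s + 1) - 2 * log 2 + 1 / β * log ((1 + s) * RR β s)

/-- the ratio of second and first derivative of `exp LL` -/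
noncomputable def PH (β : ℝ) (s : ℂ) : ℂ :=
  1 / (s + 1) + deriv (SS β) s / SS β s - (1 - 1 / β) * (deriv (RR β) s / RR β s)

section
variable {β : ℝ} (hβ : 1 < β)
include hβ

lemma dL_rel {s : ℂ} (hs : 0 ≤ s.re) : (s ^ 2 - 1) * dL β s = 2 * (QQ β s - 1) := by
  have h := rel2 hβ (by linarith : -1 < s.re)
  have h0 := RR_ne hβ hs
  have h1 := ne_neg_one hs
  unfold dL QQ
  field_simp
  linear_combination (s + 1) * h

lemma dL_diff {s : ℂ} (hs : 0 ≤ s.re) : DifferentiableAt ℂ (dL β) s := by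
  have h1 := (an_SS hβ (by linarith : -1 < s.re)).differentiableAt
  have h2 := (an_RR hβ (by linarith : -1 < s.re)).differentiableAt
  unfold dL
  refine DifferentiableAt.div (by fun_prop) (by fun_prop) ?_
  exact mul_ne_zero (ne_neg_one hs) (RR_ne hβ hs)

lemma re_dL_pos {s : ℂ} (hs : 0 ≤ s.re) : 0 < (dL β s).re := by
  refine PL_pos (g := dL β) (s := s) (fun z hz => dL_diff hβ hz)
    (bdd_of_tail (fun z hz => dL_diff hβ hz) (C := 2 * (1 + cc β)) (N := 2) ?_) ?_ hs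
  · intro z hz hz2
    have h1 := norm_SS_le hβ hz
    have h2 := norm_QQ_le hβ hz
    have h3 : 0 < ‖z + 1‖ := norm_pos_iff.2 (ne_neg_one hz)
    have h4 : dL β z = 2 * SS β z * QQ β z / (z + 1) := by
      unfold dL QQ
      have := ne_neg_one hz
      have := RR_ne hβ hz
      field_simp
    rw [h4, norm_div, norm_mul, norm_mul, div_le_iff₀ h3]
    have h5 : ‖SS β z‖ ≤ 1 + cc β := by
      have : ‖SS β z‖ ≤ (‖z‖ - 1) * ‖SS β z‖ := by
        have := norm_nonneg (SS β z)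
        nlinarith
      linarith
    have h6 : ‖(2:ℂ)‖ = 2 := by simp
    have hcp := cc_pos hβ
    rw [h6]
    rw [add_comm 1 z] at h2
    gcongr
  · intro t
    have h1 := dL_rel hβ (re_axis' t)
    have hb := base_pos t
    have hbc : (1 + (t:ℂ) ^ 2) ≠ 0 := by exact_mod_cast hb.ne'
    have hI2 : (I:ℂ) ^ 2 = -1 := I_sq
    have h2 : dL β (t * I) = ((2 / (1 + t ^ 2) : ℝ) : ℂ) * (1 - QQ β (t * I)) := by
      push_cast
      rw [div_mul_eq_mul_div, eq_div_iff hbc]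
      linear_combination -h1 + ((t:ℂ) ^ 2 * dL β (t * I)) * hI2
    rw [h2, re_ofReal_mul]
    refine mul_pos (by positivity) ?_
    rw [sub_re, one_re, QQ_axis_re hβ, sub_pos, div_lt_one (Dn_pos hβ t)]
    have h3 := ax3 hβ t
    have h4 : 0 < cc β * EE β t := mul_pos (cc_pos hβ) (EE_pos β t)
    linarith

lemma dL_ne {s : ℂ} (hs : 0 ≤ s.re) : dL β s ≠ 0 := by
  intro h
  have := re_dL_pos hβ hs
  rw [h, zero_re] at this
  exact lt_irrefl _ this

omit hβ in
lemma slit1 {s : ℂ} (hs : 0 ≤ s.re) : s + 1 ∈ slitPlane := by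
  left
  simp
  linarith

lemma slit2 {s : ℂ} (hs : 0 ≤ s.re) : (1 + s) * RR β s ∈ slitPlane := by
  left
  have := re_R_ge hβ hs
  linarith

lemma dL_eq {s : ℂ} (hs : 0 ≤ s.re) :
    dL β s = 2 / (s + 1) + 1 / β * (-(2 * β) * R1 β s / RR β s) := by
  have hβ0 : (β : ℂ) ≠ 0 := by exact_mod_cast (by linarith : (0:ℝ) < β).ne'
  have h0 := RR_ne hβ hs
  have h1 := ne_neg_one hs
  unfold dL SS
  field_simp
  ring

lemma an_LL {s : ℂ} (hs : 0 ≤ s.re) : AnalyticAt ℂ (LL β) s := by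
  unfold LL
  have h1 := an_RR hβ (by linarith : -1 < s.re)
  exact (((analyticAt_const).mul ((analyticAt_id.add analyticAt_const).clog (slit1 hs))).sub
    analyticAt_const).add ((analyticAt_const).mul
      (((analyticAt_const.add analyticAt_id).mul h1).clog (slit2 hβ hs)))

lemma hasDerivAt_LL {s : ℂ} (hs : 0 ≤ s.re) : HasDerivAt (LL β) (dL β s) s := by
  have hR := hasDerivAt_RR hβ (by linarith : -1 < s.re)
  have d1 : HasDerivAt (fun z : ℂ => z + 1) 1 s := by simpa using (hasDerivAt_id s).add_const 1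
  have d2 : HasDerivAt (fun z : ℂ => 1 + z) 1 s := by simpa using (hasDerivAt_id s).const_add 1
  have h := (((d1.clog (slit1 hs)).const_mul (2 - 1 / (β:ℂ))).sub_const (2 * log 2)).add
    (((d2.mul hR).clog (slit2 hβ hs)).const_mul (1 / (β:ℂ)))
  refine HasDerivAt.congr_deriv h ?_
  rw [dL_eq hβ hs]
  have h0 := RR_ne hβ hs
  have h1 := ne_neg_one hs
  have h2 : (1 + s) ≠ 0 := by rw [add_comm]; exact h1
  have hβ0 : (β : ℂ) ≠ 0 := by exact_mod_cast (by linarith : (0:ℝ) < β).ne'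
  simp only [Pi.mul_apply]
  rw [add_comm s 1]
  field_simp
  ring

lemma LL_one : LL β 1 = 0 := by
  unfold LL
  rw [RR_one hβ]
  norm_num
  ring

lemma injOn_LL : InjOn (LL β) {s : ℂ | 0 ≤ s.re} :=
  injOn_of_re_deriv_pos convex_rhp (fun _ hs => hasDerivAt_LL hβ hs) (fun _ hs => re_dL_pos hβ hs)

lemma LL_proper (M : ℝ) : ∃ N : ℝ, ∀ s : ℂ, 0 ≤ s.re → N ≤ ‖s‖ → M ≤ ‖LL β s‖ := by
  refine ⟨Real.exp (M + 2 * Real.log 2) + 1, fun s hs hN => ?_⟩
  refine le_trans ?_ (re_le_norm _)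
  have e1 : (LL β s).re = (2 - 1 / β) * Real.log ‖s + 1‖ - 2 * Real.log 2
      + 1 / β * Real.log ‖(1 + s) * RR β s‖ := by
    unfold LL
    have a1 : (2 - 1 / (β:ℂ)) = ((2 - 1 / β : ℝ) : ℂ) := by push_cast; ring
    have a2 : (1 / (β:ℂ)) = ((1 / β : ℝ) : ℂ) := by push_cast; ring
    have a3 : (2:ℂ) * log 2 = ((2 * Real.log 2 : ℝ) : ℂ) := by
      push_cast
      rw [← ofReal_ofNat, ofReal_log (by norm_num)]
    rw [a1, a2, a3, add_re, sub_re, re_ofReal_mul, re_ofReal_mul, ofReal_re, log_re, log_re]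
  rw [e1]
  have hb : 0 < 1 / β := by positivity
  have hb1 : 1 / β < 1 := by rw [div_lt_one (by linarith)]; exact hβ
  have h1 : 0 ≤ Real.log ‖(1 + s) * RR β s‖ :=
    Real.log_nonneg ((re_R_ge hβ hs).trans (re_le_norm _))
  have h2 : Real.exp (M + 2 * Real.log 2) ≤ ‖s + 1‖ := by
    have := norm_sub_norm_le s (-1)
    rw [norm_neg, norm_one, sub_neg_eq_add] at this
    linarith
  have h3 : M + 2 * Real.log 2 ≤ Real.log ‖s + 1‖ := by
    rw [Real.le_log_iff_exp_le (norm_pos_iff.2 (ne_neg_one hs))]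
    exact h2
  have h4 : 0 ≤ Real.log ‖s + 1‖ := by
    apply Real.log_nonneg
    have : (s + 1).re ≤ ‖s + 1‖ := re_le_norm _
    rw [add_re, one_re] at this
    linarith
  nlinarith [mul_nonneg hb.le h1, mul_nonneg (by linarith : 0 ≤ 1 - 1 / β) h4]

/-- starlikeness inequality on the axis -/
lemma star_axis (t : ℝ) : ((QQ β (t * I) - 1) / dQ β (t * I)).re < 0 := by
  have h1 := odeQ hβ (re_axis' t)
  have hb := base_pos t
  have hbc : (1 + (t:ℂ) ^ 2) ≠ 0 := by exact_mod_cast hb.ne'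
  have hI2 : (I:ℂ) ^ 2 = -1 := I_sq
  have h2 : dQ β (t * I) = ((2 * β / (1 + t ^ 2) : ℝ) : ℂ) * (QQ β (t * I) * (QQ β (t * I) - t * I)) := by
    push_cast
    rw [div_mul_eq_mul_div, eq_div_iff hbc]
    linear_combination -h1 + ((t:ℂ) ^ 2 * dQ β (t * I)) * hI2
  have hne := dQ_ne hβ (re_axis' t)
  have hG := G_pos hβ t
  have hD := Dn_pos hβ t
  have hE := EE_pos β t
  have hc := cc_pos hβ
  have key : ((QQ β (t * I) - 1) * (starRingEnd ℂ) (QQ β (t * I) * (QQ β (t * I) - t * I))).re < 0 := by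
    have e : (QQ β (t * I) * (QQ β (t * I) - t * I)).re
        = (QQ β (t * I)).re * (QQ β (t * I)).re - (QQ β (t * I)).im * ((QQ β (t * I)).im - t) := by
      simp [mul_re, sub_re, sub_im]
    have e' : (QQ β (t * I) * (QQ β (t * I) - t * I)).im
        = (QQ β (t * I)).re * ((QQ β (t * I)).im - t) + (QQ β (t * I)).im * (QQ β (t * I)).re := by
      simp [mul_im, sub_re, sub_im]
    rw [mul_re, conj_re, conj_im, e, e', sub_re, sub_im, one_re, one_im, QQ_axis_re hβ, QQ_axis_im hβ]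
    have e2 : (cc β * EE β t / (cc β ^ 2 + II β t ^ 2) - 1) *
          (cc β * EE β t / (cc β ^ 2 + II β t ^ 2) * (cc β * EE β t / (cc β ^ 2 + II β t ^ 2)) -
            EE β t * II β t / (cc β ^ 2 + II β t ^ 2) * (EE β t * II β t / (cc β ^ 2 + II β t ^ 2) - t)) -
        (EE β t * II β t / (cc β ^ 2 + II β t ^ 2) - 0) *
          -(cc β * EE β t / (cc β ^ 2 + II β t ^ 2) * (EE β t * II β t / (cc β ^ 2 + II β t ^ 2) - t) +
            EE β t * II β t / (cc β ^ 2 + II β t ^ 2) * (cc β * EE β t / (cc β ^ 2 + II β t ^ 2)))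
        = - (EE β t * (II β t ^ 2 * (t * II β t - EE β t) + cc β ^ 2 * (t * II β t + EE β t)
      - cc β * EE β t ^ 2) / (cc β ^ 2 + II β t ^ 2) ^ 2) := by
      field_simp
      ring
    rw [e2]
    have : 0 < EE β t * (II β t ^ 2 * (t * II β t - EE β t) + cc β ^ 2 * (t * II β t + EE β t)
      - cc β * EE β t ^ 2) / (cc β ^ 2 + II β t ^ 2) ^ 2 := by positivity
    linarith
  have hne2 : QQ β (t * I) * (QQ β (t * I) - t * I) ≠ 0 := by
    intro h
    rw [h2, h, mul_zero] at hne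
    exact hne rfl
  have h3 : (QQ β (t * I) - 1) / dQ β (t * I) = (((1 + t ^ 2) / (2 * β) : ℝ) : ℂ)
      * ((QQ β (t * I) - 1) / (QQ β (t * I) * (QQ β (t * I) - t * I))) := by
    have hβ0 : (β : ℂ) ≠ 0 := by exact_mod_cast (by linarith : (0:ℝ) < β).ne'
    rw [h2]
    push_cast
    field_simp
  rw [h3, re_ofReal_mul]
  refine mul_neg_of_pos_of_neg (by positivity) ?_
  rw [div_eq_mul_inv, inv_def, ← mul_assoc, re_mul_ofReal]
  exact mul_neg_of_neg_of_pos key (inv_pos.2 (normSq_pos.2 hne2))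

/-- exponential of `LL` -/
noncomputable def PS (β : ℝ) (s : ℂ) : ℂ := exp (LL β s)

/-- derivative of `PS` -/
noncomputable def P1 (β : ℝ) (s : ℂ) : ℂ := dL β s * exp (LL β s)

lemma hasDerivAt_PS {s : ℂ} (hs : 0 ≤ s.re) : HasDerivAt (PS β) (P1 β s) s := by
  have := (hasDerivAt_LL hβ hs).cexp
  refine HasDerivAt.congr_deriv this ?_
  unfold P1
  ring

lemma hasDerivAt_dL {s : ℂ} (hs : 0 ≤ s.re) : HasDerivAt (dL β)
    (dL β s * (deriv (SS β) s / SS β s - 1 / (s + 1) - deriv (RR β) s / RR β s)) s := by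
  have hS := (an_SS hβ (by linarith : -1 < s.re)).differentiableAt.hasDerivAt
  have hR := (an_RR hβ (by linarith : -1 < s.re)).differentiableAt.hasDerivAt
  have d1 : HasDerivAt (fun z : ℂ => z + 1) 1 s := by simpa using (hasDerivAt_id s).add_const 1
  have h0 := RR_ne hβ hs
  have h1 := ne_neg_one hs
  have h2 := SS_ne hβ hs
  have h := (hS.const_mul 2).div (d1.mul hR) (mul_ne_zero h1 h0)
  refine HasDerivAt.congr_deriv h ?_
  unfold dL
  simp only [Pi.mul_apply]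
  field_simp
  ring

lemma hasDerivAt_P1 {s : ℂ} (hs : 0 ≤ s.re) : HasDerivAt (P1 β) (PH β s * P1 β s) s := by
  have h := (hasDerivAt_dL hβ hs).mul (hasDerivAt_LL hβ hs).cexp
  refine HasDerivAt.congr_deriv h ?_
  have h1 : dL β s = 2 / (s + 1) + 1 / β * (deriv (RR β) s / RR β s) := by
    rw [dL_eq hβ hs, deriv_RR hβ (by linarith)]
  have h2 : PH β s = (deriv (SS β) s / SS β s - 1 / (s + 1) - deriv (RR β) s / RR β s) + dL β s := by
    rw [h1]
    unfold PH
    ring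
  rw [h2]
  unfold P1
  ring

lemma P1_ne {s : ℂ} (hs : 0 ≤ s.re) : P1 β s ≠ 0 := mul_ne_zero (dL_ne hβ hs) (exp_ne_zero _)

lemma PH_diff {s : ℂ} (hs : 0 ≤ s.re) : DifferentiableAt ℂ (PH β) s := by
  have hS := (an_SS hβ (by linarith : -1 < s.re))
  have hR := (an_RR hβ (by linarith : -1 < s.re))
  have hS' := hS.deriv.differentiableAt
  have hR' := hR.deriv.differentiableAt
  have hS0 := hS.differentiableAt
  have hR0 := hR.differentiableAt
  have h0 := RR_ne hβ hs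
  have h1 := ne_neg_one hs
  have h2 := SS_ne hβ hs
  unfold PH
  refine DifferentiableAt.sub (DifferentiableAt.add (DifferentiableAt.div (by fun_prop) (by fun_prop) h1)
    (hS'.div hS0 h2)) ((hR'.div hR0 h0).const_mul _)

lemma RRr {s : ℂ} (hs : 0 ≤ s.re) : (s ^ 2 - 1) * (deriv (RR β) s / RR β s) = 2 * β * (QQ β s - s) := by
  have h := odeR hβ (by linarith : -1 < s.re)
  have h0 := RR_ne hβ hs
  unfold QQ
  field_simp
  linear_combination h

lemma SSr {s : ℂ} (hs : 0 ≤ s.re) : (s ^ 2 - 1) * (deriv (SS β) s / SS β s)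
    = 2 * β * (SS β s)⁻¹ - ((2 * β + 1) * s + 1) := by
  have h := odeS hβ (by linarith : -1 < s.re)
  have h0 := SS_ne hβ hs
  field_simp
  linear_combination h

lemma PH_bdd : ∃ C : ℝ, ∀ s : ℂ, 0 ≤ s.re → ‖PH β s‖ ≤ C := by
  refine bdd_of_tail (fun z hz => PH_diff hβ hz) (C := 12 * β + 3) (N := 2) ?_
  intro s hs hs2
  have hβ0 : 0 < β := by linarith
  have h8 : ‖s‖ ≤ ‖s‖ ^ 2 - 1 := by nlinarith
  have h9 : 1 ≤ ‖s‖ ^ 2 - 1 := by nlinarith
  have h10 := norm_sq_sub_one_ge s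
  have hpos : 0 < ‖s ^ 2 - 1‖ := by linarith
  have nβ : ‖(β:ℂ)‖ = β := by rw [Complex.norm_real, Real.norm_of_nonneg hβ0.le]
  have n2 : ‖(2:ℂ)‖ = 2 := by simp
  have hQ := (norm_QQ_le hβ hs).trans (norm_one_add_le s)
  have hSi := (norm_inv_SS_le hβ hs).trans (norm_one_add_le s)
  have b1 : ‖1 / (s + 1)‖ ≤ 1 := by
    rw [norm_div, norm_one, div_le_one (norm_pos_iff.2 (ne_neg_one hs))]
    have := norm_sub_norm_le s (-1)
    rw [norm_neg, norm_one, sub_neg_eq_add] at this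
    linarith
  have b2 : ‖deriv (RR β) s / RR β s‖ ≤ 6 * β := by
    have h := congrArg norm (RRr hβ hs)
    rw [norm_mul, norm_mul, norm_mul, nβ, n2] at h
    have h3 : ‖QQ β s - s‖ ≤ 3 * (‖s‖ ^ 2 - 1) := by
      calc ‖QQ β s - s‖ ≤ ‖QQ β s‖ + ‖s‖ := norm_sub_le _ _
        _ ≤ _ := by linarith
    have h4 : ‖s ^ 2 - 1‖ * ‖deriv (RR β) s / RR β s‖ ≤ ‖s ^ 2 - 1‖ * (6 * β) := by
      rw [h]
      calc 2 * β * ‖QQ β s - s‖ ≤ 2 * β * (3 * (‖s‖ ^ 2 - 1)) := by gcongr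
        _ ≤ 2 * β * (3 * ‖s ^ 2 - 1‖) := by gcongr
        _ = _ := by ring
    exact le_of_mul_le_mul_left h4 hpos
  have b3 : ‖deriv (SS β) s / SS β s‖ ≤ 6 * β + 2 := by
    have h := congrArg norm (SSr hβ hs)
    rw [norm_mul] at h
    have h3 : ‖2 * (β:ℂ) * (SS β s)⁻¹ - ((2 * β + 1) * s + 1)‖ ≤ (6 * β + 2) * (‖s‖ ^ 2 - 1) := by
      have n3 : ‖(2 * (β:ℂ) + 1)‖ = 2 * β + 1 := by
        have : (2 * (β:ℂ) + 1) = ((2 * β + 1 : ℝ) : ℂ) := by push_cast; ring
        rw [this, Complex.norm_real, Real.norm_of_nonneg (by linarith)]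
      calc ‖2 * (β:ℂ) * (SS β s)⁻¹ - ((2 * β + 1) * s + 1)‖
          ≤ ‖2 * (β:ℂ) * (SS β s)⁻¹‖ + ‖((2 * (β:ℂ) + 1) * s + 1)‖ := norm_sub_le _ _
        _ ≤ 2 * β * (1 + ‖s‖) + ((2 * β + 1) * ‖s‖ + 1) := by
          refine add_le_add ?_ ?_
          · rw [norm_mul, norm_mul, nβ, n2]
            gcongr
          · calc ‖((2 * (β:ℂ) + 1) * s + 1)‖ ≤ ‖(2 * (β:ℂ) + 1) * s‖ + ‖(1:ℂ)‖ := norm_add_le _ _
              _ = _ := by rw [norm_mul, n3, norm_one]
        _ = (4 * β + 1) * ‖s‖ + (2 * β + 1) * 1 := by ring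
        _ ≤ (4 * β + 1) * (‖s‖ ^ 2 - 1) + (2 * β + 1) * (‖s‖ ^ 2 - 1) := by gcongr
        _ = _ := by ring
    have h4 : ‖s ^ 2 - 1‖ * ‖deriv (SS β) s / SS β s‖ ≤ ‖s ^ 2 - 1‖ * (6 * β + 2) := by
      rw [h]
      refine h3.trans ?_
      rw [mul_comm]
      gcongr
    exact le_of_mul_le_mul_left h4 hpos
  have n4 : ‖(1 - 1 / (β:ℂ))‖ ≤ 1 := by
    have : (1 - 1 / (β:ℂ)) = ((1 - 1 / β : ℝ) : ℂ) := by push_cast; ring
    have hb1 : 1 / β < 1 := by rw [div_lt_one (by linarith)]; exact hβ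
    have hb0 : 0 < 1 / β := by positivity
    rw [this, Complex.norm_real, Real.norm_of_nonneg (by linarith)]
    linarith
  unfold PH
  calc ‖1 / (s + 1) + deriv (SS β) s / SS β s - (1 - 1 / (β:ℂ)) * (deriv (RR β) s / RR β s)‖
      ≤ ‖1 / (s + 1) + deriv (SS β) s / SS β s‖ + ‖(1 - 1 / (β:ℂ)) * (deriv (RR β) s / RR β s)‖ :=
        norm_sub_le _ _
    _ ≤ (1 + (6 * β + 2)) + 1 * (6 * β) := by
      refine add_le_add ((norm_add_le _ _).trans (add_le_add b1 b3)) ?_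
      rw [norm_mul]
      gcongr
    _ = _ := by ring

lemma inv_SS_axis_re (t : ℝ) : ((SS β (t * I))⁻¹).re
    = EE β t * (cc β - EE β t + t * II β t) / ((EE β t - cc β) ^ 2 + II β t ^ 2) := by
  have h2 := rel2 hβ (s := t * I) (by rw [re_axis]; norm_num)
  have hne : ((t:ℂ) * I - 1) ≠ 0 := by
    intro h
    have := congrArg re h
    simp at this
  have hS := SS_ne hβ (re_axis' t)
  have hD := Dd_pos hβ t
  have hDc : (((EE β t - cc β) ^ 2 + II β t ^ 2 : ℝ) : ℂ) ≠ 0 := by exact_mod_cast hD.ne'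
  have hE : (EE β t : ℂ) ≠ 0 := by exact_mod_cast (EE_pos β t).ne'
  have hI2 : (I:ℂ) ^ 2 = -1 := I_sq
  have h3 : (SS β (t * I))⁻¹ = ((EE β t * (cc β - EE β t + t * II β t) : ℝ)
      + (EE β t * (t * (EE β t - cc β) + II β t) : ℝ) * I) / (((EE β t - cc β) ^ 2 + II β t ^ 2 : ℝ) : ℂ) := by
    rw [inv_eq_iff_eq_inv, inv_div]
    have hne2 : (((EE β t * (cc β - EE β t + t * II β t) : ℝ) : ℂ)
      + (EE β t * (t * (EE β t - cc β) + II β t) : ℝ) * I) ≠ 0 := by
      intro h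
      have h5 : ((t:ℂ) * I - 1) * (EE β t - cc β - II β t * I) * EE β t = 0 := by
        rw [← h]
        push_cast
        linear_combination (-(t:ℂ) * II β t * EE β t) * hI2
      have h6 : ((EE β t : ℂ) - cc β - II β t * I) ≠ 0 := by
        intro h7
        have r1 := congrArg re h7
        have r2 := congrArg im h7
        simp at r1 r2
        rw [r1, r2] at hD
        simp at hD
      exact (mul_ne_zero (mul_ne_zero hne h6) hE) h5
    rw [eq_div_iff hne2]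
    rw [RR_axis_eq hβ] at h2
    have h4 : SS β (t * I) = (1 - (cc β - II β t * I) / EE β t) / (t * I - 1) := by
      rw [eq_div_iff hne, ← h2]; ring
    rw [h4]
    have hne' : (I * (t:ℂ) - 1) ≠ 0 := by rw [mul_comm]; exact hne
    push_cast
    field_simp
    linear_combination ((II β t : ℂ) * (t * (EE β t - cc β) + II β t)) * hI2
  rw [h3, div_ofReal_re]
  simp

/-- `Re PH > 0` on the axis -/
lemma PH_axis (t : ℝ) : 0 < (PH β (t * I)).re := by
  have hb := base_pos t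
  have hI2 : (I:ℂ) ^ 2 = -1 := I_sq
  have hbc : (1 + (t:ℂ) ^ 2) ≠ 0 := by exact_mod_cast hb.ne'
  have hβ0 : (β : ℂ) ≠ 0 := by exact_mod_cast (by linarith : (0:ℝ) < β).ne'
  have h0 := ne_neg_one (re_axis' t)
  have hR := RRr hβ (re_axis' t)
  have hS := SSr hβ (re_axis' t)
  have e0 : 1 / ((t:ℂ) * I + 1) = (1 - t * I) / (1 + t ^ 2) := by
    rw [div_eq_div_iff h0 hbc]
    linear_combination (t:ℂ) ^ 2 * hI2
  have e1 : deriv (RR β) (t * I) / RR β (t * I) = 2 * β * (t * I - QQ β (t * I)) / (1 + t ^ 2) := by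
    rw [eq_div_iff hbc]
    linear_combination -hR + ((t:ℂ) ^ 2 * (deriv (RR β) (t * I) / RR β (t * I))) * hI2
  have e2 : deriv (SS β) (t * I) / SS β (t * I)
      = (((2 * β + 1) * (t * I) + 1) - 2 * β * (SS β (t * I))⁻¹) / (1 + t ^ 2) := by
    rw [eq_div_iff hbc]
    linear_combination -hS + ((t:ℂ) ^ 2 * (deriv (SS β) (t * I) / SS β (t * I))) * hI2
  have e3 : PH β (t * I) = ((2 / (1 + t ^ 2) : ℝ) : ℂ) * (1 - (β:ℝ) * (SS β (t * I))⁻¹
      + ((β - 1 : ℝ) : ℂ) * QQ β (t * I) + (t : ℂ) * I) := by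
    unfold PH
    rw [e0, e1, e2]
    push_cast
    field_simp
    ring
  rw [e3, re_ofReal_mul]
  refine mul_pos (by positivity) ?_
  rw [add_re, add_re, sub_re, re_ofReal_mul, re_ofReal_mul, one_re, re_axis, inv_SS_axis_re hβ,
    QQ_axis_re hβ]
  have hH := H_pos hβ t
  have hD := Dd_pos hβ t
  have hD' := Dn_pos hβ t
  have e4 : 1 - β * (EE β t * (cc β - EE β t + t * II β t) / ((EE β t - cc β) ^ 2 + II β t ^ 2))
      + (β - 1) * (cc β * EE β t / (cc β ^ 2 + II β t ^ 2)) + 0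
      = ((β - 1) * cc β * EE β t * ((EE β t - cc β) ^ 2 + II β t ^ 2)
      - (β * EE β t * (cc β - EE β t + t * II β t) - ((EE β t - cc β) ^ 2 + II β t ^ 2))
        * (cc β ^ 2 + II β t ^ 2)) / (((EE β t - cc β) ^ 2 + II β t ^ 2) * (cc β ^ 2 + II β t ^ 2)) := by
    field_simp
    ring
  rw [e4]
  positivity

end

end Pool.Agent.J4.H68.AC
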