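import Pool.Agent.J4.H68.AC.C5
import Pool.Agent.J4.H68.AC.C6
import Pool.Agent.Helper202.Univ

set_option autoImplicit false

/-!
Every alpha-convex function is `z * PS β (q z)` with `q` in the Caratheodory class.
-/

namespace Pool.Agent.J4.H68.AC

open Complex MeasureTheory intervalIntegral Set Filter Topology Metric Bornology

lemma axis_sq (t : ℝ) : ((t:ℂ) * I) ^ 2 - 1 = -((1 + t ^ 2 : ℝ) : ℂ) := by
  rw [mul_pow, I_sq]
  push_cast
  ring

section
variable {β : ℝ} (hβ : 1 < β)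
include hβ

lemma goodQ : Good (QQ β) (dQ β) where
  an := fun _ hs => an_QQ hβ hs
  der := fun _ hs => hasDerivAt_QQ hβ hs
  ne := fun _ hs => dQ_ne hβ hs
  inj := injOn_QQ hβ
  prop := QQ_proper hβ

lemma goodL : Good (LL β) (dL β) where
  an := fun _ hs => an_LL hβ hs
  der := fun _ hs => hasDerivAt_LL hβ hs
  ne := fun _ hs => dL_ne hβ hs
  inj := injOn_LL hβ
  prop := LL_proper hβ

theorem exists_q {f : ℂ → ℂ} (hf : DifferentiableOn ℂ f (ball 0 1)) (hinj : InjOn f (ball 0 1))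
    (h0 : f 0 = 0) (h1 : deriv f 0 = 1)
    (hre : ∀ z ∈ ball (0:ℂ) 1, z ≠ 0 → 0 < ((1 / β : ℂ) * (1 + z * deriv (deriv f) z / deriv f z)
      + (1 - 1 / β) * (z * deriv f z / f z)).re) :
    ∃ q : ℂ → ℂ, DifferentiableOn ℂ q (ball 0 1) ∧ q 0 = 1 ∧ (∀ z ∈ ball (0:ℂ) 1, 0 < (q z).re) ∧
      ∀ z ∈ ball (0:ℂ) 1, f z = z * PS β (q z) := by
  have hβ0 : (β : ℂ) ≠ 0 := by exact_mod_cast (by linarith : (0:ℝ) < β).ne'
  have hb0 : (0:ℂ) ∈ ball (0:ℂ) 1 := mem_ball_self one_pos
  have hnhds : ∀ z ∈ ball (0:ℂ) 1, ball (0:ℂ) 1 ∈ 𝓝 z := fun z hz => isOpen_ball.mem_nhds hz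
  set F : ℂ → ℂ := dslope f 0 with hF
  have hFd : DifferentiableOn ℂ F (ball 0 1) :=
    (Complex.differentiableOn_dslope (isOpen_ball.mem_nhds hb0)).2 hf
  have hFz : ∀ z, z * F z = f z := by
    intro z
    have := sub_smul_dslope f 0 z
    rw [h0, sub_zero, sub_zero, smul_eq_mul] at this
    exact this
  have hF0 : F 0 = 1 := by rw [hF, dslope_same, h1]
  have hfne : ∀ z ∈ ball (0:ℂ) 1, z ≠ 0 → f z ≠ 0 := by
    intro z hz hzne hc
    exact hzne (hinj hz hb0 (by rw [hc, h0]))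
  have hFne : ∀ z ∈ ball (0:ℂ) 1, F z ≠ 0 := by
    intro z hz hc
    rcases eq_or_ne z 0 with h | h
    · rw [h, hF0] at hc
      exact one_ne_zero hc
    · apply hfne z hz h
      rw [← hFz, hc, mul_zero]
  have hf'ne : ∀ z ∈ ball (0:ℂ) 1, deriv f z ≠ 0 := fun z hz =>
    Pool.Agent.Helper202.Univ.deriv_ne_zero isOpen_ball hf hinj hz
  have hf'd : DifferentiableOn ℂ (deriv f) (ball 0 1) := hf.deriv isOpen_ball
  set P : ℂ → ℂ := fun z => deriv f z / F z with hP
  have hPd : DifferentiableOn ℂ P (ball 0 1) := hf'd.div hFd hFne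
  have hPne : ∀ z ∈ ball (0:ℂ) 1, P z ≠ 0 := fun z hz => div_ne_zero (hf'ne z hz) (hFne z hz)
  have hP0 : P 0 = 1 := by simp only [hP, hF0, h1, div_one]
  have hFat : ∀ z ∈ ball (0:ℂ) 1, HasDerivAt F (deriv F z) z := fun z hz =>
    (hFd.differentiableAt (hnhds z hz)).hasDerivAt
  have hPat : ∀ z ∈ ball (0:ℂ) 1, HasDerivAt P (deriv P z) z := fun z hz =>
    (hPd.differentiableAt (hnhds z hz)).hasDerivAt
  -- f' = F + z F'
  have hf' : ∀ z ∈ ball (0:ℂ) 1, deriv f z = F z + z * deriv F z := by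
    intro z hz
    have h2 : f = fun z => z * F z := by funext z; exact (hFz z).symm
    have h3 := (hasDerivAt_id z).mul (hFat z hz)
    have h4 : HasDerivAt f (1 * F z + id z * deriv F z) z := by
      rw [h2]
      exact h3
    rw [h4.deriv]
    simp
  have hPF : ∀ z ∈ ball (0:ℂ) 1, P z = 1 + z * deriv F z / F z := by
    intro z hz
    have := hFne z hz
    simp only [hP, hf' z hz]
    field_simp
  -- f'' = P' F + P F'
  have hf'' : ∀ z ∈ ball (0:ℂ) 1, deriv (deriv f) z = deriv P z * F z + P z * deriv F z := by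
    intro z hz
    have h2 : deriv f =ᶠ[𝓝 z] fun z => P z * F z := by
      filter_upwards [hnhds z hz] with w hw
      have := hFne w hw
      simp only [hP]
      field_simp
    rw [h2.deriv_eq]
    exact ((hPat z hz).mul (hFat z hz)).deriv
  have hf'P : ∀ z ∈ ball (0:ℂ) 1, deriv f z = P z * F z := by
    intro z hz
    have := hFne z hz
    simp only [hP]
    field_simp
  clear_value P
  have hp : ∀ z ∈ ball (0:ℂ) 1, z ≠ 0 → 0 < (P z + 1 / β * (z * deriv P z / P z)).re := by
    intro z hz hzne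
    have h2 := hre z hz hzne
    have h3 := hFne z hz
    have h4 := hPne z hz
    have h5 := hf'P z hz
    have h6 : (1 / β : ℂ) * (1 + z * deriv (deriv f) z / deriv f z)
      + (1 - 1 / β) * (z * deriv f z / f z) = P z + 1 / β * (z * deriv P z / P z) := by
      rw [hf'' z hz, h5, ← hFz z]
      have h7 := hPF z hz
      have h8 : z * deriv F z = (P z - 1) * F z := by
        rw [h7]
        field_simp
        ring
      field_simp
      linear_combination (P z) * h8
    rwa [h6] at h2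
  -- P is subordinate to QQ
  have hPsub : ∀ z ∈ ball (0:ℂ) 1, P z ∈ QQ β '' {s : ℂ | 0 < s.re} := by
    refine (goodQ hβ).sub hPd (by rw [hP0, QQ_one hβ]) ?_
    intro z0 hz0 t0 m hm hPz hder
    have hz0ne : z0 ≠ 0 := by
      intro hc
      rw [hc, hP0, ← QQ_one hβ] at hPz
      have := injOn_QQ hβ (show (1:ℂ) ∈ {s : ℂ | 0 ≤ s.re} by simp)
        (show (t0:ℂ) * I ∈ {s : ℂ | 0 ≤ s.re} by simp) hPz
      have h2 := congrArg re this
      simp at h2
    have h2 := hp z0 hz0 hz0ne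
    have hQne : QQ β (t0 * I) ≠ 0 := by rw [← hPz]; exact hPne z0 hz0
    have hode := odeQ hβ (re_axis' t0)
    rw [axis_sq] at hode
    have h3 : P z0 + 1 / β * (z0 * deriv P z0 / P z0)
        = ((1 - m : ℝ) : ℂ) * QQ β (t0 * I) + (m * t0 : ℝ) * I := by
      rw [hder, hPz]
      push_cast at hode ⊢
      field_simp
      linear_combination (m:ℂ) * hode
    rw [h3] at h2
    simp only [add_re, re_ofReal_mul, I_re, mul_zero, add_zero] at h2
    have h4 := re_QQ_pos hβ (re_axis' t0)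
    nlinarith
  -- the logarithm
  obtain ⟨LF, hLF0, hLF⟩ : ∃ LF : ℂ → ℂ, LF 0 = 0 ∧ ∀ z ∈ ball (0:ℂ) 1,
      HasDerivAt LF (deriv F z / F z) z := by
    have h2 : DifferentiableOn ℂ (fun z => deriv F z / F z) (ball 0 1) :=
      (hFd.deriv isOpen_ball).div hFd hFne
    obtain ⟨g, hg⟩ := h2.isExactOn_ball
    refine ⟨fun z => g z - g 0, by simp, fun z hz => ?_⟩
    exact (hg z hz).sub_const _
  have hexp : ∀ z ∈ ball (0:ℂ) 1, F z = exp (LF z) := by
    have hd : ∀ z ∈ ball (0:ℂ) 1, HasDerivAt (fun z => F z * exp (-LF z)) 0 z := by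
      intro z hz
      have h2 := (hFat z hz).mul (hLF z hz).neg.cexp
      refine HasDerivAt.congr_deriv h2 ?_
      have := hFne z hz
      field_simp
      ring
    intro z hz
    have hconst := (convex_ball (0:ℂ) 1).is_const_of_fderivWithin_eq_zero (𝕜 := ℂ)
      (f := fun z => F z * exp (-LF z))
      (fun w hw => (hd w hw).differentiableAt.differentiableWithinAt) (fun w hw => by
        rw [fderivWithin_of_isOpen isOpen_ball hw]
        ext
        simp [(hd w hw).deriv]) hz hb0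
    simp only [hF0, hLF0, neg_zero, exp_zero, mul_one] at hconst
    calc F z = (F z * exp (-LF z)) * exp (LF z) := by
          rw [mul_assoc, ← exp_add]; simp
      _ = exp (LF z) := by rw [hconst, one_mul]
  have hLFd : DifferentiableOn ℂ LF (ball 0 1) := fun z hz =>
    (hLF z hz).differentiableAt.differentiableWithinAt
  have hLsub : ∀ z ∈ ball (0:ℂ) 1, LF z ∈ LL β '' {s : ℂ | 0 < s.re} := by
    refine (goodL hβ).sub hLFd (by rw [hLF0, LL_one hβ]) ?_
    intro z0 hz0 t0 m hm _ hder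
    rw [(hLF z0 hz0).deriv] at hder
    obtain ⟨s1, hs1, hs1P⟩ := hPsub z0 hz0
    have hrel := dL_rel hβ (re_axis' t0)
    rw [axis_sq] at hrel
    refine (goodQ hβ).star_excl (m := m) (t0 := t0) (s1 := s1) ?_ hm hs1 ?_
    · intro t
      rw [QQ_one hβ]
      exact star_axis hβ t
    · rw [hs1P, QQ_one hβ, hPF z0 hz0]
      push_cast at hder hrel
      rw [mul_div_assoc, hder]
      linear_combination (m / 2 : ℂ) * hrel
  refine ⟨fun z => sig (LL β) (LF z), ?_, ?_, ?_, ?_⟩
  · intro z hz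
    exact (((goodL hβ).sig_hasDerivAt (hLsub z hz)).comp z (hLF z hz)).differentiableAt.differentiableWithinAt
  · simp only [hLF0]
    rw [← LL_one hβ]
    exact (goodL hβ).sig_left (by simp)
  · intro z hz
    exact ((goodL hβ).sig_spec (hLsub z hz)).1
  · intro z hz
    rw [← hFz z, hexp z hz]
    unfold PS
    rw [((goodL hβ).sig_spec (hLsub z hz)).2]

end

end Pool.Agent.J4.H68.AC
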