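import Pool.Agent.J4.H68.AC.C7
import Pool.Agent.J4.H68.AC.B7

set_option autoImplicit false

/-!
The extremal function.
-/

namespace Pool.Agent.J4.H68.AC

open Complex MeasureTheory Set Filter Topology Metric

lemma one_sub_ne' {z : ℂ} (hz : ‖z‖ < 1) : 1 - z ≠ 0 := by
  have := one_sub_ne (x := 1) (z := z) (by simp) hz
  simpa using this

lemma pp_one_re {z : ℂ} (hz : ‖z‖ < 1) : 0 < (pp 1 z).re := by
  have h := one_sub_ne (x := 1) (z := z) (by simp) hz
  rw [re_pp h]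
  refine div_pos ?_ (by have := norm_pos_iff.2 h; positivity)
  rw [one_mul]
  nlinarith [norm_nonneg z]

lemma hasDerivAt_pp {z : ℂ} (hz : ‖z‖ < 1) : HasDerivAt (pp 1) (2 / (1 - z) ^ 2) z := by
  have h := one_sub_ne' hz
  have h1 : HasDerivAt (fun z : ℂ => 1 + 1 * z) 1 z := by
    simpa using ((hasDerivAt_id z).const_mul (1:ℂ)).const_add 1
  have h2 : HasDerivAt (fun z : ℂ => 1 - 1 * z) (-1) z := by
    simpa using ((hasDerivAt_id z).const_mul (1:ℂ)).const_sub 1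
  have h3 := h1.div h2 (by simpa using h)
  refine HasDerivAt.congr_deriv h3 ?_
  simp only [one_mul]
  field_simp
  ring

lemma z_pp {z : ℂ} (hz : ‖z‖ < 1) : z * (2 / (1 - z) ^ 2) = ((pp 1 z) ^ 2 - 1) / 2 := by
  have h := one_sub_ne' hz
  unfold pp
  simp only [one_mul]
  field_simp
  ring

section
variable {β : ℝ} (hβ : 1 < β)
include hβ

/-- logarithm of the extremal function over `z` -/
noncomputable def LK (β : ℝ) (z : ℂ) : ℂ := LL β (pp 1 z)

lemma hasDerivAt_LK {z : ℂ} (hz : ‖z‖ < 1) :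
    HasDerivAt (LK β) (dL β (pp 1 z) * (2 / (1 - z) ^ 2)) z := by
  exact (hasDerivAt_LL hβ (pp_one_re hz).le).comp z (hasDerivAt_pp hz)

lemma z_LK {z : ℂ} (hz : ‖z‖ < 1) :
    z * (dL β (pp 1 z) * (2 / (1 - z) ^ 2)) = QQ β (pp 1 z) - 1 := by
  have h1 := z_pp hz
  have h2 := dL_rel hβ (pp_one_re hz).le
  calc z * (dL β (pp 1 z) * (2 / (1 - z) ^ 2)) = dL β (pp 1 z) * (z * (2 / (1 - z) ^ 2)) := by ring
    _ = _ := by rw [h1]; linear_combination h2 / 2

lemma z_QQ {z : ℂ} (hz : ‖z‖ < 1) :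
    z * (dQ β (pp 1 z) * (2 / (1 - z) ^ 2)) = β * QQ β (pp 1 z) * (pp 1 z - QQ β (pp 1 z)) := by
  have h1 := z_pp hz
  have h2 := odeQ hβ (pp_one_re hz).le
  calc z * (dQ β (pp 1 z) * (2 / (1 - z) ^ 2)) = dQ β (pp 1 z) * (z * (2 / (1 - z) ^ 2)) := by ring
    _ = _ := by rw [h1]; linear_combination h2 / 2

/-- the extremal function -/
noncomputable def kk (β : ℝ) (z : ℂ) : ℂ := z * PS β (pp 1 z)

lemma hasDerivAt_PSpp {z : ℂ} (hz : ‖z‖ < 1) :
    HasDerivAt (fun z => PS β (pp 1 z)) (PS β (pp 1 z) * (dL β (pp 1 z) * (2 / (1 - z) ^ 2))) z :=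
  (hasDerivAt_LK hβ hz).cexp

lemma QQ_ne {s : ℂ} (hs : 0 ≤ s.re) : QQ β s ≠ 0 := by
  intro h
  have := re_QQ_pos hβ hs
  rw [h, zero_re] at this
  exact lt_irrefl _ this

lemma hasDerivAt_kk {z : ℂ} (hz : ‖z‖ < 1) :
    HasDerivAt (kk β) (PS β (pp 1 z) * QQ β (pp 1 z)) z := by
  have h := (hasDerivAt_id z).mul (hasDerivAt_PSpp hβ hz)
  refine HasDerivAt.congr_deriv h ?_
  have h1 := z_LK hβ hz
  simp only [id]
  linear_combination (PS β (pp 1 z)) * h1

lemma hasDerivAt_deriv_kk {z : ℂ} (hz : ‖z‖ < 1) :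
    HasDerivAt (deriv (kk β)) (PS β (pp 1 z) * (dL β (pp 1 z) * (2 / (1 - z) ^ 2)) * QQ β (pp 1 z)
      + PS β (pp 1 z) * (dQ β (pp 1 z) * (2 / (1 - z) ^ 2))) z := by
  have h1 : deriv (kk β) =ᶠ[𝓝 z] fun z => PS β (pp 1 z) * QQ β (pp 1 z) := by
    filter_upwards [isOpen_ball.mem_nhds (mem_ball_zero_iff.2 hz)] with w hw
    exact (hasDerivAt_kk hβ (mem_ball_zero_iff.1 hw)).deriv
  have h2 : HasDerivAt (fun z => QQ β (pp 1 z)) (dQ β (pp 1 z) * (2 / (1 - z) ^ 2)) z :=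
    (hasDerivAt_QQ hβ (pp_one_re hz).le).comp z (hasDerivAt_pp hz)
  exact ((hasDerivAt_PSpp hβ hz).mul h2).congr_of_eventuallyEq h1

omit hβ in
lemma PS_ne (s : ℂ) : PS β s ≠ 0 := exp_ne_zero _

lemma kk_cond {z : ℂ} (hz : ‖z‖ < 1) (hz0 : z ≠ 0) :
    (1 / β : ℂ) * (1 + z * deriv (deriv (kk β)) z / deriv (kk β) z)
      + (1 - 1 / β) * (z * deriv (kk β) z / kk β z) = pp 1 z := by
  rw [(hasDerivAt_deriv_kk hβ hz).deriv, (hasDerivAt_kk hβ hz).deriv]
  have hQ := QQ_ne hβ (pp_one_re hz).le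
  have hP := PS_ne (β := β) (pp 1 z)
  have hβ0 : (β : ℂ) ≠ 0 := by exact_mod_cast (by linarith : (0:ℝ) < β).ne'
  have h1 := z_LK hβ hz
  have h2 := z_QQ hβ hz
  have e1 : z * (PS β (pp 1 z) * (dL β (pp 1 z) * (2 / (1 - z) ^ 2)) * QQ β (pp 1 z)
      + PS β (pp 1 z) * (dQ β (pp 1 z) * (2 / (1 - z) ^ 2))) / (PS β (pp 1 z) * QQ β (pp 1 z))
      = (QQ β (pp 1 z) - 1) + β * (pp 1 z - QQ β (pp 1 z)) := by
    rw [div_eq_iff (mul_ne_zero hP hQ)]
    linear_combination (PS β (pp 1 z) * QQ β (pp 1 z)) * h1 + (PS β (pp 1 z)) * h2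
  have e2 : z * (PS β (pp 1 z) * QQ β (pp 1 z)) / kk β z = QQ β (pp 1 z) := by
    unfold kk
    field_simp
  rw [e1, e2]
  field_simp
  ring

lemma PS_one : PS β 1 = 1 := by
  unfold PS
  rw [LL_one hβ, exp_zero]

lemma kk_deriv_zero : deriv (kk β) 0 = 1 := by
  rw [(hasDerivAt_kk hβ (by simp)).deriv, pp_zero, PS_one hβ, QQ_one hβ, one_mul]

lemma kk_injOn : InjOn (kk β) (ball 0 1) := by
  -- the function in the logarithmic coordinate
  set g : ℂ → ℂ := fun ζ => ζ + LK β (exp ζ) with hg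
  have hnorm : ∀ ζ : ℂ, ζ.re < 0 → ‖exp ζ‖ < 1 := by
    intro ζ hζ
    rw [norm_exp]
    calc Real.exp ζ.re < Real.exp 0 := Real.exp_lt_exp.2 hζ
      _ = 1 := Real.exp_zero
  have hgd : ∀ ζ ∈ {ζ : ℂ | ζ.re < 0}, HasDerivAt g (QQ β (pp 1 (exp ζ))) ζ := by
    intro ζ hζ
    have hζ' := hnorm ζ hζ
    have h1 := (hasDerivAt_id ζ).add ((hasDerivAt_LK hβ hζ').comp ζ (hasDerivAt_exp ζ))
    refine HasDerivAt.congr_deriv h1 ?_
    have h2 := z_LK hβ hζ'
    linear_combination h2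
  have hginj : InjOn g {ζ : ℂ | ζ.re < 0} :=
    injOn_of_re_deriv_pos (convex_halfSpace_re_lt 0) hgd
      (fun ζ hζ => re_QQ_pos hβ (pp_one_re (hnorm ζ hζ)).le)
  have hgexp : ∀ ζ : ℂ, exp (g ζ) = kk β (exp ζ) := by
    intro ζ
    simp only [hg, exp_add]
    rfl
  intro a ha b hb hab
  rw [mem_ball_zero_iff] at ha hb
  rcases eq_or_ne a 0 with h0 | h0
  · rw [h0] at hab ⊢
    have h1 : kk β 0 = 0 := by simp [kk]
    rw [h1] at hab
    rcases mul_eq_zero.1 hab.symm with h2 | h2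
    · exact h2.symm
    · exact absurd h2 (PS_ne _)
  · rcases eq_or_ne b 0 with h0' | h0'
    · rw [h0'] at hab ⊢
      have h1 : kk β 0 = 0 := by simp [kk]
      rw [h1] at hab
      rcases mul_eq_zero.1 hab with h2 | h2
      · exact h2
      · exact absurd h2 (PS_ne _)
    · have ha2 : exp (log a) = a := exp_log h0
      have hb2 : exp (log b) = b := exp_log h0'
      have hre : ∀ c : ℂ, c ≠ 0 → ‖c‖ < 1 → (log c).re < 0 := by
        intro c hc hc1
        rw [log_re]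
        exact Real.log_neg (norm_pos_iff.2 hc) hc1
      have h3 : exp (g (log a)) = exp (g (log b)) := by
        rw [hgexp, hgexp, ha2, hb2, hab]
      obtain ⟨m, hm⟩ := exp_eq_exp_iff_exists_int.1 h3
      have h4 : g (log b + m * (2 * Real.pi * I)) = g (log b) + m * (2 * Real.pi * I) := by
        simp only [hg]
        have : exp (log b + m * (2 * Real.pi * I)) = exp (log b) := by
          rw [exp_add, exp_int_mul_two_pi_mul_I, mul_one]
        rw [this]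
        ring
      rw [← h4] at hm
      have h5 : (log b + m * (2 * Real.pi * I)).re < 0 := by
        rw [add_re]
        have : ((m:ℂ) * (2 * Real.pi * I)).re = 0 := by
          simp [mul_re]
        rw [this, add_zero]
        exact hre b h0' hb
      have h6 := hginj (show log a ∈ {ζ : ℂ | ζ.re < 0} from hre a h0 ha)
        (show log b + m * (2 * Real.pi * I) ∈ {ζ : ℂ | ζ.re < 0} from h5) hm
      rw [← ha2, ← hb2, h6, exp_add, exp_int_mul_two_pi_mul_I, mul_one]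

end

end Pool.Agent.J4.H68.AC
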