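import Pool.Agent.J4.H68.AC.E1

set_option autoImplicit false

/-!
Coefficients of the extremal function.
-/

namespace Pool.Agent.J4.H68.AC

open Complex MeasureTheory Set Filter Topology Metric

lemma tc_zderiv {g : ℂ → ℂ} (hg : AnalyticAt ℂ g 0) (n : ℕ) :
    tc n (fun z => z * deriv g z) = n * tc n g := by
  rcases n with _ | n
  · simp [tc_zero]
  · rw [tc_z_mul hg.deriv, ← tc_succ]
    push_cast
    ring

/-- Caratheodory bound -/
lemma caratheodory {G : ℂ → ℂ} (hG : DifferentiableOn ℂ G (ball 0 1))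
    (hre : ∀ z ∈ ball (0:ℂ) 1, 0 ≤ (G z).re) (h0 : G 0 = 1) {k : ℕ} (hk : 1 ≤ k) : ‖tc k G‖ ≤ 2 := by
  have hr : ∀ r : ℝ, 0 < r → r < 1 → r ^ k * ‖tc k G‖ ≤ 2 := by
    intro r hr0 hr1
    have hc := continuous_G_pt hG hr0 hr1
    have h1 := cf hG hr0 hr1 hk
    have h2 := congrArg norm h1
    rw [norm_mul, norm_pow, Complex.norm_real, Real.norm_of_nonneg hr0.le, norm_mul] at h2
    rw [h2]
    have h3 : ‖∫ θ in (0:ℝ)..2 * Real.pi, (((G (pt r θ)).re : ℝ) : ℂ) * (2 * exp (-(k * θ * I)))‖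
        ≤ ∫ θ in (0:ℝ)..2 * Real.pi, (G (pt r θ)).re * 2 := by
      refine intervalIntegral.norm_integral_le_of_norm_le (by positivity) ?_
        (((continuous_re.comp hc).mul continuous_const).intervalIntegrable _ _)
      refine Eventually.of_forall fun θ _ => ?_
      have h4 : 0 ≤ (G (pt r θ)).re := hre _ (by rw [mem_ball_zero_iff, norm_pt hr0.le]; exact hr1)
      rw [norm_mul, Complex.norm_real, Real.norm_of_nonneg h4, norm_mul]
      have h5 : ‖exp (-((k:ℂ) * θ * I))‖ = 1 := by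
        rw [show -((k:ℂ) * θ * I) = ((-(k * θ) : ℝ) : ℂ) * I by push_cast; ring]
        exact norm_exp_ofReal_mul_I _
      rw [h5]
      simp
    rw [intervalIntegral.integral_mul_const, cf0 hG hr0 hr1, h0, one_re] at h3
    have h6 : ‖(2 * (Real.pi:ℂ))⁻¹‖ = (2 * Real.pi)⁻¹ := by
      rw [norm_inv, norm_mul, Complex.norm_real, Real.norm_of_nonneg Real.pi_pos.le]
      simp
    rw [h6]
    have hπ := Real.pi_pos
    calc (2 * Real.pi)⁻¹ * ‖∫ θ in (0:ℝ)..2 * Real.pi, (((G (pt r θ)).re : ℝ) : ℂ) * (2 * exp (-(k * θ * I)))‖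
        ≤ (2 * Real.pi)⁻¹ * (2 * Real.pi * 1 * 2) := by gcongr
      _ = 2 := by field_simp
  have hlim : Tendsto (fun r : ℝ => r ^ k * ‖tc k G‖) (𝓝[<] 1) (𝓝 ‖tc k G‖) := by
    have h1 : Continuous (fun r : ℝ => r ^ k * ‖tc k G‖) := by fun_prop
    have h2 := (h1.tendsto 1).mono_left (nhdsWithin_le_nhds (s := Iio 1))
    simpa using h2
  refine le_of_tendsto hlim ?_
  filter_upwards [Ioo_mem_nhdsLT (show (0:ℝ) < 1 by norm_num)] with r hr'
  exact hr r hr'.1 hr'.2

/-- explicit coefficients of the power of the extremal function -/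
noncomputable def cK (α : ℝ) (k : ℕ) : ℝ :=
  (∏ i ∈ Finset.range k, (2 / α + i)) / (k.factorial * (1 + α * k))

/-- coefficients of the extremal function over `z` -/
noncomputable def KK (α : ℝ) : ℕ → ℝ
  | 0 => 1
  | (m + 1) => (∑ j : Fin (m + 1), (α * ((j:ℕ) + 1) - (m - (j:ℕ))) * cK α ((j:ℕ) + 1)
      * KK α (m - (j:ℕ))) / (m + 1)
termination_by m => m
decreasing_by omega

section
variable {β : ℝ} (hβ : 1 < β)
include hβ

omit hβ in
lemma an_of_ball {g g' : ℂ → ℂ} (h : ∀ z : ℂ, ‖z‖ < 1 → HasDerivAt g (g' z) z) : AnalyticAt ℂ g 0 := by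
  have : DifferentiableOn ℂ g (ball 0 1) := fun z hz =>
    (h z (mem_ball_zero_iff.1 hz)).differentiableAt.differentiableWithinAt
  exact this.analyticAt (isOpen_ball.mem_nhds (mem_ball_self one_pos))

omit hβ in
lemma ev_ball {P : ℂ → Prop} (h : ∀ z : ℂ, ‖z‖ < 1 → P z) : ∀ᶠ z in 𝓝 (0:ℂ), P z := by
  filter_upwards [isOpen_ball.mem_nhds (mem_ball_self (x := (0:ℂ)) one_pos)] with z hz
  exact h z (mem_ball_zero_iff.1 hz)

lemma hasDerivAt_Qp {z : ℂ} (hz : ‖z‖ < 1) :
    HasDerivAt (fun z => QQ β (pp 1 z)) (dQ β (pp 1 z) * (2 / (1 - z) ^ 2)) z :=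
  (hasDerivAt_QQ hβ (pp_one_re hz).le).comp z (hasDerivAt_pp hz)

lemma tc_Qp_rec (n : ℕ) : (n:ℂ) * tc n (fun z => QQ β (pp 1 z))
    = β * ∑ k ∈ Finset.range (n + 1), tc k (fun z => QQ β (pp 1 z)) *
      (tc (n - k) (pp 1) - tc (n - k) (fun z => QQ β (pp 1 z))) := by
  have hQ : AnalyticAt ℂ (fun z => QQ β (pp 1 z)) 0 := an_of_ball fun z hz => hasDerivAt_Qp hβ hz
  have hp := an_pp0 1
  rw [← tc_zderiv hQ]
  have h1 : (fun z => z * deriv (fun z => QQ β (pp 1 z)) z)
      =ᶠ[𝓝 0] fun z => (β:ℂ) * (QQ β (pp 1 z) * (pp 1 z - QQ β (pp 1 z))) := by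
    refine ev_ball fun z hz => ?_
    beta_reduce
    rw [(hasDerivAt_Qp hβ hz).deriv, z_QQ hβ hz]
    ring
  rw [tc_congr h1, tc_const_mul, tc_mul hQ (hp.fun_sub hQ)]
  congr 1
  refine Finset.sum_congr rfl fun k _ => ?_
  rw [tc_sub hp hQ]

lemma tc_Qp_zero : tc 0 (fun z => QQ β (pp 1 z)) = 1 := by
  rw [tc_zero, pp_zero, QQ_one hβ]

omit hβ in
lemma tc_pp_one {k : ℕ} (hk : 1 ≤ k) : tc k (pp 1) = 2 := by
  obtain ⟨m, rfl⟩ : ∃ m, k = m + 1 := ⟨k - 1, by omega⟩
  rw [tc_pp]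
  simp

lemma Qp_pos (n : ℕ) : ∃ ρ : ℝ, 0 < ρ ∧ ρ ≤ 2 ∧ tc n (fun z => QQ β (pp 1 z)) = ρ := by
  induction n using Nat.strong_induction_on with
  | _ n ih =>
    rcases n with _ | m
    · exact ⟨1, one_pos, one_le_two, by rw [tc_Qp_zero hβ]; simp⟩
    · have hβ0 : 0 < β := by linarith
      choose! ρ hρ0 hρ2 hρ using ih
      have hrec := tc_Qp_rec hβ (m + 1)
      rw [Finset.sum_range_succ, Nat.sub_self, tc_Qp_zero hβ, tc_zero (pp 1), pp_zero, sub_self,
        mul_zero, add_zero, Finset.sum_range_succ', tc_Qp_zero hβ, one_mul, Nat.sub_zero,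
        tc_pp_one (by omega : 1 ≤ m + 1)] at hrec
      have hsum : ∑ k ∈ Finset.range m, tc (k + 1) (fun z => QQ β (pp 1 z)) *
          (tc (m + 1 - (k + 1)) (pp 1) - tc (m + 1 - (k + 1)) (fun z => QQ β (pp 1 z)))
          = ((∑ k ∈ Finset.range m, ρ (k + 1) * (2 - ρ (m + 1 - (k + 1))) : ℝ) : ℂ) := by
        rw [ofReal_sum]
        refine Finset.sum_congr rfl fun k hk => ?_
        have hk' := Finset.mem_range.1 hk
        rw [hρ (k + 1) (by omega), hρ (m + 1 - (k + 1)) (by omega), tc_pp_one (by omega), ofReal_mul,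
          ofReal_sub, ofReal_ofNat]
      rw [hsum] at hrec
      set S : ℝ := ∑ k ∈ Finset.range m, ρ (k + 1) * (2 - ρ (m + 1 - (k + 1))) with hS
      have hS0 : 0 ≤ S := Finset.sum_nonneg fun k hk => by
        have hk' := Finset.mem_range.1 hk
        exact mul_nonneg (hρ0 _ (by omega)).le (by linarith [hρ2 (m + 1 - (k + 1)) (by omega)])
      have hval : tc (m + 1) (fun z => QQ β (pp 1 z)) = ((β * (S + 2) / (m + 1 + β) : ℝ) : ℂ) := by
        have hne : ((m:ℂ) + 1 + β) ≠ 0 := by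
          have : (0:ℝ) < m + 1 + β := by positivity
          exact_mod_cast this.ne'
        push_cast
        rw [eq_div_iff hne]
        push_cast at hrec
        linear_combination hrec
      refine ⟨β * (S + 2) / (m + 1 + β), by positivity, ?_, hval⟩
      have hG : DifferentiableOn ℂ (fun z => QQ β (pp 1 z)) (ball 0 1) := fun z hz =>
        (hasDerivAt_Qp hβ (mem_ball_zero_iff.1 hz)).differentiableAt.differentiableWithinAt
      have hcar := caratheodory hG (fun z hz => (re_QQ_pos hβ (pp_one_re (mem_ball_zero_iff.1 hz)).le).le)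
        (by rw [pp_zero, QQ_one hβ]) (by omega : 1 ≤ m + 1)
      rw [hval, Complex.norm_real] at hcar
      exact (le_abs_self _).trans hcar

lemma an_PSpp : AnalyticAt ℂ (fun z => PS β (pp 1 z)) 0 :=
  an_of_ball fun z hz => hasDerivAt_PSpp hβ hz

lemma K_pos (n : ℕ) : ∃ ρ : ℝ, 0 < ρ ∧ tc n (fun z => PS β (pp 1 z)) = ρ := by
  induction n using Nat.strong_induction_on with
  | _ n ih =>
    rcases n with _ | m
    · exact ⟨1, one_pos, by rw [tc_zero, pp_zero, PS_one hβ]; simp⟩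
    · choose! ρ hρ0 hρ using ih
      choose σ hσ0 hσ2 hσ using Qp_pos hβ
      have hF := an_PSpp hβ
      have hQ : AnalyticAt ℂ (fun z => QQ β (pp 1 z)) 0 := an_of_ball fun z hz => hasDerivAt_Qp hβ hz
      have hQ1 : AnalyticAt ℂ (fun z => QQ β (pp 1 z) - 1) 0 := hQ.fun_sub analyticAt_const
      have h1 : (fun z => z * deriv (fun z => PS β (pp 1 z)) z)
          =ᶠ[𝓝 0] fun z => PS β (pp 1 z) * (QQ β (pp 1 z) - 1) := by
        refine ev_ball fun z hz => ?_
        beta_reduce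
        rw [(hasDerivAt_PSpp hβ hz).deriv, ← z_LK hβ hz]
        ring
      have hrec := tc_zderiv hF (m + 1)
      rw [tc_congr h1, tc_mul hF hQ1, Finset.sum_range_succ, Nat.sub_self] at hrec
      have h2 : tc 0 (fun z => QQ β (pp 1 z) - 1) = 0 := by
        rw [tc_zero, pp_zero, QQ_one hβ, sub_self]
      rw [h2, mul_zero, add_zero] at hrec
      have hsum : ∑ k ∈ Finset.range (m + 1), tc k (fun z => PS β (pp 1 z)) *
          tc (m + 1 - k) (fun z => QQ β (pp 1 z) - 1)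
          = ((∑ k ∈ Finset.range (m + 1), ρ k * σ (m + 1 - k) : ℝ) : ℂ) := by
        push_cast
        refine Finset.sum_congr rfl fun k hk => ?_
        have hk' := Finset.mem_range.1 hk
        rw [hρ k (by omega), tc_sub hQ analyticAt_const, tc_const, if_neg (by omega), sub_zero, hσ]
      rw [hsum] at hrec
      refine ⟨(∑ k ∈ Finset.range (m + 1), ρ k * σ (m + 1 - k)) / (m + 1), ?_, ?_⟩
      · refine div_pos (Finset.sum_pos (fun k hk => ?_) ⟨0, by simp⟩) (by positivity)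
        have hk' := Finset.mem_range.1 hk
        exact mul_pos (hρ0 k (by omega)) (hσ0 _)
      · have hne : ((m:ℂ) + 1) ≠ 0 := by exact_mod_cast Nat.succ_ne_zero m
        push_cast
        rw [eq_div_iff hne]
        push_cast at hrec
        linear_combination -hrec

/-- the power `F^β` of the extremal function over `z` -/
noncomputable def YY (β : ℝ) (z : ℂ) : ℂ := exp (β * LK β z)

lemma hasDerivAt_YY {z : ℂ} (hz : ‖z‖ < 1) :
    HasDerivAt (YY β) (YY β z * (β * (dL β (pp 1 z) * (2 / (1 - z) ^ 2)))) z :=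
  ((hasDerivAt_LK hβ hz).const_mul (β:ℂ)).cexp

lemma an_YY : AnalyticAt ℂ (YY β) 0 := an_of_ball fun z hz => hasDerivAt_YY hβ hz

lemma YY_zero : YY β 0 = 1 := by
  unfold YY LK
  rw [pp_zero, LL_one hβ]
  simp

lemma z_YY {z : ℂ} (hz : ‖z‖ < 1) : z * deriv (YY β) z = β * (YY β z * (QQ β (pp 1 z) - 1)) := by
  rw [(hasDerivAt_YY hβ hz).deriv, ← z_LK hβ hz]
  ring

/-- the product `Y Q` -/
noncomputable def BB (β : ℝ) (z : ℂ) : ℂ := YY β z * QQ β (pp 1 z)

lemma hasDerivAt_BB {z : ℂ} (hz : ‖z‖ < 1) : HasDerivAt (BB β)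
    (YY β z * (β * (dL β (pp 1 z) * (2 / (1 - z) ^ 2))) * QQ β (pp 1 z)
      + YY β z * (dQ β (pp 1 z) * (2 / (1 - z) ^ 2))) z :=
  (hasDerivAt_YY hβ hz).mul (hasDerivAt_Qp hβ hz)

lemma an_BB : AnalyticAt ℂ (BB β) 0 := an_of_ball fun z hz => hasDerivAt_BB hβ hz

lemma z_BB {z : ℂ} (hz : ‖z‖ < 1) :
    z * deriv (BB β) z - z * (z * deriv (BB β) z) = 2 * β * (z * BB β z) := by
  have h := one_sub_ne' hz
  have h1 : z * deriv (BB β) z = β * BB β z * (pp 1 z - 1) := by
    rw [(hasDerivAt_BB hβ hz).deriv]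
    have h2 := z_LK hβ hz
    have h3 := z_QQ hβ hz
    unfold BB
    linear_combination (YY β z * β * QQ β (pp 1 z)) * h2 + (YY β z) * h3
  have h4 : pp 1 z - 1 = 2 * z / (1 - z) := by
    unfold pp
    simp only [one_mul]
    field_simp
    ring
  rw [h1, h4]
  field_simp

lemma tc_BB (k : ℕ) : tc k (BB β) = ((∏ i ∈ Finset.range k, (2 * β + i)) / (k.factorial : ℝ) : ℝ) := by
  induction k with
  | zero =>
    rw [tc_zero]
    unfold BB
    rw [YY_zero hβ, pp_zero, QQ_one hβ]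
    simp
  | succ k ih =>
    have hB := an_BB hβ
    have hid : AnalyticAt ℂ (fun z : ℂ => z) 0 := analyticAt_id
    have hzB : AnalyticAt ℂ (fun z => z * deriv (BB β) z) 0 := hid.fun_mul hB.deriv
    have h1 : (fun z => z * deriv (BB β) z - z * (z * deriv (BB β) z))
        =ᶠ[𝓝 0] fun z => (2 * β : ℂ) * (z * BB β z) := ev_ball fun z hz => z_BB hβ hz
    have h2 := tc_congr h1 (k + 1)
    rw [tc_sub hzB (hid.fun_mul hzB), tc_const_mul, tc_z_mul hzB, tc_z_mul hB, tc_zderiv hB,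
      tc_zderiv hB] at h2
    have hne : ((k:ℂ) + 1) ≠ 0 := by exact_mod_cast Nat.succ_ne_zero k
    have h3 : tc (k + 1) (BB β) = (2 * β + k) / (k + 1) * tc k (BB β) := by
      rw [div_mul_eq_mul_div, eq_div_iff hne]
      push_cast at h2
      linear_combination h2
    rw [h3, ih, Finset.prod_range_succ, Nat.factorial_succ]
    have hf : ((k.factorial : ℕ) : ℂ) ≠ 0 := by exact_mod_cast k.factorial_ne_zero
    push_cast
    field_simp

lemma tc_YY (k : ℕ) : tc k (YY β) = (cK (1 / β) k : ℝ) := by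
  have hY := an_YY hβ
  have hB := an_BB hβ
  have hβ0 : (β : ℂ) ≠ 0 := by exact_mod_cast (by linarith : (0:ℝ) < β).ne'
  have h1 : (fun z => z * deriv (YY β) z + (β:ℂ) * YY β z) =ᶠ[𝓝 0] fun z => (β:ℂ) * BB β z := by
    refine ev_ball fun z hz => ?_
    beta_reduce
    rw [z_YY hβ hz]
    unfold BB
    ring
  have h2 := tc_congr h1 k
  have hzY : AnalyticAt ℂ (fun z => z * deriv (YY β) z) 0 := analyticAt_id.mul hY.deriv
  rw [tc_add hzY (analyticAt_const.fun_mul hY), tc_zderiv hY, tc_const_mul, tc_const_mul, tc_BB hβ] at h2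
  have hne : ((k:ℂ) + β) ≠ 0 := by
    have h0 : 0 < β := by linarith
    have : (0:ℝ) < k + β := by positivity
    exact_mod_cast this.ne'
  have h3 : tc k (YY β) = β * ((∏ i ∈ Finset.range k, (2 * β + i)) / (k.factorial : ℝ) : ℝ) / (k + β) := by
    rw [eq_div_iff hne]
    linear_combination h2
  rw [h3]
  unfold cK
  have hβr : β ≠ 0 := by linarith
  have e1 : ∀ i : ℕ, 2 / (1 / β) + (i:ℝ) = 2 * β + i := by
    intro i
    field_simp
  simp_rw [e1]
  have hf : ((k.factorial : ℕ) : ℂ) ≠ 0 := by exact_mod_cast k.factorial_ne_zero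
  have hne2 : ((β:ℂ) + k) ≠ 0 := by rw [add_comm]; exact hne
  push_cast
  have e2 : (1 + 1 / (β:ℂ) * k) = (k + β) / β := by
    field_simp
    ring
  rw [e2]
  field_simp

omit hβ in
lemma KK_succ (α : ℝ) (m : ℕ) : KK α (m + 1) = (∑ j ∈ Finset.range (m + 1),
    (α * ((j:ℕ) + 1) - (m - (j:ℕ))) * cK α ((j:ℕ) + 1) * KK α (m - (j:ℕ))) / (m + 1) := by
  rw [KK, Finset.sum_range]

theorem tc_KK (n : ℕ) : tc n (fun z => PS β (pp 1 z)) = (KK (1 / β) n : ℝ) := by
  induction n using Nat.strong_induction_on with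
  | _ n ih =>
    rcases n with _ | m
    · rw [tc_zero, pp_zero, PS_one hβ, KK]
      simp
    · have hF := an_PSpp hβ
      have hY := an_YY hβ
      have hzF : AnalyticAt ℂ (fun z => z * deriv (fun z => PS β (pp 1 z)) z) 0 :=
        analyticAt_id.mul hF.deriv
      have hzY : AnalyticAt ℂ (fun z => z * deriv (YY β) z) 0 := analyticAt_id.mul hY.deriv
      have hβ0 : (β : ℂ) ≠ 0 := by exact_mod_cast (by linarith : (0:ℝ) < β).ne'
      have h1 : (fun z => YY β z * (z * deriv (fun z => PS β (pp 1 z)) z))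
          =ᶠ[𝓝 0] fun z => (1 / β : ℂ) * ((z * deriv (YY β) z) * PS β (pp 1 z)) := by
        refine ev_ball fun z hz => ?_
        beta_reduce
        rw [(hasDerivAt_PSpp hβ hz).deriv, z_YY hβ hz, ← z_LK hβ hz]
        field_simp
      have h2 := tc_congr h1 (m + 1)
      rw [tc_mul hY hzF, tc_const_mul, tc_mul hzY hF] at h2
      simp_rw [tc_zderiv hF, tc_zderiv hY, tc_YY hβ] at h2
      have hc0 : cK (1 / β) 0 = 1 := by simp [cK]
      rw [Finset.sum_range_succ' (fun x => (cK (1 / β) x : ℂ) * (((m + 1 - x : ℕ) : ℂ) *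
          tc (m + 1 - x) (fun z => PS β (pp 1 z)))) (m + 1),
        Finset.sum_range_succ' (fun x => ((x : ℕ) : ℂ) * (cK (1 / β) x : ℂ) *
          tc (m + 1 - x) (fun z => PS β (pp 1 z))) (m + 1), hc0] at h2
      simp only [ofReal_one, one_mul, Nat.cast_zero, zero_mul, add_zero, Nat.sub_zero] at h2
      have hne : ((m:ℂ) + 1) ≠ 0 := by exact_mod_cast Nat.succ_ne_zero m
      rw [KK_succ]
      push_cast
      rw [eq_div_iff hne]
      have h3 : ∀ j ∈ Finset.range (m + 1), ((1 / β : ℂ) * ((j:ℂ) + 1) - (m - j)) * (cK (1 / β) (j + 1) : ℂ)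
          * (KK (1 / β) (m - j) : ℂ)
          = 1 / β * ((((j + 1 : ℕ) : ℂ) * (cK (1 / β) (j + 1) : ℂ)) * tc (m + 1 - (j + 1)) (fun z => PS β (pp 1 z)))
            - (cK (1 / β) (j + 1) : ℂ) * (((m + 1 - (j + 1) : ℕ) : ℂ) * tc (m + 1 - (j + 1)) (fun z => PS β (pp 1 z))) := by
        intro j hj
        have hj' := Finset.mem_range.1 hj
        have e1 : m + 1 - (j + 1) = m - j := by omega
        rw [e1, ih (m - j) (by omega), Nat.cast_sub (by omega)]
        push_cast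
        ring
      rw [Finset.sum_congr rfl h3, Finset.sum_sub_distrib, ← Finset.mul_sum]
      push_cast at h2 ⊢
      linear_combination h2

lemma KK_pos (n : ℕ) : 0 < KK (1 / β) n := by
  obtain ⟨ρ, hρ0, hρ⟩ := K_pos hβ n
  have h := tc_KK hβ n
  rw [hρ] at h
  have : ρ = KK (1 / β) n := by exact_mod_cast h
  rw [← this]
  exact hρ0

end

end Pool.Agent.J4.H68.AC
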