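import Mathlib

set_option autoImplicit false

/-!
Real inequalities for the alpha-convex coefficient problem.
-/

namespace Pool.Agent.J4.H68.AC

open Real MeasureTheory intervalIntegral Set

/-- the derivative of `II` -/
noncomputable def Ip (β t : ℝ) : ℝ := 2 * β * (1 + t ^ 2) ^ (β - 1)

/-- the integral of `Ip` -/
noncomputable def II (β t : ℝ) : ℝ := ∫ σ in (0:ℝ)..t, Ip β σ

/-- the power of `1 + t^2` -/
noncomputable def EE (β t : ℝ) : ℝ := (1 + t ^ 2) ^ β

lemma base_pos (t : ℝ) : 0 < 1 + t ^ 2 := by positivity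

lemma nonneg_of_deriv {f f' : ℝ → ℝ} (hf : ∀ t, HasDerivAt f (f' t) t) (h0 : 0 ≤ f 0)
    (h' : ∀ t, 0 < t → 0 ≤ f' t) : ∀ t, 0 ≤ t → 0 ≤ f t := by
  intro t ht
  have hmono : MonotoneOn f (Ici 0) := by
    refine monotoneOn_of_deriv_nonneg (convex_Ici 0) ?_ ?_ ?_
    · exact fun x _ => (hf x).continuousAt.continuousWithinAt
    · exact fun x _ => (hf x).differentiableAt.differentiableWithinAt
    · intro x hx
      rw [interior_Ici, mem_Ioi] at hx
      rw [(hf x).deriv]
      exact h' x hx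
  exact h0.trans (hmono (self_mem_Ici) ht ht)

lemma Ip_continuous (β : ℝ) : Continuous (Ip β) := by
  unfold Ip
  refine continuous_const.mul ?_
  exact Continuous.rpow_const (by fun_prop) (fun t => Or.inl (base_pos t).ne')

lemma hasDerivAt_II (β t : ℝ) : HasDerivAt (II β) (Ip β t) t := by
  unfold II
  exact (Ip_continuous β).integral_hasStrictDerivAt 0 t |>.hasDerivAt

lemma hasDerivAt_base (t : ℝ) : HasDerivAt (fun t : ℝ => 1 + t ^ 2) (2 * t) t := by
  have := (hasDerivAt_pow 2 t).const_add 1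
  simpa using this

lemma hasDerivAt_EE (β t : ℝ) : HasDerivAt (EE β) (t * Ip β t) t := by
  have h := (hasDerivAt_base t).rpow_const (p := β) (Or.inl (base_pos t).ne')
  refine HasDerivAt.congr_deriv h ?_
  unfold Ip
  ring

lemma hasDerivAt_Ip (β t : ℝ) :
    HasDerivAt (Ip β) (2 * (β - 1) * t / (1 + t ^ 2) * Ip β t) t := by
  have h := ((hasDerivAt_base t).rpow_const (p := β - 1) (Or.inl (base_pos t).ne')).const_mul (2 * β)
  refine HasDerivAt.congr_deriv h ?_
  unfold Ip
  have h3 : (1 + t ^ 2) ^ (β - 1 - 1) = (1 + t ^ 2) ^ (β - 1) / (1 + t ^ 2) :=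
    rpow_sub_one (base_pos t).ne' (β - 1)
  rw [h3]
  field_simp

lemma EE_eq (β t : ℝ) : 2 * β * EE β t = (1 + t ^ 2) * Ip β t := by
  unfold EE Ip
  rw [rpow_sub_one (base_pos t).ne' β]
  field_simp

lemma II_zero (β : ℝ) : II β 0 = 0 := by simp [II]
lemma EE_zero (β : ℝ) : EE β 0 = 1 := by simp [EE]
lemma Ip_zero (β : ℝ) : Ip β 0 = 2 * β := by simp [Ip]

lemma EE_neg (β t : ℝ) : EE β (-t) = EE β t := by simp [EE]
lemma Ip_neg (β t : ℝ) : Ip β (-t) = Ip β t := by simp [Ip]
lemma II_neg (β t : ℝ) : II β (-t) = - II β t := by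
  unfold II
  have h := intervalIntegral.integral_comp_neg (a := 0) (b := t) (fun σ => Ip β σ)
  rw [neg_zero] at h
  rw [intervalIntegral.integral_symm, ← h]
  simp only [Ip_neg]

lemma EE_pos (β t : ℝ) : 0 < EE β t := rpow_pos_of_pos (base_pos t) _

section
variable {β : ℝ} (hβ : 1 < β)
include hβ

lemma Ip_pos (t : ℝ) : 0 < Ip β t := by
  unfold Ip
  have := rpow_pos_of_pos (base_pos t) (β - 1)
  positivity

lemma Ip_ge (t : ℝ) : 2 * β ≤ Ip β t := by
  unfold Ip
  have h : 1 ≤ (1 + t ^ 2) ^ (β - 1) := one_le_rpow (by nlinarith [sq_nonneg t]) (by linarith)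
  nlinarith

lemma II_ge {t : ℝ} (ht : 0 ≤ t) : 2 * β * t ≤ II β t := by
  have h := nonneg_of_deriv (f := fun t => II β t - 2 * β * t) (f' := fun t => Ip β t - 2 * β)
    (fun t => by
      have h1 := (hasDerivAt_II β t).sub ((hasDerivAt_id t).const_mul (2 * β))
      exact HasDerivAt.congr_deriv h1 (by ring)) (by simp [II_zero])
    (fun t _ => by have := Ip_ge hβ t; linarith) t ht
  linarith

lemma II_nonneg {t : ℝ} (ht : 0 ≤ t) : 0 ≤ II β t := by
  have := II_ge hβ ht
  have h2 : 0 ≤ 2 * β * t := by positivity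
  linarith

lemma II_le {t : ℝ} (ht : 0 ≤ t) : II β t ≤ t * Ip β t := by
  have h := nonneg_of_deriv (f := fun t => t * Ip β t - II β t)
    (f' := fun t => t * (2 * (β - 1) * t / (1 + t ^ 2) * Ip β t))
    (fun t => by
      have h1 := ((hasDerivAt_id t).mul (hasDerivAt_Ip β t)).sub (hasDerivAt_II β t)
      exact HasDerivAt.congr_deriv h1 (by simp only [id]; ring)) (by simp [II_zero])
    (fun t ht => by
      have h1 := Ip_pos hβ t
      have h2 := base_pos t
      have h3 : 0 < β - 1 := by linarith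
      positivity) t ht
  linarith

lemma tII_le {t : ℝ} (ht : 0 ≤ t) : t * II β t ≤ 2 * (EE β t - 1) := by
  have h := nonneg_of_deriv (f := fun t => 2 * (EE β t - 1) - t * II β t)
    (f' := fun t => t * Ip β t - II β t)
    (fun t => by
      have h1 := (((hasDerivAt_EE β t).sub_const 1).const_mul 2).sub
        ((hasDerivAt_id t).mul (hasDerivAt_II β t))
      exact HasDerivAt.congr_deriv h1 (by simp only [id]; ring)) (by simp [II_zero, EE_zero])
    (fun t ht => by have := II_le hβ ht.le; linarith) t ht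
  linarith

lemma JJ_ge {t : ℝ} (ht : 0 ≤ t) : β * t ^ 2 ≤ t * II β t - EE β t + 1 := by
  have h := nonneg_of_deriv (f := fun t => t * II β t - EE β t + 1 - β * t ^ 2)
    (f' := fun t => II β t - 2 * β * t)
    (fun t => by
      have h1 := ((((hasDerivAt_id t).mul (hasDerivAt_II β t)).sub (hasDerivAt_EE β t)).add_const
        1).sub ((hasDerivAt_pow 2 t).const_mul β)
      exact HasDerivAt.congr_deriv h1 (by simp only [id]; push_cast; ring))
        (by simp [II_zero, EE_zero])
    (fun t ht => by have := II_ge hβ ht.le; linarith) t ht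
  linarith

lemma IIsq_ge {t : ℝ} (ht : 0 ≤ t) : 4 * β * (EE β t - 1) ≤ II β t ^ 2 := by
  have h := nonneg_of_deriv (f := fun t => II β t ^ 2 - 4 * β * (EE β t - 1))
    (f' := fun t => 2 * Ip β t * (II β t - 2 * β * t))
    (fun t => by
      have h1 := ((hasDerivAt_II β t).pow 2).sub
        (((hasDerivAt_EE β t).sub_const 1).const_mul (4 * β))
      exact HasDerivAt.congr_deriv h1 (by push_cast; ring)) (by simp [II_zero, EE_zero])
    (fun t ht => by
      have h1 := II_ge hβ ht.le
      have h2 := Ip_pos hβ t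
      have h3 : 0 ≤ II β t - 2 * β * t := by linarith
      positivity) t ht
  linarith

lemma EE_ge (t : ℝ) : 1 + β * t ^ 2 ≤ EE β t := by
  unfold EE
  exact one_add_mul_self_le_rpow_one_add (by nlinarith [sq_nonneg t]) hβ.le

end

end Pool.Agent.J4.H68.AC
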