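import Pool.Agent.J4.H68.AC.R1

set_option autoImplicit false

/-!
The constant `cc β` and its two bounds.
-/

namespace Pool.Agent.J4.H68.AC

open Real MeasureTheory intervalIntegral Set

/-- the weight -/
noncomputable def Jp (β y : ℝ) : ℝ := 2 * β * (1 - y ^ 2) ^ (β - 1)

/-- the integral of the weight -/
noncomputable def JJ (β y : ℝ) : ℝ := ∫ σ in (0:ℝ)..y, Jp β σ

/-- the total mass of the weight -/
noncomputable def cc (β : ℝ) : ℝ := JJ β 1

/-- power of `1 - y^2` -/
noncomputable def FF (β y : ℝ) : ℝ := (1 - y ^ 2) ^ β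

section
variable {β : ℝ} (hβ : 1 < β)
include hβ

lemma Jp_continuous : Continuous (Jp β) := by
  unfold Jp
  refine continuous_const.mul ?_
  exact Continuous.rpow_const (by fun_prop) (fun t => Or.inr (by linarith))

lemma hasDerivAt_JJ (y : ℝ) : HasDerivAt (JJ β) (Jp β y) y := by
  unfold JJ
  exact (Jp_continuous hβ).integral_hasStrictDerivAt 0 y |>.hasDerivAt

lemma hasDerivAt_FF (y : ℝ) : HasDerivAt (FF β) (-(y * Jp β y)) y := by
  have h0 : HasDerivAt (fun y : ℝ => 1 - y ^ 2) (-(2 * y)) y := by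
    have := (hasDerivAt_pow 2 y).const_sub 1
    simpa using this
  have h := h0.rpow_const (p := β) (Or.inr hβ.le)
  refine HasDerivAt.congr_deriv h ?_
  unfold Jp
  ring

omit hβ in
lemma JJ_zero : JJ β 0 = 0 := by simp [JJ]
omit hβ in
lemma FF_zero : FF β 0 = 1 := by simp [FF]
lemma FF_one : FF β 1 = 0 := by
  unfold FF
  rw [show (1:ℝ) - 1 ^ 2 = 0 by norm_num]
  exact zero_rpow (by linarith)

lemma Jp_nonneg {y : ℝ} (h0 : 0 ≤ y) (h1 : y ≤ 1) : 0 ≤ Jp β y := by
  unfold Jp
  have : 0 ≤ (1 - y ^ 2) ^ (β - 1) := rpow_nonneg (by nlinarith) _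
  positivity

lemma Jp_le {y : ℝ} (h0 : 0 ≤ y) (h1 : y ≤ 1) : Jp β y ≤ 2 * β := by
  unfold Jp
  have h : (1 - y ^ 2) ^ (β - 1) ≤ 1 := rpow_le_one (by nlinarith) (by nlinarith) (by linarith)
  nlinarith

omit hβ in
lemma mono01 {f f' : ℝ → ℝ} (hf : ContinuousOn f (Icc 0 1)) (hd : ∀ t, 0 < t → t < 1 → HasDerivAt f (f' t) t)
    (h' : ∀ t, 0 < t → t < 1 → 0 ≤ f' t) : f 0 ≤ f 1 := by
  have hmono : MonotoneOn f (Icc 0 1) := by
    refine monotoneOn_of_deriv_nonneg (convex_Icc 0 1) hf ?_ ?_
    · intro x hx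
      rw [interior_Icc] at hx
      exact (hd x hx.1 hx.2).differentiableAt.differentiableWithinAt
    · intro x hx
      rw [interior_Icc] at hx
      rw [(hd x hx.1 hx.2).deriv]
      exact h' x hx.1 hx.2
  exact hmono (by simp) (by simp) zero_le_one

omit hβ in
lemma mono0t {f f' : ℝ → ℝ} {t : ℝ} (ht0 : 0 ≤ t) (hd : ∀ x, HasDerivAt f (f' x) x)
    (h' : ∀ x, 0 < x → x < t → 0 ≤ f' x) : f 0 ≤ f t := by
  have hmono : MonotoneOn f (Icc 0 t) := by
    refine monotoneOn_of_deriv_nonneg (convex_Icc 0 t)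
      (fun x _ => (hd x).continuousAt.continuousWithinAt) ?_ ?_
    · intro x hx
      exact (hd x).differentiableAt.differentiableWithinAt
    · intro x hx
      rw [interior_Icc] at hx
      rw [(hd x).deriv]
      exact h' x hx.1 hx.2
  exact hmono (by simp [ht0]) (by simp [ht0]) ht0

lemma JJ_le {y : ℝ} (h0 : 0 ≤ y) (h1 : y ≤ 1) : JJ β y ≤ 2 * β * y := by
  have h := mono0t (f := fun y => 2 * β * y - JJ β y) (f' := fun y => 2 * β - Jp β y) h0
    (fun x => by
      have h1 := ((hasDerivAt_id x).const_mul (2 * β)).sub (hasDerivAt_JJ hβ x)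
      exact HasDerivAt.congr_deriv h1 (by ring))
    (fun x hx0 hx1 => by have := Jp_le hβ hx0.le (hx1.le.trans h1); linarith)
  simp only [JJ_zero, mul_zero, sub_zero] at h
  linarith

/-- first bound: `c^2 ≤ 4 β` -/
lemma cc_sq_le : cc β ^ 2 ≤ 4 * β := by
  have h := mono0t (f := fun y => - (JJ β y ^ 2 + 4 * β * FF β y))
    (f' := fun y => 2 * Jp β y * (2 * β * y - JJ β y)) (t := 1) zero_le_one
    (fun x => by
      have h1 := (((hasDerivAt_JJ hβ x).pow 2).add ((hasDerivAt_FF hβ x).const_mul (4 * β))).neg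
      exact HasDerivAt.congr_deriv h1 (by push_cast; ring))
    (fun x hx0 hx1 => by
      have h1 := JJ_le hβ hx0.le hx1.le
      have h2 := Jp_nonneg hβ hx0.le hx1.le
      have h3 : 0 ≤ 2 * β * x - JJ β x := by linarith
      positivity)
  simp only [JJ_zero, FF_zero, FF_one hβ] at h
  unfold cc
  linarith

lemma cc_pos : 0 < cc β := by
  -- crude: JJ β 1 ≥ (1 - FF β 1) = 1
  have h := mono0t (f := fun y => JJ β y + FF β y)
    (f' := fun y => (1 - y) * Jp β y) (t := 1) zero_le_one
    (fun x => by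
      have h1 := (hasDerivAt_JJ hβ x).add (hasDerivAt_FF hβ x)
      exact HasDerivAt.congr_deriv h1 (by ring))
    (fun x hx0 hx1 => by
      have h2 := Jp_nonneg hβ hx0.le hx1.le
      have h3 : 0 ≤ 1 - x := by linarith
      positivity)
  simp only [JJ_zero, FF_zero, FF_one hβ] at h
  unfold cc
  linarith

/-- second bound: `2 β ≤ c^2 - c` -/
lemma cc_sq_ge : 2 * β ≤ cc β ^ 2 - cc β := by
  set c := cc β with hc
  have hcp : 0 < c := cc_pos hβ
  set m := 1 / c with hm
  have hmp : 0 < m := by positivity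
  have hβ0 : 0 < β := by linarith
  have h := mono01 (f := fun y => FF β y / (1 + y) + (2 * β - 1) * JJ β y / (2 * β)
      - 2 * (β - 1) * (JJ β y / (2 * β * (1 + m))
        - ((1 - FF β y) / (2 * β) - m * JJ β y / (2 * β)) / (1 + m) ^ 2))
    (f' := fun y => 2 * (β - 1) * (Jp β y / (2 * β)) *
      (1 / (1 + y) - (1 / (1 + m) - (y - m) / (1 + m) ^ 2)))
    (by
      intro y hy
      apply ContinuousAt.continuousWithinAt
      have c1 := (hasDerivAt_JJ hβ y).continuousAt
      have c2 := (hasDerivAt_FF hβ y).continuousAt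
      have h1y : (1 + y) ≠ 0 := by have := hy.1; positivity
      have c3 : ContinuousAt (fun y : ℝ => 1 + y) y := by fun_prop
      exact ((c2.div c3 h1y).add ((c1.const_mul _).div_const _)).sub
        (((c1.div_const _).sub ((((continuousAt_const.sub c2).div_const _).sub
          ((c1.const_mul _).div_const _)).div_const _)).const_mul _))
    (fun y hy0 hy1 => by
      have h1y : (1 + y) ≠ 0 := by positivity
      have d1 := hasDerivAt_JJ hβ y
      have d2 := hasDerivAt_FF hβ y
      have d3 : HasDerivAt (fun y : ℝ => 1 + y) 1 y := by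
        simpa using (hasDerivAt_id y).const_add 1
      have h1 := ((d2.div d3 h1y).add ((d1.const_mul (2 * β - 1)).div_const (2 * β))).sub
        (((d1.div_const (2 * β * (1 + m))).sub ((((d2.const_sub 1).div_const (2 * β)).sub
          ((d1.const_mul m).div_const (2 * β))).div_const ((1 + m) ^ 2))).const_mul (2 * (β - 1)))
      refine HasDerivAt.congr_deriv h1 ?_
      have hFF : FF β y = (1 - y ^ 2) * Jp β y / (2 * β) := by
        unfold FF Jp
        have : (1 - y ^ 2) ≠ 0 := by nlinarith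
        rw [rpow_sub_one this β]
        field_simp
      rw [hFF]
      field_simp
      ring)
    (fun y hy0 hy1 => by
      have h2 := Jp_nonneg hβ hy0.le hy1.le
      have h3 : 0 ≤ 1 / (1 + y) - (1 / (1 + m) - (y - m) / (1 + m) ^ 2) := by
        have : 1 / (1 + y) - (1 / (1 + m) - (y - m) / (1 + m) ^ 2)
            = (y - m) ^ 2 / ((1 + y) * (1 + m) ^ 2) := by
          field_simp
          ring
        rw [this]
        positivity
      have h4 : 0 ≤ β - 1 := by linarith
      positivity)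
  simp only [JJ_zero, FF_zero, FF_one hβ] at h
  rw [show JJ β 1 = c from rfl] at h
  have hmc : m * c = 1 := by rw [hm]; field_simp
  have e1 : (1 + m) = (c + 1) / c := by rw [hm]; field_simp
  rw [hmc, e1] at h
  have e2 : 0 / (1 + 1) + (2 * β - 1) * c / (2 * β)
      - 2 * (β - 1) * (c / (2 * β * ((c + 1) / c)) - ((1 - 0) / (2 * β) - 1 / (2 * β)) / ((c + 1) / c) ^ 2)
      = ((2 * β - 1) * c * (c + 1) - 2 * (β - 1) * c ^ 2) / (2 * β * (c + 1)) := by
    field_simp
    ring
  rw [e2] at h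
  have e3 : (1:ℝ) / (1 + 0) + (2 * β - 1) * 0 / (2 * β)
      - 2 * (β - 1) * (0 / (2 * β * ((c + 1) / c)) - ((1 - 1) / (2 * β) - m * 0 / (2 * β)) / ((c + 1) / c) ^ 2)
      = 1 := by
    simp
  rw [e3, le_div_iff₀ (by positivity)] at h
  nlinarith

end

end Pool.Agent.J4.H68.AC
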