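import Pool.Agent.J4.H68.AC.R2

set_option autoImplicit false

/-!
The two main real inequalities.
-/

namespace Pool.Agent.J4.H68.AC

open Real MeasureTheory intervalIntegral Set

section
variable {β : ℝ} (hβ : 1 < β)
include hβ

lemma cc_ge_two : 2 ≤ cc β := by
  have h1 := cc_sq_ge hβ
  have h2 := cc_pos hβ
  nlinarith

lemma cc_lt : cc β < β + 1 := by
  have h1 := cc_sq_le hβ
  have h2 := cc_pos hβ
  nlinarith [sq_nonneg (β - 1), mul_pos (sub_pos.2 hβ) (sub_pos.2 hβ)]

lemma cc_lt' : β < (cc β - 1) ^ 2 := by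
  have h1 := cc_sq_ge hβ
  have h2 := cc_lt hβ
  nlinarith

lemma cc_aux : 0 < 3 * cc β ^ 2 - 2 * cc β - 4 * β := by
  have h1 := cc_sq_ge hβ
  have h2 := cc_ge_two hβ
  nlinarith

/-- `G` -/
lemma G_pos_aux {t : ℝ} (ht : 0 ≤ t) :
    0 < II β t ^ 2 * (t * II β t - EE β t) + cc β ^ 2 * (t * II β t + EE β t)
      - cc β * EE β t ^ 2 := by
  set c := cc β with hc
  have hcp : 0 < c := cc_pos hβ
  -- M
  have hM : ∀ t : ℝ, 0 ≤ t → 0 ≤ II β t * (c ^ 2 + II β t ^ 2) / Ip β t
      + 2 * t * (c ^ 2 + II β t ^ 2) - 2 * c * t * EE β t - 2 * II β t * EE β t := by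
    refine nonneg_of_deriv (f := fun t => II β t * (c ^ 2 + II β t ^ 2) / Ip β t
      + 2 * t * (c ^ 2 + II β t ^ 2) - 2 * c * t * EE β t - 2 * II β t * EE β t)
      (f' := fun t => 3 * (c ^ 2 + II β t ^ 2) + 2 * II β t ^ 2 + 2 * t * II β t * Ip β t
        - 2 * c * EE β t - 2 * c * t ^ 2 * Ip β t - 2 * Ip β t * EE β t
        - II β t * (c ^ 2 + II β t ^ 2) * (2 * (β - 1) * t / (1 + t ^ 2)) / Ip β t) ?_ ?_ ?_
    · intro t
      have hI := hasDerivAt_II β t
      have hE := hasDerivAt_EE β t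
      have hP := hasDerivAt_Ip β t
      have hPp := Ip_pos hβ t
      have hD := (hI.pow 2).const_add (c ^ 2)
      have ht := hasDerivAt_id t
      have h1 := ((((hI.mul hD).div hP hPp.ne').add ((ht.const_mul 2).mul hD)).sub
        ((ht.const_mul (2 * c)).mul hE)).sub ((hI.const_mul 2).mul hE)
      refine HasDerivAt.congr_deriv h1 ?_
      simp only [id, Pi.mul_apply, Pi.pow_apply]
      have hb := (base_pos t).ne'
      field_simp
      push_cast
      ring
    · simp [II_zero]
    · intro t ht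
      have hE0 := EE_pos β t
      have hE := EE_eq β t
      have hP := Ip_pos hβ t
      have hP2 := Ip_ge hβ t
      have hI := II_ge hβ ht.le
      have hI2 := tII_le hβ ht.le
      have hJ := JJ_ge hβ ht.le
      have hII := IIsq_ge hβ ht.le
      have hEg := EE_ge hβ t
      have hc1 := cc_sq_le hβ
      have hc2 := cc_sq_ge hβ
      have hc3 := cc_lt hβ
      have hc4 := cc_aux hβ
      rw [← hc] at hc1 hc2 hc3 hc4
      have hb := base_pos t
      set I := II β t
      set E := EE β t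
      set P := Ip β t
      have hI0 : 0 < I := by
        have : 0 < 2 * β * t := by positivity
        linarith
      -- last term bound : ≤ 2 I^2
      have hlast : I * (c ^ 2 + I ^ 2) * (2 * (β - 1) * t / (1 + t ^ 2)) / P ≤ 2 * I ^ 2 := by
        have e1 : I * (c ^ 2 + I ^ 2) * (2 * (β - 1) * t / (1 + t ^ 2)) / P
            = I * (t * (c ^ 2 + I ^ 2)) * (2 * (β - 1)) / (2 * β * E) := by
          rw [hE]; field_simp
        rw [e1, div_le_iff₀ (by positivity)]
        have h1 : t * (c ^ 2 + I ^ 2) ≤ 2 * I * E := by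
          have a1 : t * c ^ 2 ≤ 2 * I := by nlinarith
          have a2 : t * I ^ 2 ≤ 2 * I * (E - 1) := by nlinarith
          nlinarith
        have h2 : I * (t * (c ^ 2 + I ^ 2)) * (2 * (β - 1)) ≤ I * (2 * I * E) * (2 * (β - 1)) := by
          have : 0 ≤ 2 * (β - 1) := by linarith
          gcongr
        have h3 : I * (2 * I * E) * (2 * (β - 1)) ≤ 2 * I ^ 2 * (2 * β * E) := by
          have : 0 ≤ I ^ 2 * E := by positivity
          nlinarith
        linarith
      have hP3 : P ≤ 2 * β * E := by rw [hE]; nlinarith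
      -- combine
      have k1 : 2 * t * I * P - 2 * P * E ≥ 2 * P * (β * t ^ 2 - 1) := by nlinarith
      have k2 : 2 * P * (β * t ^ 2 - 1) - 2 * c * t ^ 2 * P
          = 2 * (β - c) * (2 * β * E) - 2 * (β + 1 - c) * P := by
        rw [hE]; ring
      have k3 : 2 * (β + 1 - c) * P ≤ 2 * (β + 1 - c) * (2 * β * E) := by
        have : 0 ≤ 2 * (β + 1 - c) := by linarith
        gcongr
      have k4 : 0 ≤ 3 * (c ^ 2 + I ^ 2) - 2 * c * E - 4 * β * E := by
        have hE1 : 1 ≤ E := by nlinarith [sq_nonneg t]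
        nlinarith
      nlinarith
  -- G
  have h := mono0t (f := fun t => II β t ^ 2 * (t * II β t - EE β t)
      + c ^ 2 * (t * II β t + EE β t) - c * EE β t ^ 2)
    (f' := fun t => Ip β t * (II β t * (c ^ 2 + II β t ^ 2) / Ip β t
      + 2 * t * (c ^ 2 + II β t ^ 2) - 2 * c * t * EE β t - 2 * II β t * EE β t)) ht
    (fun t => by
      have hI := hasDerivAt_II β t
      have hE := hasDerivAt_EE β t
      have hPp := Ip_pos hβ t
      have hh := hasDerivAt_id t
      have h1 := (((hI.pow 2).mul ((hh.mul hI).sub hE)).add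
        (((hh.mul hI).add hE).const_mul (c ^ 2))).sub ((hE.pow 2).const_mul c)
      refine HasDerivAt.congr_deriv h1 ?_
      simp only [id, Pi.mul_apply, Pi.pow_apply, Pi.sub_apply, Pi.add_apply]
      field_simp
      push_cast
      ring)
    (fun x hx0 _ => mul_nonneg (Ip_pos hβ x).le (hM x hx0.le))
  simp only [II_zero, EE_zero] at h
  have hc2 := cc_sq_ge hβ
  rw [← hc] at hc2
  nlinarith

end

end Pool.Agent.J4.H68.AC
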