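import Pool.Agent.J4.H68.AC.R3

set_option autoImplicit false

/-!
The second main real inequality, and all the consequences on the imaginary axis.
-/

namespace Pool.Agent.J4.H68.AC

open Real MeasureTheory intervalIntegral Set

section
variable {β : ℝ} (hβ : 1 < β)
include hβ

omit hβ in
lemma even_ext {P : ℝ → Prop} (h : ∀ t, 0 ≤ t → P t) (he : ∀ t, P t → P (-t)) : ∀ t, P t := by
  intro t
  rcases le_total 0 t with h0 | h0
  · exact h t h0
  · have := he (-t) (h (-t) (by linarith))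
    rwa [neg_neg] at this

lemma G_pos (t : ℝ) :
    0 < II β t ^ 2 * (t * II β t - EE β t) + cc β ^ 2 * (t * II β t + EE β t)
      - cc β * EE β t ^ 2 := by
  revert t
  refine even_ext (fun t ht => G_pos_aux hβ ht) ?_
  intro t h
  rw [II_neg, EE_neg]
  linarith [h]

omit hβ in
lemma poly_aux {c b e : ℝ} (hc : 2 ≤ c) (hb : 1 < b) (h1 : c ^ 2 ≤ 4 * b) (h2 : 2 * b ≤ c ^ 2 - c)
    (he : 0 ≤ e) : 0 < 4 * b * e * ((4 * b + 2 - 3 * c) * (1 + e) + c ^ 2 - 3 * b - 1)
      + (b - 1) * c * (1 + e) * (1 + e - c) ^ 2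
      - c ^ 2 * ((c - 1) * (b + 1 - c) + ((b + 2) * c - 4 * b - 2) * e) := by
  have e0 : 4 * b * e * ((4 * b + 2 - 3 * c) * (1 + e) + c ^ 2 - 3 * b - 1)
      + (b - 1) * c * (1 + e) * (1 + e - c) ^ 2
      - c ^ 2 * ((c - 1) * (b + 1 - c) + ((b + 2) * c - 4 * b - 2) * e)
      = (b - 1) * c * e ^ 3 + (16 * b ^ 2 + b * (8 - 9 * c - 2 * c ^ 2) + 2 * c ^ 2 - 3 * c) * e ^ 2
        + (4 * b ^ 2 + b * (4 * c ^ 2 - 9 * c + 4) - 3 * c * (c - 1) ^ 2) * e
        + c * (c - 1) * ((c - 1) ^ 2 - b) := by ring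
  rw [e0]
  have a3 : 0 ≤ (b - 1) * c * e ^ 3 := by
    have : 0 ≤ b - 1 := by linarith
    positivity
  have a2 : 0 ≤ 16 * b ^ 2 + b * (8 - 9 * c - 2 * c ^ 2) + 2 * c ^ 2 - 3 * c := by
    have : 16 * b ^ 2 + b * (8 - 9 * c - 2 * c ^ 2) + 2 * c ^ 2 - 3 * c
        = (b - c ^ 2 / 4) * (16 * (b - c ^ 2 / 4) + (6 * c ^ 2 - 9 * c + 8))
          + c / 4 * (c - 2) * (2 * c ^ 2 - 5 * c + 6) := by ring
    rw [this]
    have h3 : 0 ≤ b - c ^ 2 / 4 := by linarith
    have h4 : 0 ≤ 6 * c ^ 2 - 9 * c + 8 := by nlinarith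
    have h5 : 0 ≤ c - 2 := by linarith
    have h6 : 0 ≤ 2 * c ^ 2 - 5 * c + 6 := by nlinarith
    have h7 : 0 ≤ c / 4 := by linarith
    positivity
  have a1 : 0 ≤ 4 * b ^ 2 + b * (4 * c ^ 2 - 9 * c + 4) - 3 * c * (c - 1) ^ 2 := by
    have : 4 * b ^ 2 + b * (4 * c ^ 2 - 9 * c + 4) - 3 * c * (c - 1) ^ 2
        = (b - c ^ 2 / 4) * (4 * (b - c ^ 2 / 4) + (6 * c ^ 2 - 9 * c + 4))
          + c / 4 * (c - 2) * ((c - 1) * (5 * c - 6)) := by ring
    rw [this]
    have h3 : 0 ≤ b - c ^ 2 / 4 := by linarith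
    have h4 : 0 ≤ 6 * c ^ 2 - 9 * c + 4 := by nlinarith
    have h5 : 0 ≤ c - 2 := by linarith
    have h6 : 0 ≤ (c - 1) * (5 * c - 6) := by nlinarith
    have h7 : 0 ≤ c / 4 := by linarith
    positivity
  have a0 : 0 < c * (c - 1) * ((c - 1) ^ 2 - b) := by
    have h3 : 0 < c - 1 := by linarith
    have hcb : c < b + 1 := by nlinarith [mul_pos (sub_pos.2 hb) (sub_pos.2 hb)]
    have h4 : 0 < (c - 1) ^ 2 - b := by nlinarith
    positivity
  have : 0 ≤ (16 * b ^ 2 + b * (8 - 9 * c - 2 * c ^ 2) + 2 * c ^ 2 - 3 * c) * e ^ 2 := by positivity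
  have : 0 ≤ (4 * b ^ 2 + b * (4 * c ^ 2 - 9 * c + 4) - 3 * c * (c - 1) ^ 2) * e := by positivity
  linarith

/-- the upper bound for `n0` -/
lemma n0_le {t : ℝ} (ht : 0 ≤ t) :
    β * EE β t * (cc β - EE β t + t * II β t) - ((EE β t - cc β) ^ 2 + II β t ^ 2)
      ≤ (cc β - 1) * (β + 1 - cc β) + ((β + 2) * cc β - 4 * β - 2) * (EE β t - 1) := by
  set c := cc β with hc
  set ν := (β + 2) * c - 4 * β - 2 with hν
  -- n2 ≤ ν
  have hn2 : ∀ t, 0 ≤ t → 0 ≤ ν - ((β + 2) * c + (2 * β + 1) * (t * II β t - 2 * EE β t)) := by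
    refine nonneg_of_deriv (f := fun t => ν - ((β + 2) * c + (2 * β + 1) * (t * II β t - 2 * EE β t)))
      (f' := fun t => (2 * β + 1) * (t * Ip β t - II β t)) ?_ ?_ ?_
    · intro t
      have hI := hasDerivAt_II β t
      have hE := hasDerivAt_EE β t
      have hh := hasDerivAt_id t
      have h1 := ((((hh.mul hI).sub (hE.const_mul 2)).const_mul (2 * β + 1)).const_add
        ((β + 2) * c)).const_sub ν
      refine HasDerivAt.congr_deriv h1 ?_
      simp only [id]
      ring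
    · simp only [II_zero, EE_zero, hν]
      apply le_of_eq
      ring
    · intro t ht
      have := II_le hβ ht.le
      have h2 : 0 ≤ t * Ip β t - II β t := by linarith
      have h3 : 0 ≤ 2 * β + 1 := by linarith
      positivity
  -- n1 ≤ 2 ν t
  have hn1 : ∀ t, 0 ≤ t → 0 ≤ 2 * ν * t - (2 * (β + 2) * t * (c - EE β t)
      + (2 * β + 1) * t ^ 2 * II β t - 3 * II β t) := by
    refine nonneg_of_deriv (f := fun t => 2 * ν * t - (2 * (β + 2) * t * (c - EE β t)
      + (2 * β + 1) * t ^ 2 * II β t - 3 * II β t))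
      (f' := fun t => 2 * (ν - ((β + 2) * c + (2 * β + 1) * (t * II β t - 2 * EE β t)))) ?_ ?_ ?_
    · intro t
      have hI := hasDerivAt_II β t
      have hE := hasDerivAt_EE β t
      have hh := hasDerivAt_id t
      have h2 := hasDerivAt_pow 2 t
      have h1 := (hh.const_mul (2 * ν)).sub ((((hh.const_mul (2 * (β + 2))).mul (hE.const_sub c)).add
        ((h2.const_mul (2 * β + 1)).mul hI)).sub (hI.const_mul 3))
      refine HasDerivAt.congr_deriv h1 ?_
      have hP : Ip β t = 2 * β * EE β t / (1 + t ^ 2) := by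
        rw [EE_eq]
        have := (base_pos t).ne'
        field_simp
      simp only [id]
      rw [hP]
      have := (base_pos t).ne'
      field_simp
      push_cast
      ring
    · simp [II_zero, EE_zero]
    · intro t ht
      have := hn2 t ht.le
      linarith
  have h := mono0t (f := fun t => ν * (EE β t - 1) - (β * EE β t * (c - EE β t + t * II β t)
      - ((EE β t - c) ^ 2 + II β t ^ 2)))
    (f' := fun t => Ip β t / 2 * (2 * ν * t - (2 * (β + 2) * t * (c - EE β t)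
      + (2 * β + 1) * t ^ 2 * II β t - 3 * II β t))) ht
    (fun t => by
      have hI := hasDerivAt_II β t
      have hE := hasDerivAt_EE β t
      have hh := hasDerivAt_id t
      have h1 := ((hE.sub_const 1).const_mul ν).sub (((hE.const_mul β).mul
        ((hE.const_sub c).add (hh.mul hI))).sub (((hE.sub_const c).pow 2).add (hI.pow 2)))
      refine HasDerivAt.congr_deriv h1 ?_
      have hP : Ip β t = 2 * β * EE β t / (1 + t ^ 2) := by
        rw [EE_eq]
        have := (base_pos t).ne'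
        field_simp
      simp only [id, Pi.mul_apply, Pi.add_apply]
      rw [hP]
      have := (base_pos t).ne'
      field_simp
      push_cast
      ring)
    (fun x hx0 _ => mul_nonneg (by have := Ip_pos hβ x; positivity) (hn1 x hx0.le))
  simp only [II_zero, EE_zero] at h
  nlinarith

lemma H_pos_aux {t : ℝ} (ht : 0 ≤ t) :
    0 < (β - 1) * cc β * EE β t * ((EE β t - cc β) ^ 2 + II β t ^ 2)
      - (β * EE β t * (cc β - EE β t + t * II β t) - ((EE β t - cc β) ^ 2 + II β t ^ 2))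
        * (cc β ^ 2 + II β t ^ 2) := by
  have hn := n0_le hβ ht
  have hc1 := cc_sq_le hβ
  have hc2 := cc_sq_ge hβ
  have hc3 := cc_lt hβ
  have hc5 := cc_ge_two hβ
  have hII := IIsq_ge hβ ht
  have hEg := EE_ge hβ t
  set c := cc β
  set I := II β t
  set E := EE β t
  have he : 0 ≤ E - 1 := by nlinarith [sq_nonneg t]
  have hp := poly_aux hc5 hβ hc1 hc2 he
  set N0 := (c - 1) * (β + 1 - c) + ((β + 2) * c - 4 * β - 2) * (E - 1) with hN0
  have hκ : 0 ≤ (β - 1) * c * E - N0 := by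
    have e1 : (β - 1) * c * E - N0 = (4 * β + 2 - 3 * c) * (E - 1) + (c ^ 2 - 3 * c + β + 1) := by
      rw [hN0]; ring
    rw [e1]
    have k1 : 0 ≤ 4 * β + 2 - 3 * c := by
      by_contra hcon
      push Not at hcon
      nlinarith
    have k2 : 0 ≤ c ^ 2 - 3 * c + β + 1 := by nlinarith
    positivity
  have h1 : (β * E * (c - E + t * I) - ((E - c) ^ 2 + I ^ 2)) * (c ^ 2 + I ^ 2)
      ≤ N0 * (c ^ 2 + I ^ 2) := by
    have : 0 ≤ c ^ 2 + I ^ 2 := by positivity
    gcongr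
  have h2 : 4 * β * (E - 1) * ((β - 1) * c * E - N0) ≤ I ^ 2 * ((β - 1) * c * E - N0) := by
    gcongr
  have e3 : 4 * β * (E - 1) * ((4 * β + 2 - 3 * c) * (1 + (E - 1)) + c ^ 2 - 3 * β - 1)
      = 4 * β * (E - 1) * ((β - 1) * c * E - N0) := by
    rw [hN0]; ring
  rw [e3] at hp
  nlinarith

lemma H_pos (t : ℝ) :
    0 < (β - 1) * cc β * EE β t * ((EE β t - cc β) ^ 2 + II β t ^ 2)
      - (β * EE β t * (cc β - EE β t + t * II β t) - ((EE β t - cc β) ^ 2 + II β t ^ 2))
        * (cc β ^ 2 + II β t ^ 2) := by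
  revert t
  refine even_ext (fun t ht => H_pos_aux hβ ht) ?_
  intro t h
  rw [II_neg, EE_neg]
  simp only [neg_mul_neg, neg_sq]
  exact h

lemma Dd_pos (t : ℝ) : 0 < (EE β t - cc β) ^ 2 + II β t ^ 2 := by
  revert t
  refine even_ext (fun t ht => ?_) ?_
  · rcases eq_or_lt_of_le ht with h | h
    · subst h
      rw [EE_zero, II_zero]
      have := cc_ge_two hβ
      nlinarith
    · have h1 := II_ge hβ ht
      have h2 : 0 < 2 * β * t := by positivity
      have h3 : 0 < II β t := by linarith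
      positivity
  · intro t h
    rw [II_neg, EE_neg]
    simpa using h

lemma Dn_pos (t : ℝ) : 0 < cc β ^ 2 + II β t ^ 2 := by
  have := cc_pos hβ
  positivity

/-- `Re[(1+s)R] ≥ 1` on the axis -/
lemma ax1 (t : ℝ) : EE β t ≤ cc β + t * II β t := by
  revert t
  refine even_ext (fun t ht => ?_) ?_
  · have h1 := JJ_ge hβ ht
    have h2 := cc_ge_two hβ
    have : 0 ≤ β * t ^ 2 := by positivity
    linarith
  · intro t h
    rw [II_neg, EE_neg]
    linarith [h, neg_mul_neg t (II β t)]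

/-- `Re[(1+s)S] ≥ 1` on the axis -/
lemma ax2 (t : ℝ) : EE β t * (1 + t ^ 2) ≤ (t ^ 2 - 1) * (EE β t - cc β) + 2 * t * II β t := by
  revert t
  refine even_ext (fun t ht => ?_) ?_
  · have h1 := JJ_ge hβ ht
    have h2 := cc_ge_two hβ
    have h3 := cc_sq_le hβ
    have h4 : cc β ≤ 2 * β := by nlinarith
    nlinarith [sq_nonneg t]
  · intro t h
    rw [II_neg, EE_neg]
    have : (-t) ^ 2 = t ^ 2 := by ring
    rw [this]
    linarith [h, neg_mul_neg (2 * t) (II β t)]

/-- `Re Q ≤ 1/2` on the axis -/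
lemma ax3 (t : ℝ) : 2 * (cc β * EE β t) ≤ cc β ^ 2 + II β t ^ 2 := by
  revert t
  refine even_ext (fun t ht => ?_) ?_
  · have h1 := IIsq_ge hβ ht
    have h2 := cc_ge_two hβ
    have h3 := cc_sq_le hβ
    have h4 := EE_ge hβ t
    have h5 : 0 ≤ EE β t - 1 := by nlinarith [sq_nonneg t]
    have h6 : cc β ^ 2 * (EE β t - 1) ≤ 4 * β * (EE β t - 1) := by gcongr
    have h7 : cc β ^ 2 * EE β t ≤ cc β ^ 2 + II β t ^ 2 := by linarith
    have h8 : 2 * (cc β * EE β t) ≤ cc β ^ 2 * EE β t := by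
      have : 0 < EE β t := EE_pos β t
      have h9 := mul_nonneg (sub_nonneg.2 h2) (mul_pos (cc_pos hβ) this).le
      nlinarith
    linarith
  · intro t h
    rw [II_neg, EE_neg]
    linarith [h, neg_sq (II β t)]

end

end Pool.Agent.J4.H68.AC
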